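import Pool.Agent.Lib.MP_11d477_gt.HI.Basic

/-!
A homogeneous decomposable continuum that is not aposyndetic has a proper nondegenerate terminal
subcontinuum (the fibre of the aposyndetic decomposition of Jones).
-/

set_option autoImplicit false

open Set Metric Topology

namespace Pool.Agent.Lib.MP_11d477_gt.HI

variable {X : Type} [MetricSpace X]

/-- aposyndetic: each point has a continuum neighbourhood missing any other given point -/
def Apo (X : Type) [MetricSpace X] : Prop :=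
  ∀ x y : X, x ≠ y → ∃ K : Set X, Cont K ∧ x ∈ interior K ∧ y ∉ K

/-- the points all of whose continuum neighbourhoods contain `y` -/
def jT (y : X) : Set X := {x | ∀ K : Set X, Cont K → x ∈ interior K → y ∈ K}

theorem jT_self (y : X) : y ∈ jT y := fun _ _ h => interior_subset h

theorem jT_not {x y : X} (h : x ∉ jT y) : ∃ K : Set X, Cont K ∧ x ∈ interior K ∧ y ∉ K := by
  by_contra hc
  exact h fun K hK hx => by_contra fun hy => hc ⟨K, hK, hx, hy⟩

theorem jT_closed (y : X) : IsClosed (jT y) := by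
  rw [← isOpen_compl_iff, isOpen_iff_forall_mem_open]
  intro x hx
  obtain ⟨K, hK, hxK, hy⟩ := jT_not hx
  exact ⟨interior K, fun z hz hz' => hy (hz' K hK hz), isOpen_interior, hxK⟩

variable [CompactSpace X]

theorem jT_map (h : X ≃ₜ X) {x y : X} (hx : x ∈ jT y) : h x ∈ jT (h y) := by
  intro K hK hxK
  have h1 : x ∈ interior (h.symm '' K) := by
    rw [← h.symm.image_interior]
    exact ⟨h x, hxK, by simp⟩
  obtain ⟨z, hz, hzy⟩ := hx (h.symm '' K) (hK.image h.symm) h1
  have : z = h y := by rw [← hzy]; simp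
  exact this ▸ hz

theorem jT_outlet (eff : Eff X) {y : X} {L : Set X} (hL : Cont L) (hm : (L ∩ jT y).Nonempty)
    (hy : y ∉ L) : L ⊆ jT y := by
  obtain ⟨z, hzL, hz⟩ := hm
  intro v hv
  by_contra hvT
  obtain ⟨K, hK, hvK, hyK⟩ := jT_not hvT
  obtain ⟨e1, he1, hb⟩ := Metric.isOpen_iff.1 isOpen_interior v hvK
  obtain ⟨e2, he2, hb2⟩ := Metric.isOpen_iff.1 hL.1.isClosed.isOpen_compl y hy
  have hfar : ∀ w ∈ L, e2 ≤ dist w y := fun w hw =>
    by_contra fun h => hb2 (mem_ball.2 (not_le.1 h)) hw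
  obtain ⟨δ, hδ, hδe⟩ := eff (min e1 (e2 / 2)) (lt_min he1 (by positivity))
  let N : Set X := ⋃₀ {M | ∃ h : X ≃ₜ X, Small h (min e1 (e2 / 2)) ∧ M = K ∪ h '' L}
  have hN : IsPreconnected N := by
    refine isPreconnected_sUnion v _ ?_ ?_
    · rintro M ⟨h, -, rfl⟩
      exact Or.inl (interior_subset hvK)
    · rintro M ⟨h, hh, rfl⟩
      refine (hK.union (hL.image h) ⟨h v, interior_subset (hb ?_), v, hv, rfl⟩).2.isPreconnected
      exact mem_ball.2 ((hh v).trans_le (min_le_left _ _))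
  have hball : ball z δ ⊆ N := by
    intro w hw
    obtain ⟨h, hh, hzw⟩ := hδe z w (by rw [dist_comm]; exact mem_ball.1 hw)
    exact ⟨K ∪ h '' L, ⟨h, hh, rfl⟩, Or.inr ⟨z, hzL, hzw⟩⟩
  have hC : Cont (closure N) :=
    ⟨isClosed_closure.isCompact, IsConnected.closure ⟨⟨z, hball (mem_ball_self hδ)⟩, hN⟩⟩
  have hzi : z ∈ interior (closure N) :=
    interior_maximal (hball.trans subset_closure) isOpen_ball (mem_ball_self hδ)
  have hsub : closure N ⊆ K ∪ {w | e2 / 2 ≤ dist w y} := by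
    refine closure_minimal ?_ (hK.1.isClosed.union (isClosed_le continuous_const (by fun_prop)))
    rintro w ⟨M, ⟨h, hh, rfl⟩, hw | ⟨l, hl, rfl⟩⟩
    · exact Or.inl hw
    · right
      have h1 := hfar l hl
      have h2 := (hh l).trans_le (min_le_right _ _)
      have h3 := dist_triangle_left l y (h l)
      show e2 / 2 ≤ dist (h l) y
      linarith
  rcases hsub (hz _ hC hzi) with h | h
  · exact hyK h
  · have : e2 / 2 ≤ dist y y := h
    rw [dist_self] at this
    linarith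

theorem jT_trans (eff : Eff X) {x y : X} (hx : x ∈ jT y) : jT x ⊆ jT y := by
  intro z hz K hK hzK
  by_contra hyK
  exact hyK (jT_outlet eff hK ⟨x, hz K hK hzK, hx⟩ hyK (interior_subset hzK) K hK hzK)

theorem jT_symm (hom : ∀ x y : X, ∃ h : X ≃ₜ X, h x = y) (eff : Eff X) {x y : X}
    (hx : x ∈ jT y) : y ∈ jT x := by
  obtain ⟨T, -, hT⟩ := zorn_superset_nonempty (range (jT : X → Set X)) (by
    intro c hc hch hne
    have : Nonempty c := hne.to_subtype
    obtain ⟨m, hm⟩ := IsCompact.nonempty_sInter_of_directed_nonempty_isCompact_isClosed (S := c)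
      (fun a ha b hb => by
        rcases hch.total ha hb with h | h
        · exact ⟨a, ha, subset_rfl, h⟩
        · exact ⟨b, hb, h, subset_rfl⟩)
      (fun U hU => by obtain ⟨u, rfl⟩ := hc hU; exact ⟨u, jT_self u⟩)
      (fun U hU => by obtain ⟨u, rfl⟩ := hc hU; exact (jT_closed u).isCompact)
      (fun U hU => by obtain ⟨u, rfl⟩ := hc hU; exact jT_closed u)
    refine ⟨jT m, ⟨m, rfl⟩, fun s hs => ?_⟩
    obtain ⟨u, rfl⟩ := hc hs
    exact jT_trans eff (hm _ hs)) (jT y) ⟨y, rfl⟩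
  obtain ⟨m, rfl⟩ := hT.prop
  obtain ⟨h, rfl⟩ := hom m y
  have h1 : h.symm x ∈ jT m := by simpa using jT_map h.symm hx
  have h2 : jT m ⊆ jT (h.symm x) := hT.le_of_le ⟨_, rfl⟩ (jT_trans eff h1)
  simpa using jT_map h (h2 (jT_self m))

theorem jT_dich (hom : ∀ x y : X, ∃ h : X ≃ₜ X, h x = y) (eff : Eff X) {q : X} {L : Set X}
    (hL : Cont L) (hm : (L ∩ jT q).Nonempty) : L ⊆ jT q ∨ jT q ⊆ L := by
  by_cases h : jT q ⊆ L
  · exact Or.inr h
  · obtain ⟨w, hw, hwL⟩ := not_subset.1 h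
    obtain ⟨z, hzL, hz⟩ := hm
    exact Or.inl ((jT_outlet eff hL ⟨z, hzL, jT_trans eff (jT_symm hom eff hw) hz⟩ hwL).trans
      (jT_trans eff hw))

theorem exists_proper_term [ConnectedSpace X] (hom : ∀ x y : X, ∃ h : X ≃ₜ X, h x = y)
    (eff : Eff X) (hna : ¬ Apo X) (hd : ¬ Indec X) :
    ∃ D : Set X, Term D ∧ D.Nontrivial ∧ D ≠ univ := by
  obtain ⟨x, y, hxy, hx⟩ : ∃ x y : X, x ≠ y ∧ x ∈ jT y := by
    by_contra hc
    exact hna fun x y hxy => jT_not fun h => hc ⟨x, y, hxy, h⟩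
  obtain ⟨p, q, hpq⟩ : ∃ p q : X, p ∉ jT q := by
    by_contra hc
    refine hd fun K L hK hL hu => by_contra fun hn => ?_
    obtain ⟨h1, h2⟩ := not_or.1 hn
    obtain ⟨q, hq⟩ := (ne_univ_iff_exists_notMem K).1 h1
    obtain ⟨p, hp⟩ := (ne_univ_iff_exists_notMem L).1 h2
    refine hc ⟨p, q, fun h => hq (h K hK ?_)⟩
    refine interior_maximal (fun w hw => ?_) hL.1.isClosed.isOpen_compl hp
    exact ((hu ▸ mem_univ w : w ∈ K ∪ L)).resolve_right hw
  obtain ⟨h, rfl⟩ := hom y q
  have hx' := jT_map h hx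
  have hne : h x ≠ h y := fun e => hxy (h.injective e)
  have hin : ∀ L, Cont L → (L ∩ connectedComponentIn (jT (h y)) (h y)).Nonempty → L ⊆ jT (h y) →
      L ⊆ connectedComponentIn (jT (h y)) (h y) := by
    rintro L hL ⟨z, hzL, hz⟩ hsub
    rw [connectedComponentIn_eq hz]
    exact hL.2.isPreconnected.subset_connectedComponentIn hzL hsub
  have hq : h y ∈ connectedComponentIn (jT (h y)) (h y) := mem_connectedComponentIn (jT_self _)
  refine ⟨connectedComponentIn (jT (h y)) (h y), ⟨cont_comp (jT_closed _) (jT_self _), ?_⟩, ?_, ?_⟩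
  · intro L hL hm
    rcases jT_dich hom eff hL (hm.mono (inter_subset_inter_right _
      (connectedComponentIn_subset _ _))) with h1 | h1
    · exact Or.inl (hin L hL hm h1)
    · exact Or.inr ((connectedComponentIn_subset _ _).trans h1)
  · have hu : Cont (univ : Set X) := ⟨isCompact_univ, isConnected_univ⟩
    obtain ⟨M, hM, hqM, hMne, hMU, -⟩ := bump hu (cont_singleton (h y)) (subset_univ _)
      (fun e => hne (mem_singleton_iff.1 (e ▸ mem_univ (h x)))) (U := {h x}ᶜ)
      isOpen_compl_singleton (by simpa using hxy)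
    have hyM : h y ∈ M := hqM rfl
    have h1 : M ⊆ jT (h y) := (jT_dich hom eff hM ⟨_, hyM, jT_self _⟩).resolve_right
      fun h2 => hMU (h2 hx') rfl
    have h2 := hin M hM ⟨_, hyM, hq⟩ h1
    obtain ⟨w, hw, hw'⟩ := not_subset.1 fun h3 : M ⊆ {h y} => hMne (h3.antisymm hqM)
    exact ⟨w, h2 hw, _, hq, hw'⟩
  · intro e
    exact hpq (connectedComponentIn_subset _ _ (e ▸ mem_univ p))

/-- a nondegenerate indecomposable continuum is not aposyndetic -/
theorem not_apo_of_indec [ConnectedSpace X] [Nontrivial X] (hi : Indec X) : ¬ Apo X := by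
  intro ha
  obtain ⟨x, y, hxy⟩ := exists_pair_ne X
  obtain ⟨K, hK, hx, hy⟩ := ha x y hxy
  exact thin_univ hi K hK (subset_univ _) (fun e => hy (e ▸ mem_univ y)) (interior K)
    isOpen_interior ⟨x, hx, mem_univ _⟩ fun w hw => interior_subset hw.1

end Pool.Agent.Lib.MP_11d477_gt.HI
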