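import Pool.Agent.Lib.MP_11d477_gt.HI.Clean

/-!
Step 0 relative to proper terminal subcontinua: two meeting, non-nested subcontinua inside a proper
terminal subcontinuum give a proper clean terminal subcontinuum.
-/

set_option autoImplicit false

open Set Metric Topology

namespace Pool.Agent.Lib.MP_11d477_gt.HI

variable {X : Type} [MetricSpace X] [CompactSpace X]

/-- both sets lie in one proper terminal subcontinuum -/
def InProper (K L : Set X) : Prop := ∃ D : Set X, Term D ∧ D ≠ univ ∧ K ⊆ D ∧ L ⊆ D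

theorem InProper.image {K L : Set X} (h : InProper K L) (g : X ≃ₜ X) :
    InProper (g '' K) (g '' L) := by
  obtain ⟨D, hD, hne, hK, hL⟩ := h
  refine ⟨g '' D, hD.image g, fun e => hne ?_, image_mono hK, image_mono hL⟩
  apply eq_univ_of_forall
  intro x
  exact g.injective.mem_set_image.mp (e ▸ mem_univ (g x))

theorem veeP_uniform (hom : ∀ x y : X, ∃ h : X ≃ₜ X, h x = y) (eff : Eff X) {K L : Set X}
    (hK : Cont K) (hL : Cont L) (hm : (K ∩ L).Nonempty) (h1 : ¬ K ⊆ L) (h2 : ¬ L ⊆ K)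
    (hp : InProper K L) :
    ∃ σ : ℝ, 0 < σ ∧ ∀ x : X, ∃ K L : Set X, Vee σ K L ∧ InProper K L ∧ x ∈ K ∧ x ∈ L := by
  obtain ⟨p, hpK, hpL⟩ := hm
  obtain ⟨a, haK, haL⟩ := not_subset.mp h1
  obtain ⟨b, hbL, hbK⟩ := not_subset.mp h2
  have pt : ∀ x : X, ∃ σ : ℝ, 0 < σ ∧ ∃ K L : Set X, Vee σ K L ∧ InProper K L ∧ x ∈ K ∧ x ∈ L := by
    intro x
    obtain ⟨g, rfl⟩ := hom p x
    have ha : g a ∉ g '' L := fun h => haL (g.injective.mem_set_image.mp h)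
    have hb : g b ∉ g '' K := fun h => hbK (g.injective.mem_set_image.mp h)
    obtain ⟨s, hs, hs'⟩ := far_of_notMem (hL.image g).1 ha
    obtain ⟨t, ht, ht'⟩ := far_of_notMem (hK.image g).1 hb
    exact ⟨min s t, lt_min hs ht, g '' K, g '' L, ⟨hK.image g, hL.image g,
      ⟨g a, mem_image_of_mem _ haK, fun z hz => (min_le_left _ _).trans (hs' z hz)⟩,
      ⟨g b, mem_image_of_mem _ hbL, fun z hz => (min_le_right _ _).trans (ht' z hz)⟩⟩,
      hp.image g, mem_image_of_mem _ hpK, mem_image_of_mem _ hpL⟩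
  have loc : ∀ x : X, ∃ σ : ℝ, 0 < σ ∧ ∃ δ : ℝ, 0 < δ ∧ ∀ y ∈ ball x δ,
      ∃ K L : Set X, Vee σ K L ∧ InProper K L ∧ y ∈ K ∧ y ∈ L := by
    intro x
    obtain ⟨σ, hσ, K, L, ⟨hK, hL, ⟨a, ha, ha'⟩, ⟨b, hb, hb'⟩⟩, hp, hxK, hxL⟩ := pt x
    obtain ⟨δ, hδ, he⟩ := eff (σ / 4) (by positivity)
    refine ⟨σ / 2, by positivity, δ, hδ, fun y hy => ?_⟩
    obtain ⟨g, hg, rfl⟩ := he x y (by rwa [mem_ball, dist_comm] at hy)
    have e : σ / 2 = σ - 2 * (σ / 4) := by ring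
    refine ⟨g '' K, g '' L, ⟨hK.image g, hL.image g, ⟨g a, mem_image_of_mem _ ha, ?_⟩,
      ⟨g b, mem_image_of_mem _ hb, ?_⟩⟩, hp.image g, mem_image_of_mem _ hxK,
      mem_image_of_mem _ hxL⟩
    · rw [e]; exact far_image hg ha'
    · rw [e]; exact far_image hg hb'
  choose σ hσ δ hδ hloc using loc
  obtain ⟨T, hT⟩ := isCompact_univ.elim_finite_subcover (fun x : X => ball x (δ x))
    (fun _ => isOpen_ball) (fun x _ => mem_iUnion.mpr ⟨x, mem_ball_self (hδ x)⟩)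
  obtain ⟨m, hm, hm'⟩ : ∃ m : ℝ, 0 < m ∧ ∀ x ∈ T, m ≤ σ x := by
    rcases T.eq_empty_or_nonempty with rfl | hne
    · exact ⟨1, one_pos, by simp⟩
    · obtain ⟨x, -, hx⟩ := T.exists_min_image σ hne
      exact ⟨σ x, hσ x, hx⟩
  refine ⟨m, hm, fun y => ?_⟩
  obtain ⟨x, hx, hy⟩ := mem_iUnion₂.mp (hT (mem_univ y))
  obtain ⟨K, L, hv, hp, h1, h2⟩ := hloc x y hy
  exact ⟨K, L, hv.mono (hm' x hx), hp, h1, h2⟩

/-- a family of sets cannot grow for ever by points `σ`-far from the previous member -/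
theorem no_growth [Nonempty X] {σ : ℝ} (hσ : 0 < σ) (P : Set X → Prop) {S₀ : Set X} (h0 : P S₀)
    (hs : ∀ S, P S → ∃ S', P S' ∧ S ⊆ S' ∧ ∃ a ∈ S', ∀ z ∈ S, σ ≤ dist a z) : False := by
  choose! nx hP hsub a ha hfar using hs
  let s : ℕ → Set X := fun n => nx^[n] S₀
  have hsucc : ∀ n, s (n + 1) = nx (s n) := fun n => Function.iterate_succ_apply' nx n S₀
  have hPs : ∀ n, P (s n) := by
    intro n
    induction n with
    | zero => exact h0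
    | succ n ih => rw [hsucc]; exact hP _ ih
  have hmono : Monotone s := monotone_nat_of_le_succ fun n => by
    rw [hsucc]; exact hsub _ (hPs n)
  obtain ⟨x, -, φ, hφ, hlim⟩ := isCompact_univ.tendsto_subseq
    (x := fun n => a (s n)) fun _ => mem_univ _
  obtain ⟨N, hN⟩ := Metric.cauchySeq_iff'.1 hlim.cauchySeq σ hσ
  have h1 := hN (N + 1) (Nat.le_succ N)
  have h2 : a (s (φ N)) ∈ s (φ (N + 1)) := by
    refine hmono (show φ N + 1 ≤ φ (N + 1) from hφ (Nat.lt_succ_self N)) ?_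
    rw [hsucc]
    exact ha _ (hPs _)
  exact absurd h1 (not_lt.2 (hfar _ (hPs _) _ h2))

theorem exists_clean_proper (hom : ∀ x y : X, ∃ h : X ≃ₜ X, h x = y) (eff : Eff X)
    {D K L : Set X} (hD : Term D) (hDne : D ≠ univ) (hK : Cont K) (hL : Cont L) (hKD : K ⊆ D)
    (hLD : L ⊆ D) (hm : (K ∩ L).Nonempty) (h1 : ¬ K ⊆ L) (h2 : ¬ L ⊆ K) :
    ∃ (S : Set X) (σ : ℝ), 0 < σ ∧ Term S ∧ S.Nontrivial ∧ Clean S σ ∧ S ≠ univ := by
  obtain ⟨σ, hσ, hv⟩ := veeP_uniform hom eff hK hL hm h1 h2 ⟨D, hD, hDne, hKD, hLD⟩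
  have : Nonempty X := ⟨hm.some⟩
  let F : Set (Set X) := {S | Term S ∧ ∀ K L, Vee σ K L → InProper K L → ¬ S ⊆ K ∩ L}
  have hne : ∀ {K L : Set X}, Vee σ K L → ¬ K ⊆ L := by
    rintro K L ⟨-, -, ⟨a, ha, ha'⟩, -⟩ hKL
    have := ha' a (hKL ha)
    rw [dist_self] at this
    linarith
  have hout : ∀ S, Term S → S ∉ F → ∃ K L, Vee σ K L ∧ InProper K L ∧ S ⊆ K ∩ L := by
    intro S hS hSF
    by_contra h0
    exact hSF ⟨hS, fun K L hKL hp hs => h0 ⟨K, L, hKL, hp, hs⟩⟩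
  obtain ⟨S₀, hS₀, hS₀ne⟩ : ∃ S₀ ∈ F, S₀ ≠ univ := by
    by_contra hc
    refine no_growth hσ (fun S : Set X => Term S ∧ S ≠ univ) ⟨hD, hDne⟩ fun S hS => ?_
    obtain ⟨K, L, ⟨-, -, ⟨a, ha, ha'⟩, -⟩, ⟨E, hE, hEne, hKE, -⟩, hs⟩ :=
      hout S hS.1 fun h => hc ⟨S, h, hS.2⟩
    exact ⟨E, ⟨hE, hEne⟩, fun z hz => hKE (hs hz).1, a, hKE ha, fun z hz => ha' z (hs hz).2⟩
  obtain ⟨S, hSS, hS⟩ := zorn_superset_nonempty F (fun c hcF hc hcne => by
    have ht := term_sInter hc hcne fun S hS => (hcF hS).1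
    refine ⟨⋂₀ c, ⟨ht, fun K L hKL hp hs => ?_⟩, fun S hS => sInter_subset_of_mem hS⟩
    obtain ⟨x, hx⟩ := ht.1.2.1
    exact hne hKL fun z hz => (hs fun S hS => (vee_inside hσ hKL (hcF hS).1 (hx S hS) (hs hx).1
      (hs hx).2 ((hcF hS).2 K L hKL hp)).1 hz).2) S₀ hS₀
  have hSF : S ∈ F := hS.prop
  refine ⟨S, σ, hσ, hSF.1, ?_, ?_, fun e => hS₀ne (univ_subset_iff.1 (e ▸ hSS))⟩
  · by_contra hnt
    obtain ⟨x, hx⟩ := hSF.1.1.2.1
    obtain ⟨K, L, hKL, hp, h1, h2⟩ := hv x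
    exact hSF.2 K L hKL hp fun z hz => by
      rw [not_nontrivial_iff.mp hnt hz hx]
      exact ⟨h1, h2⟩
  · intro E hE hES hEne
    obtain ⟨K, L, hKL, hp, hs⟩ := hout E hE
      fun hEF => hEne (Subset.antisymm hES (hS.le_of_le hEF hES))
    obtain ⟨x, hx⟩ := hE.1.2.1
    have hin := vee_inside hσ hKL hSF.1 (hES hx) (hs hx).1 (hs hx).2 (hSF.2 K L hKL hp)
    obtain ⟨-, -, ⟨a, ha, ha'⟩, -⟩ := hKL
    exact ⟨a, hin.1 ha, fun z hz => ha' z (hs hz).2⟩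

/-- If subcontinua of proper terminal subcontinua are nested when they meet and one proper
terminal subcontinuum is nondegenerate, then all small subcontinua are terminal. -/
theorem small_term (hom : ∀ x y : X, ∃ h : X ≃ₜ X, h x = y) (eff : Eff X)
    {D : Set X} (hD : Term D) (hnt : D.Nontrivial) (hDne : D ≠ univ)
    (hn : ∀ E K L : Set X, Term E → E ≠ univ → Cont K → Cont L → K ⊆ E → L ⊆ E →
      (K ∩ L).Nonempty → K ⊆ L ∨ L ⊆ K) :
    ∃ d : ℝ, 0 < d ∧ ∀ K : Set X, Cont K → (∀ x ∈ K, ∀ y ∈ K, dist x y < d) → Term K := by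
  obtain ⟨p, hp, q, hq, hpq⟩ := hnt
  have im : ∀ (E : Set X) (g : X ≃ₜ X), E ≠ univ → g '' E ≠ univ := fun E g hE e =>
    hE (eq_univ_of_forall fun x => g.injective.mem_set_image.mp (e ▸ mem_univ (g x)))
  have loc : ∀ x : X, ∃ σ : ℝ, 0 < σ ∧ ∃ δ : ℝ, 0 < δ ∧ ∀ y ∈ ball x δ,
      ∃ E : Set X, Term E ∧ E ≠ univ ∧ y ∈ E ∧ ∃ z ∈ E, σ ≤ dist y z := by
    intro x
    obtain ⟨h, rfl⟩ := hom p x
    have hσ : 0 < dist (h p) (h q) := dist_pos.2 fun e => hpq (h.injective e)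
    obtain ⟨δ, hδ, he⟩ := eff (dist (h p) (h q) / 4) (by positivity)
    refine ⟨dist (h p) (h q) / 2, by positivity, δ, hδ, fun y hy => ?_⟩
    obtain ⟨g, hg, rfl⟩ := he (h p) y (by rwa [mem_ball, dist_comm] at hy)
    refine ⟨g '' (h '' D), (hD.image h).image g, im _ g (im _ h hDne),
      mem_image_of_mem _ (mem_image_of_mem _ hp), g (h q),
      mem_image_of_mem _ (mem_image_of_mem _ hq), ?_⟩
    have h2 := hg (h p)
    have h3 := hg (h q)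
    have h4 := dist_triangle4 (h p) (g (h p)) (g (h q)) (h q)
    rw [dist_comm (h p) (g (h p))] at h4
    linarith
  choose σ hσ δ hδ hloc using loc
  obtain ⟨T, hT⟩ := isCompact_univ.elim_finite_subcover (fun x : X => ball x (δ x))
    (fun _ => isOpen_ball) (fun x _ => mem_iUnion.mpr ⟨x, mem_ball_self (hδ x)⟩)
  obtain ⟨m, hm, hm'⟩ : ∃ m : ℝ, 0 < m ∧ ∀ x ∈ T, m ≤ σ x := by
    rcases T.eq_empty_or_nonempty with rfl | hne
    · exact ⟨1, one_pos, by simp⟩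
    · obtain ⟨x, -, hx⟩ := T.exists_min_image σ hne
      exact ⟨σ x, hσ x, hx⟩
  refine ⟨m, hm, fun K hK hs => ⟨hK, fun L hL hLK => ?_⟩⟩
  obtain ⟨y, hyL, hyK⟩ := hLK
  obtain ⟨x, hx, hy⟩ := mem_iUnion₂.mp (hT (mem_univ y))
  obtain ⟨E, hE, hEne, hyE, z, hz, hd⟩ := hloc x y hy
  have hKE : K ⊆ E := hE.sub hK ⟨y, hyK, hyE⟩ hz
    fun hzK => absurd (hs y hyK z hzK) (not_lt.2 ((hm' x hx).trans hd))
  rcases hE.2 L hL ⟨y, hyL, hyE⟩ with h | h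
  · exact (hn E K L hE hEne hK hL hKE h ⟨y, hyK, hyL⟩).symm
  · exact Or.inr (hKE.trans h)

end Pool.Agent.Lib.MP_11d477_gt.HI
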