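import Pool.Agent.Lib.MP_11d477_gt.HI.Main
import Pool.Agent.Lib.MP_11d477_gt.HI.Apo
import Pool.Agent.Lib.MP_11d477_gt.HI.ApoP
import Pool.Agent.Lib.MP_11d477_gt.HI.Local

/-!
A homogeneous continuum of trivial shape that is not aposyndetic has dimension at most one.
-/

set_option autoImplicit false

open Set Metric Topology

namespace Pool.Agent.Lib.MP_11d477_gt.HI

variable {X : Type} [MetricSpace X] [CompactSpace X]

theorem nested_in_proper [ConnectedSpace X] (hom : ∀ x y : X, ∃ h : X ≃ₜ X, h x = y)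
    (hs : Shape X) (E K L : Set X) (hE : Term E) (hne : E ≠ univ) (hK : Cont K) (hL : Cont L)
    (hKE : K ⊆ E) (hLE : L ⊆ E) (hm : (K ∩ L).Nonempty) : K ⊆ L ∨ L ⊆ K := by
  by_contra h
  rw [not_or] at h
  have eff := effros hom
  obtain ⟨S, σ, hσ, hS, hnt, hc, hu⟩ := exists_clean_proper hom eff hE hne hK hL hKE hLE hm h.1 h.2
  have ht : Thin S := thin_of_clean eff hσ hS hc hu
  have hw := wall eff hS ht
  exact finish eff hσ hS hnt hc
    (petals eff hS ht hw (fun x hx c hc hne => petal_term eff hS hw hx hc hne) (deadEnd hs))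

theorem dimOne_of_not_apo [ConnectedSpace X] (hom : ∀ x y : X, ∃ h : X ≃ₜ X, h x = y)
    (hna : ¬ Apo X) (hs : Shape X) : DimOne X := by
  by_cases hi : Indec X
  · exact (main hom hi hs).2
  obtain ⟨D, hD, hnt, hne⟩ := exists_proper_term hom (effros hom) hna hi
  obtain ⟨d, hd, h⟩ := small_term hom (effros hom) hD hnt hne (nested_in_proper hom hs)
  exact dimOne_local hs hd h

end Pool.Agent.Lib.MP_11d477_gt.HI
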