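import Pool.Agent.Lib.MP_11d477_gt.HI.Defs

/-!
Basic continuum theory: separation, boundary bumping, terminal continua.
-/

set_option autoImplicit false
set_option linter.unusedSectionVars false

open Set Metric Topology

namespace Pool.Agent.Lib.MP_11d477_gt.HI

variable {X : Type} [MetricSpace X] [CompactSpace X]

theorem side {L A B : Set X} (hL : IsPreconnected L) (hA : IsClosed A) (hB : IsClosed B)
    (hd : Disjoint A B) (hsub : L ⊆ A ∪ B) (hm : (L ∩ A).Nonempty) : L ⊆ A := by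
  have h0 : L ∩ (A ∩ B) = ∅ := by rw [hd.inter_eq, inter_empty]
  rcases (isPreconnected_iff_subset_of_disjoint_closed.mp hL) A B hA hB hsub h0 with h | h
  · exact h
  · obtain ⟨z, hz, hzA⟩ := hm
    exact absurd (h hz) (Set.disjoint_left.mp hd hzA)

theorem cont_comp {R : Set X} (hR : IsClosed R) {x : X} (hx : x ∈ R) :
    Cont (connectedComponentIn R x) := by
  refine ⟨?_, isConnected_connectedComponentIn_iff.mpr hx⟩
  rw [connectedComponentIn_eq_image hx]
  exact (hR.isClosedEmbedding_subtypeVal.isClosedMap _ isClosed_connectedComponent).isCompact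

theorem sep {R P P' : Set X} (hR : IsClosed R) (hP : IsClosed P) (hP' : IsClosed P')
    (hPR : P ⊆ R) (hPR' : P' ⊆ R) (h : ∀ x ∈ P, ∀ y ∈ P', y ∉ connectedComponentIn R x) :
    ∃ A B : Set X, IsClosed A ∧ IsClosed B ∧ Disjoint A B ∧ A ∪ B = R ∧ P ⊆ A ∧ P' ⊆ B := by
  have : CompactSpace R := isCompact_iff_compactSpace.mp hR.isCompact
  have c1 : IsCompact ((↑) ⁻¹' P : Set R) := (hP.preimage continuous_subtype_val).isCompact
  have c2 : IsCompact ((↑) ⁻¹' P' : Set R) := (hP'.preimage continuous_subtype_val).isCompact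
  have s1 : ∀ x : R, x.1 ∈ P → ∃ U : Set R, IsClopen U ∧ x ∈ U ∧ Disjoint U ((↑) ⁻¹' P') := by
    intro x hx
    refine c2.induction_on (p := fun T => ∃ U : Set R, IsClopen U ∧ x ∈ U ∧ Disjoint U T)
      ⟨univ, isClopen_univ, mem_univ _, disjoint_empty _⟩ ?_ ?_ ?_
    · rintro s t hst ⟨U, h1, h2, h3⟩
      exact ⟨U, h1, h2, h3.mono_right hst⟩
    · rintro s t ⟨U, h1, h2, h3⟩ ⟨U', h1', h2', h3'⟩
      exact ⟨U ∩ U', h1.inter h1', ⟨h2, h2'⟩, disjoint_union_right.mpr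
        ⟨h3.mono_left inter_subset_left, h3'.mono_left inter_subset_right⟩⟩
    · intro y hy
      have hn : y ∉ connectedComponent x := by
        intro hc
        apply h x.1 hx y.1 hy
        rw [connectedComponentIn_eq_image x.2]
        exact ⟨y, hc, rfl⟩
      rw [connectedComponent_eq_iInter_isClopen, mem_iInter] at hn
      push Not at hn
      obtain ⟨⟨U, hU, hxU⟩, hyU⟩ := hn
      exact ⟨Uᶜ, mem_nhdsWithin_of_mem_nhds (hU.compl.isOpen.mem_nhds hyU), U, hU, hxU,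
        disjoint_compl_right⟩
  have s2 : ∃ U : Set R, IsClopen U ∧ ((↑) ⁻¹' P : Set R) ⊆ U ∧ Disjoint U ((↑) ⁻¹' P') := by
    refine c1.induction_on
      (p := fun T => ∃ U : Set R, IsClopen U ∧ T ⊆ U ∧ Disjoint U ((↑) ⁻¹' P'))
      ⟨∅, isClopen_empty, Subset.rfl, empty_disjoint _⟩ ?_ ?_ ?_
    · rintro s t hst ⟨U, h1, h2, h3⟩
      exact ⟨U, h1, hst.trans h2, h3⟩
    · rintro s t ⟨U, h1, h2, h3⟩ ⟨U', h1', h2', h3'⟩
      exact ⟨U ∪ U', h1.union h1', union_subset_union h2 h2', disjoint_union_left.mpr ⟨h3, h3'⟩⟩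
    · intro x hx
      obtain ⟨U, h1, h2, h3⟩ := s1 x hx
      exact ⟨U, mem_nhdsWithin_of_mem_nhds (h1.isOpen.mem_nhds h2), U, h1, Subset.rfl, h3⟩
  obtain ⟨U, h1, h2, h3⟩ := s2
  have hcl := hR.isClosedEmbedding_subtypeVal.isClosedMap
  refine ⟨(↑) '' U, (↑) '' Uᶜ, hcl _ h1.isClosed, hcl _ h1.compl.isClosed,
    (disjoint_image_iff Subtype.val_injective).mpr disjoint_compl_right, ?_, ?_, ?_⟩
  · rw [← image_union, union_compl_self, image_univ, Subtype.range_coe]
  · exact fun x hx => ⟨⟨x, hPR hx⟩, h2 hx, rfl⟩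
  · exact fun y hy => ⟨⟨y, hPR' hy⟩, fun hU => Set.disjoint_left.mp h3 hU hy, rfl⟩

theorem reach {S K F : Set X} (hS : Cont S) (hK : Cont K) (hKS : K ⊆ S) (hF : IsClosed F)
    (hKF : K ⊆ F) (hSF : ¬ S ⊆ F) :
    ∃ M, Cont M ∧ K ⊆ M ∧ M ⊆ S ∧ M ⊆ F ∧ (M ∩ closure Fᶜ).Nonempty := by
  obtain ⟨x, hx⟩ := hK.2.nonempty
  have hR : IsClosed (S ∩ F) := hS.1.isClosed.inter hF
  have hxR : x ∈ S ∩ F := ⟨hKS hx, hKF hx⟩
  have hsub := connectedComponentIn_subset (S ∩ F) x
  refine ⟨connectedComponentIn (S ∩ F) x, cont_comp hR hxR,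
    hK.2.isPreconnected.subset_connectedComponentIn hx (subset_inter hKS hKF),
    hsub.trans inter_subset_left, hsub.trans inter_subset_right, ?_⟩
  by_contra hne
  obtain ⟨A, B, hA, hB, hd, hAB, hxA, hPB⟩ := sep (P := {x}) (P' := S ∩ F ∩ closure Fᶜ) hR
    isClosed_singleton (hR.inter isClosed_closure) (singleton_subset_iff.mpr hxR)
    inter_subset_left (by
      rintro _ rfl y hy hc
      exact hne ⟨y, hc, hy.2⟩)
  have hAR : A ⊆ S ∩ F := hAB ▸ subset_union_left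
  have : S ⊆ A := by
    refine side (B := B ∪ closure Fᶜ) hS.2.isPreconnected hA (hB.union isClosed_closure) ?_ ?_
      ⟨x, hxR.1, hxA rfl⟩
    · refine disjoint_union_right.mpr ⟨hd, Set.disjoint_left.mpr fun z hz hz' => ?_⟩
      exact Set.disjoint_left.mp hd hz (hPB ⟨hAR hz, hz'⟩)
    · intro z hz
      by_cases hzF : z ∈ F
      · have : z ∈ A ∪ B := hAB ▸ ⟨hz, hzF⟩
        exact this.elim Or.inl fun h => Or.inr (Or.inl h)
      · exact Or.inr (Or.inr (subset_closure hzF))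
  exact hSF (this.trans (hAR.trans inter_subset_right))

theorem bump {S K U : Set X} (hS : Cont S) (hK : Cont K) (hKS : K ⊆ S) (hne : K ≠ S)
    (hU : IsOpen U) (hKU : K ⊆ U) : ∃ M, Cont M ∧ K ⊆ M ∧ M ≠ K ∧ M ⊆ U ∧ M ⊆ S := by
  obtain ⟨v, hv, hvK⟩ : ∃ v ∈ S, v ∉ K := by
    by_contra hc
    push Not at hc
    exact hne (Subset.antisymm hKS hc)
  obtain ⟨F, hF, h1, h2⟩ := exists_compact_between hK.1 (hU.inter isOpen_compl_singleton)
    (show K ⊆ U ∩ {v}ᶜ from fun z hz => ⟨hKU hz, fun e => hvK (e ▸ hz)⟩)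
  obtain ⟨M, hM, h3, h4, h5, z, hz, hz'⟩ := reach hS hK hKS hF.isClosed
    (h1.trans interior_subset) (fun h => (h2 (h hv)).2 rfl)
  refine ⟨M, hM, h3, ?_, h5.trans (h2.trans inter_subset_left), h4⟩
  rintro rfl
  rw [closure_compl] at hz'
  exact hz' (h1 hz)

theorem Cont.image {K : Set X} (hK : Cont K) (h : X ≃ₜ X) : Cont (h '' K) :=
  ⟨hK.1.image h.continuous, hK.2.image _ h.continuous.continuousOn⟩

theorem Term.image {S : Set X} (hS : Term S) (h : X ≃ₜ X) : Term (h '' S) := by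
  refine ⟨hS.1.image h, fun L hL hm => ?_⟩
  obtain ⟨_, hz, z, hzS, rfl⟩ := hm
  rcases hS.2 (h.symm '' L) (hL.image h.symm) ⟨z, ⟨h z, hz, h.symm_apply_apply z⟩, hzS⟩ with
    h1 | h1
  · exact Or.inl fun w hw => ⟨h.symm w, h1 ⟨w, hw, rfl⟩, h.apply_symm_apply w⟩
  · refine Or.inr ?_
    rintro _ ⟨w, hw, rfl⟩
    obtain ⟨u, hu, rfl⟩ := h1 hw
    rwa [h.apply_symm_apply]

theorem Cont.union {K L : Set X} (hK : Cont K) (hL : Cont L) (h : (K ∩ L).Nonempty) :
    Cont (K ∪ L) :=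
  ⟨hK.1.union hL.1, hK.2.union h hL.2⟩

theorem cont_singleton (x : X) : Cont ({x} : Set X) :=
  ⟨isCompact_singleton, isConnected_singleton⟩

theorem term_singleton (x : X) : Term ({x} : Set X) := by
  refine ⟨cont_singleton x, fun L _ hm => Or.inr ?_⟩
  obtain ⟨_, hz, rfl⟩ := hm
  exact singleton_subset_iff.mpr hz

theorem Term.sub {S L : Set X} (hS : Term S) (hL : Cont L) (h : (L ∩ S).Nonempty) {v : X}
    (hv : v ∈ S) (hvL : v ∉ L) : L ⊆ S :=
  (hS.2 L hL h).resolve_right fun h1 => hvL (h1 hv)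

theorem Small.symm {h : X ≃ₜ X} {ε : ℝ} (hh : Small h ε) : Small h.symm ε := by
  intro w
  have := hh (h.symm w)
  rwa [h.apply_symm_apply, dist_comm] at this

theorem Small.trans {h k : X ≃ₜ X} {ε ε' : ℝ} (hh : Small h ε) (hk : Small k ε') :
    Small (h.trans k) (ε + ε') := by
  intro w
  have h1 := hh w
  have h2 := hk (h w)
  have h3 := dist_triangle (k (h w)) (h w) w
  show dist (k (h w)) w < ε + ε'
  linarith

theorem thin_univ [ConnectedSpace X] (h : Indec X) : Thin (univ : Set X) := by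
  intro J hJ _ hne V hV hVn hVJ
  rw [inter_univ] at hVn hVJ
  have hU : Cont (univ : Set X) := ⟨isCompact_univ, isConnected_univ⟩
  have hRV : ¬ (univ : Set X) ⊆ closure Jᶜ := by
    intro hc
    obtain ⟨z, hz⟩ := hVn
    obtain ⟨y, hy, hy'⟩ := mem_closure_iff.mp (hc (mem_univ z)) V hV hz
    exact hy' (hVJ hy)
  have hcov : J ∪ closure Jᶜ = univ :=
    eq_univ_of_forall fun z => (em (z ∈ J)).elim Or.inl fun hz => Or.inr (subset_closure hz)
  have hRn : (closure Jᶜ).Nonempty := (nonempty_compl.mpr hne).closure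
  by_cases hR : IsPreconnected (closure Jᶜ)
  · rcases h J _ hJ ⟨isClosed_closure.isCompact, hRn, hR⟩ hcov with h1 | h1
    · exact hne h1
    · exact hRV h1.ge
  have key : ∀ A B : Set X, IsClosed A → IsClosed B → Disjoint A B → A ∪ B = closure Jᶜ →
      B.Nonempty → Cont (J ∪ A) ∧ J ∪ A ≠ univ := by
    intro A B hA hB hd hAB hBn
    constructor
    · refine ⟨hJ.1.union hA.isCompact, hJ.2.nonempty.mono subset_union_left, ?_⟩
      obtain ⟨p, hp⟩ := hJ.2.nonempty
      refine isPreconnected_of_forall p fun y hy => ?_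
      rcases hy with hy | hy
      · exact ⟨J, subset_union_left, hp, hy, hJ.2.isPreconnected⟩
      · obtain ⟨M, hM, h1, _, h3, z, hz, hz'⟩ := reach hU (cont_singleton y) (subset_univ _)
          isClosed_closure (singleton_subset_iff.mpr (hAB ▸ Or.inl hy)) hRV
        have hzJ : z ∈ J := by
          refine closure_minimal (fun w hw => ?_) hJ.1.isClosed hz'
          by_contra hw'
          exact hw (subset_closure hw')
        have hMA : M ⊆ A := side hM.2.isPreconnected hA hB hd (hAB ▸ h3) ⟨y, h1 rfl, hy⟩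
        exact ⟨J ∪ M, union_subset_union_right _ hMA, Or.inl hp, Or.inr (h1 rfl),
          (hJ.union hM ⟨z, hzJ, hz⟩).2.isPreconnected⟩
    · intro hc
      obtain ⟨z, hz⟩ := hBn
      have hz1 : z ∈ closure Jᶜ := hAB ▸ Or.inr hz
      obtain ⟨y, hy, hy'⟩ := mem_closure_iff.mp hz1 Aᶜ hA.isOpen_compl
        (fun hzA => Set.disjoint_left.mp hd hzA hz)
      have : y ∈ J ∪ A := hc ▸ mem_univ y
      exact this.elim hy' hy
  rw [isPreconnected_iff_subset_of_disjoint_closed] at hR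
  push Not at hR
  obtain ⟨u, v, hu, hv, hsub, hd, h1, h2⟩ := hR
  have hA : IsClosed (closure Jᶜ ∩ u) := isClosed_closure.inter hu
  have hB : IsClosed (closure Jᶜ ∩ v) := isClosed_closure.inter hv
  have hdis : Disjoint (closure Jᶜ ∩ u) (closure Jᶜ ∩ v) := by
    refine Set.disjoint_left.mpr fun z hz hz' => ?_
    have : z ∈ closure Jᶜ ∩ (u ∩ v) := ⟨hz.1, hz.2, hz'.2⟩
    rw [hd] at this
    exact this
  have hAB : closure Jᶜ ∩ u ∪ closure Jᶜ ∩ v = closure Jᶜ := by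
    rw [← inter_union_distrib_left, inter_eq_left.mpr hsub]
  obtain ⟨z1, hz1, hz1'⟩ := not_subset.mp h1
  obtain ⟨z2, hz2, hz2'⟩ := not_subset.mp h2
  obtain ⟨c1, n1⟩ := key _ _ hA hB hdis hAB ⟨z1, hz1, (hsub hz1).resolve_left hz1'⟩
  obtain ⟨c2, n2⟩ := key _ _ hB hA hdis.symm (by rw [union_comm, hAB])
    ⟨z2, hz2, (hsub hz2).resolve_right hz2'⟩
  refine (h _ _ c1 c2 ?_).elim n1 n2
  rw [← union_union_distrib_left, hAB, hcov]

end Pool.Agent.Lib.MP_11d477_gt.HI
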