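import Pool.Agent.Lib.MP_11d477_gt.HI.Basic

/-!
Steps 0 and 7: a clean terminal subcontinuum exists when two meeting subcontinua are not nested,
and a clean terminal subcontinuum has no proper terminal subcontinua close to any two points.
-/

set_option autoImplicit false

open Set Metric Topology

namespace Pool.Agent.Lib.MP_11d477_gt.HI

variable {X : Type} [MetricSpace X] [CompactSpace X]

/-- two subcontinua each having a point `σ`-far from the other -/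
def Vee (σ : ℝ) (K L : Set X) : Prop :=
  Cont K ∧ Cont L ∧ (∃ a ∈ K, ∀ z ∈ L, σ ≤ dist a z) ∧ ∃ b ∈ L, ∀ z ∈ K, σ ≤ dist b z

omit [CompactSpace X] in
theorem far_of_notMem {L : Set X} (hL : IsCompact L) {a : X} (ha : a ∉ L) :
    ∃ σ : ℝ, 0 < σ ∧ ∀ z ∈ L, σ ≤ dist a z := by
  obtain ⟨σ, hσ, hb⟩ := Metric.isOpen_iff.mp hL.isClosed.isOpen_compl a ha
  refine ⟨σ, hσ, fun z hz => not_lt.mp fun h => hb (show z ∈ ball a σ from ?_) hz⟩
  rwa [mem_ball, dist_comm]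

omit [CompactSpace X] in
theorem far_image {h : X ≃ₜ X} {ε σ : ℝ} (hh : Small h ε) {L : Set X} {a : X}
    (ha : ∀ z ∈ L, σ ≤ dist a z) : ∀ z ∈ h '' L, σ - 2 * ε ≤ dist (h a) z := by
  rintro _ ⟨z, hz, rfl⟩
  have h1 := ha z hz
  have h2 := hh a
  have h3 := hh z
  have h4 := dist_triangle4 a (h a) (h z) z
  rw [dist_comm a (h a)] at h4
  linarith

theorem vee_at (hom : ∀ x y : X, ∃ h : X ≃ₜ X, h x = y) (h : ¬ Nested X) (x : X) :
    ∃ σ : ℝ, 0 < σ ∧ ∃ K L : Set X, Vee σ K L ∧ x ∈ K ∧ x ∈ L := by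
  unfold Nested at h
  push Not at h
  obtain ⟨K, L, hK, hL, ⟨p, hpK, hpL⟩, h1, h2⟩ := h
  obtain ⟨a, haK, haL⟩ := not_subset.mp h1
  obtain ⟨b, hbL, hbK⟩ := not_subset.mp h2
  obtain ⟨g, rfl⟩ := hom p x
  have ha : g a ∉ g '' L := fun h => haL (g.injective.mem_set_image.mp h)
  have hb : g b ∉ g '' K := fun h => hbK (g.injective.mem_set_image.mp h)
  obtain ⟨s, hs, hs'⟩ := far_of_notMem (hL.image g).1 ha
  obtain ⟨t, ht, ht'⟩ := far_of_notMem (hK.image g).1 hb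
  exact ⟨min s t, lt_min hs ht, g '' K, g '' L, ⟨hK.image g, hL.image g,
    ⟨g a, mem_image_of_mem _ haK, fun z hz => (min_le_left _ _).trans (hs' z hz)⟩,
    ⟨g b, mem_image_of_mem _ hbL, fun z hz => (min_le_right _ _).trans (ht' z hz)⟩⟩,
    mem_image_of_mem _ hpK, mem_image_of_mem _ hpL⟩

omit [CompactSpace X] in
theorem Vee.mono {σ τ : ℝ} (h : τ ≤ σ) {K L : Set X} (hv : Vee σ K L) : Vee τ K L := by
  obtain ⟨hK, hL, ⟨a, ha, ha'⟩, ⟨b, hb, hb'⟩⟩ := hv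
  exact ⟨hK, hL, ⟨a, ha, fun z hz => h.trans (ha' z hz)⟩, ⟨b, hb, fun z hz => h.trans (hb' z hz)⟩⟩

theorem vee_uniform (hom : ∀ x y : X, ∃ h : X ≃ₜ X, h x = y) (eff : Eff X) (h : ¬ Nested X) :
    ∃ σ : ℝ, 0 < σ ∧ ∀ x : X, ∃ K L : Set X, Vee σ K L ∧ x ∈ K ∧ x ∈ L := by
  have loc : ∀ x : X, ∃ σ : ℝ, 0 < σ ∧ ∃ δ : ℝ, 0 < δ ∧ ∀ y ∈ ball x δ,
      ∃ K L : Set X, Vee σ K L ∧ y ∈ K ∧ y ∈ L := by
    intro x
    obtain ⟨σ, hσ, K, L, ⟨hK, hL, ⟨a, ha, ha'⟩, ⟨b, hb, hb'⟩⟩, hxK, hxL⟩ := vee_at hom h x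
    obtain ⟨δ, hδ, he⟩ := eff (σ / 4) (by positivity)
    refine ⟨σ / 2, by positivity, δ, hδ, fun y hy => ?_⟩
    obtain ⟨g, hg, rfl⟩ := he x y (by rwa [mem_ball, dist_comm] at hy)
    have e : σ / 2 = σ - 2 * (σ / 4) := by ring
    refine ⟨g '' K, g '' L, ⟨hK.image g, hL.image g, ⟨g a, mem_image_of_mem _ ha, ?_⟩,
      ⟨g b, mem_image_of_mem _ hb, ?_⟩⟩, mem_image_of_mem _ hxK, mem_image_of_mem _ hxL⟩
    · rw [e]; exact far_image hg ha'
    · rw [e]; exact far_image hg hb'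
  choose σ hσ δ hδ hloc using loc
  obtain ⟨T, hT⟩ := isCompact_univ.elim_finite_subcover (fun x : X => ball x (δ x))
    (fun _ => isOpen_ball) (fun x _ => mem_iUnion.mpr ⟨x, mem_ball_self (hδ x)⟩)
  obtain ⟨m, hm, hm'⟩ : ∃ m : ℝ, 0 < m ∧ ∀ x ∈ T, m ≤ σ x := by
    rcases T.eq_empty_or_nonempty with rfl | hne
    · exact ⟨1, one_pos, by simp⟩
    · obtain ⟨x, -, hx⟩ := T.exists_min_image σ hne
      exact ⟨σ x, hσ x, hx⟩
  refine ⟨m, hm, fun y => ?_⟩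
  obtain ⟨x, hx, hy⟩ := mem_iUnion₂.mp (hT (mem_univ y))
  obtain ⟨K, L, hv, h1, h2⟩ := hloc x y hy
  exact ⟨K, L, hv.mono (hm' x hx), h1, h2⟩

omit [CompactSpace X] in
/-- a terminal set meeting both arms of a vee and not inside both contains both -/
theorem vee_inside {σ : ℝ} (hσ : 0 < σ) {K L S : Set X} (hv : Vee σ K L) (hS : Term S) {x : X}
    (hx : x ∈ S) (hxK : x ∈ K) (hxL : x ∈ L) (hn : ¬ S ⊆ K ∩ L) : K ⊆ S ∧ L ⊆ S := by
  obtain ⟨hK, hL, ⟨a, ha, ha'⟩, ⟨b, hb, hb'⟩⟩ := hv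
  have haL : a ∉ L := fun h => by have := ha' a h; rw [dist_self] at this; linarith
  have hbK : b ∉ K := fun h => by have := hb' b h; rw [dist_self] at this; linarith
  rcases hS.2 K hK ⟨x, hxK, hx⟩ with h1 | h1 <;> rcases hS.2 L hL ⟨x, hxL, hx⟩ with h2 | h2
  · exact ⟨h1, h2⟩
  · exact absurd (h2 (h1 ha)) haL
  · exact absurd (h1 (h2 hb)) hbK
  · exact absurd (subset_inter h1 h2) hn

theorem cont_sInter {c : Set (Set X)} (hc : IsChain (· ⊆ ·) c) (hne : c.Nonempty)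
    (h : ∀ S ∈ c, Cont S) : Cont (⋂₀ c) := by
  have : Nonempty c := hne.to_subtype
  have hcl : ∀ S ∈ c, IsClosed S := fun S hS => (h S hS).1.isClosed
  have hdir : DirectedOn (· ⊇ ·) c := by
    intro S hS T hT
    rcases hc.total hS hT with h1 | h1
    · exact ⟨S, hS, Subset.rfl, h1⟩
    · exact ⟨T, hT, h1, Subset.rfl⟩
  have hI : IsClosed (⋂₀ c) := isClosed_sInter hcl
  have key : ∀ U : Set X, IsOpen U → ⋂₀ c ⊆ U → ∃ S ∈ c, S ⊆ U := by
    intro U hU hsub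
    obtain ⟨S, hS⟩ := exists_subset_nhds_of_compactSpace (V := fun S : c => (S : Set X))
      (directedOn_iff_directed.mp hdir) (fun S => hcl S S.2) (U := U) (by
        rw [← sInter_eq_iInter]
        exact fun x hx => hU.mem_nhds (hsub hx))
    exact ⟨S, S.2, hS⟩
  have hn : (⋂₀ c).Nonempty := by
    by_contra h0
    obtain ⟨S, hS, hS'⟩ := key ∅ isOpen_empty (not_nonempty_iff_eq_empty.mp h0).subset
    exact (h S hS).2.1.ne_empty (subset_empty_iff.mp hS')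
  refine ⟨hI.isCompact, hn, (isPreconnected_iff_subset_of_disjoint_closed).mpr ?_⟩
  intro u v hu hv hsub hd
  have hdis : Disjoint (⋂₀ c ∩ u) (⋂₀ c ∩ v) := by
    rw [disjoint_left]
    rintro z ⟨hz, hzu⟩ ⟨-, hzv⟩
    exact (hd.subset (show z ∈ ⋂₀ c ∩ (u ∩ v) from ⟨hz, hzu, hzv⟩) : z ∈ (∅ : Set X))
  obtain ⟨U, V, hU, hV, hU', hV', hUV⟩ := normal_separation (hI.inter hu) (hI.inter hv) hdis
  obtain ⟨S, hS, hS'⟩ := key (U ∪ V) (hU.union hV) (fun z hz => (hsub hz).elim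
    (fun h => Or.inl (hU' ⟨hz, h⟩)) (fun h => Or.inr (hV' ⟨hz, h⟩)))
  rcases (h S hS).2.2.subset_or_subset hU hV hUV hS' with h1 | h1
  · exact Or.inl fun z hz => (hsub hz).resolve_right fun hzv =>
      disjoint_left.mp hUV (h1 (hz S hS)) (hV' ⟨hz, hzv⟩)
  · exact Or.inr fun z hz => (hsub hz).resolve_left fun hzu =>
      disjoint_left.mp hUV (hU' ⟨hz, hzu⟩) (h1 (hz S hS))

theorem term_sInter {c : Set (Set X)} (hc : IsChain (· ⊆ ·) c) (hne : c.Nonempty)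
    (h : ∀ S ∈ c, Term S) : Term (⋂₀ c) := by
  refine ⟨cont_sInter hc hne fun S hS => (h S hS).1, fun L hL ⟨x, hxL, hx⟩ => ?_⟩
  by_cases h1 : ∀ S ∈ c, L ⊆ S
  · exact Or.inl (subset_sInter h1)
  · push Not at h1
    obtain ⟨S, hS, hS'⟩ := h1
    exact Or.inr ((sInter_subset_of_mem hS).trans
      (((h S hS).2 L hL ⟨x, hxL, hx S hS⟩).resolve_left hS'))

theorem exists_clean [ConnectedSpace X] (hom : ∀ x y : X, ∃ h : X ≃ₜ X, h x = y) (eff : Eff X)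
    (h : ¬ Nested X) : ∃ (S : Set X) (σ : ℝ), 0 < σ ∧ Term S ∧ S.Nontrivial ∧ Clean S σ := by
  obtain ⟨σ, hσ, hv⟩ := vee_uniform hom eff h
  let F : Set (Set X) := {S | Term S ∧ ∀ K L, Vee σ K L → ¬ S ⊆ K ∩ L}
  have hne : ∀ {K L : Set X}, Vee σ K L → ¬ K ⊆ L := by
    rintro K L ⟨-, -, ⟨a, ha, ha'⟩, -⟩ hKL
    have := ha' a (hKL ha)
    rw [dist_self] at this
    linarith
  have huniv : (univ : Set X) ∈ F :=
    ⟨⟨⟨isCompact_univ, isConnected_univ⟩, fun L _ _ => Or.inl (subset_univ L)⟩,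
      fun K L hKL hs => hne hKL fun z _ => (hs (mem_univ z)).2⟩
  obtain ⟨S, -, hS⟩ := zorn_superset_nonempty F (fun c hcF hc hcne => by
    have ht := term_sInter hc hcne fun S hS => (hcF hS).1
    refine ⟨⋂₀ c, ⟨ht, fun K L hKL hs => ?_⟩, fun S hS => sInter_subset_of_mem hS⟩
    obtain ⟨x, hx⟩ := ht.1.2.1
    exact hne hKL fun z hz => (hs fun S hS => (vee_inside hσ hKL (hcF hS).1 (hx S hS) (hs hx).1
      (hs hx).2 ((hcF hS).2 K L hKL)).1 hz).2) univ huniv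
  have hSF : S ∈ F := hS.prop
  refine ⟨S, σ, hσ, hSF.1, ?_, ?_⟩
  · by_contra hnt
    obtain ⟨x, hx⟩ := hSF.1.1.2.1
    obtain ⟨K, L, hKL, h1, h2⟩ := hv x
    exact hSF.2 K L hKL fun z hz => by
      rw [not_nontrivial_iff.mp hnt hz hx]
      exact ⟨h1, h2⟩
  · intro D hD hDS hDne
    have hDF : D ∉ F := fun hDF => hDne (Subset.antisymm hDS (hS.le_of_le hDF hDS))
    have : ∃ K L, Vee σ K L ∧ D ⊆ K ∩ L := by
      by_contra h0
      exact hDF ⟨hD, fun K L hKL hs => h0 ⟨K, L, hKL, hs⟩⟩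
    obtain ⟨K, L, hKL, hs⟩ := this
    obtain ⟨x, hx⟩ := hD.1.2.1
    have hin := vee_inside hσ hKL hSF.1 (hDS hx) (hs hx).1 (hs hx).2 (hSF.2 K L hKL)
    obtain ⟨-, -, ⟨a, ha, ha'⟩, -⟩ := hKL
    exact ⟨a, hin.1 ha, fun z hz => ha' z (hs hz).2⟩

/-- all proper terminal subcontinua through `b` miss one ball -/
theorem common_far {S : Set X} {σ : ℝ} (hσ : 0 < σ) (hS : Term S) (hnt : S.Nontrivial)
    (hc : Clean S σ) {b : X} (hb : b ∈ S) :
    ∃ a ∈ S, ∀ D, Term D → D ⊆ S → D ≠ S → b ∈ D → ∀ z ∈ D, σ / 2 ≤ dist a z := by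
  obtain ⟨T, hTS, hTf, hT⟩ := hS.1.1.finite_cover_balls (half_pos hσ)
  by_contra h0
  push Not at h0
  have h1 : ∀ T' : Set X, T'.Finite → T' ⊆ S → ∃ D, Term D ∧ D ⊆ S ∧ D ≠ S ∧ b ∈ D ∧
      ∀ t ∈ T', ∃ z ∈ D, dist t z < σ / 2 := by
    intro T' hT'
    induction T', hT' using Set.Finite.induction_on with
    | empty =>
      intro _
      refine ⟨{b}, term_singleton b, singleton_subset_iff.mpr hb, ?_, rfl, by simp⟩
      rintro rfl
      exact not_nontrivial_singleton hnt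
    | @insert t s _ _ ih =>
      intro hs
      obtain ⟨D, hD, hDS, hDne, hbD, hD'⟩ := ih ((subset_insert t s).trans hs)
      obtain ⟨E, hE, hES, hEne, hbE, z, hz, hz'⟩ := h0 t (hs (mem_insert t s))
      rcases hD.2 E hE.1 ⟨b, hbE, hbD⟩ with h2 | h2
      · refine ⟨D, hD, hDS, hDne, hbD, ?_⟩
        rintro t' (rfl | ht')
        · exact ⟨z, h2 hz, hz'⟩
        · exact hD' t' ht'
      · refine ⟨E, hE, hES, hEne, hbE, ?_⟩
        rintro t' (rfl | ht')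
        · exact ⟨z, hz, hz'⟩
        · obtain ⟨y, hy, hy'⟩ := hD' t' ht'
          exact ⟨y, h2 hy, hy'⟩
  obtain ⟨D, hD, hDS, hDne, -, hD'⟩ := h1 T hTf hTS
  obtain ⟨a, ha, ha'⟩ := hc D hD hDS hDne
  obtain ⟨t, ht, hat⟩ := mem_iUnion₂.mp (hT ha)
  obtain ⟨z, hz, hz'⟩ := hD' t ht
  have := ha' z hz
  have h3 := dist_triangle a t z
  rw [mem_ball] at hat
  linarith

theorem finish (eff : Eff X) {S : Set X} {σ : ℝ} (hσ : 0 < σ) (hS : Term S) (hnt : S.Nontrivial)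
    (hc : Clean S σ) (hp : Petals S) : False := by
  obtain ⟨b, hb⟩ := hnt.nonempty
  obtain ⟨a, ha, hfar⟩ := common_far hσ hS hnt hc hb
  have hab : a ≠ b := by
    rintro rfl
    have := hfar {a} (term_singleton a) (singleton_subset_iff.mpr ha)
      (by rintro rfl; exact not_nontrivial_singleton hnt) rfl a rfl
    rw [dist_self] at this
    linarith
  obtain ⟨δ, hδ, he⟩ := eff (σ / 4) (by positivity)
  obtain ⟨D, hD, hDS, hDne, ⟨x, hx, hxb⟩, y, hy, hya⟩ :=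
    hp a ha b hb hab (min δ (σ / 4)) (lt_min hδ (by positivity))
  obtain ⟨g, hg, hgx⟩ := he x b (hxb.trans_le (min_le_left _ _))
  have hbD : b ∈ g '' D := ⟨x, hx, hgx⟩
  have hns : ¬ S ⊆ g '' D := by
    intro hs
    obtain ⟨a', ha', hf⟩ := hc D hD hDS hDne
    obtain ⟨z, hz, rfl⟩ := hs ha'
    have h1 := hf z hz
    have h2 := hg z
    linarith
  have hsub : g '' D ⊆ S := (hS.2 _ (hD.image g).1 ⟨b, hbD, hb⟩).resolve_right hns
  have h1 := hfar _ (hD.image g) hsub (fun h => hns h.symm.subset) hbD (g y)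
    (mem_image_of_mem _ hy)
  have h2 := hg y
  have h3 := hya.trans_le (min_le_right _ _)
  have h4 := dist_triangle a y (g y)
  rw [dist_comm a y, dist_comm y (g y)] at h4
  linarith

end Pool.Agent.Lib.MP_11d477_gt.HI
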