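import Pool.Agent.Lib.MP_11d477_gt.HI.Defs

/-!
A compact metric space of trivial shape in which meeting continua are nested has covering
dimension at most one.
-/

set_option autoImplicit false

open Set Topology Metric

namespace Pool.Agent.Lib.MP_11d477_gt.HI

namespace B7

variable {X : Type} [MetricSpace X]

theorem hull_pt {S N : Set X} (hS : IsCompact S) (hN : IsOpen N) {y : X} (hy : y ∈ S)
    (h : connectedComponentIn S y ⊆ N) :
    ∃ Q, IsClosed Q ∧ IsClosed (S \ Q) ∧ y ∈ Q ∧ Q ⊆ S ∧ Q ⊆ N := by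
  have : CompactSpace S := isCompact_iff_compactSpace.1 hS
  have hc : connectedComponent (⟨y, hy⟩ : S) ⊆ (↑) ⁻¹' N := fun z hz => h (by
    rw [connectedComponentIn_eq_image hy]; exact ⟨z, hz, rfl⟩)
  rw [connectedComponent_eq_iInter_isClopen] at hc
  have hcomp : IsCompact ((↑) ⁻¹' N : Set S)ᶜ :=
    (hN.preimage continuous_subtype_val).isClosed_compl.isCompact
  obtain ⟨t, ht⟩ := hcomp.elim_finite_subfamily_closed
    (fun s : {s : Set S // IsClopen s ∧ (⟨y, hy⟩ : S) ∈ s} => (s : Set S))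
    (fun s => s.2.1.isClosed)
    (by rw [eq_empty_iff_forall_notMem]; exact fun z hz => hz.1 (hc hz.2))
  have hT : IsClopen (⋂ s ∈ t, (s : Set S)) := isClopen_biInter_finset fun s _ => s.2.1
  have hcm := hS.isClosed.isClosedEmbedding_subtypeVal.isClosedMap
  refine ⟨(↑) '' (⋂ s ∈ t, (s : Set S)), hcm _ hT.isClosed, ?_,
    ⟨⟨y, hy⟩, mem_iInter₂.2 fun s _ => s.2.2, rfl⟩, ?_, ?_⟩
  · have : S \ (↑) '' (⋂ s ∈ t, (s : Set S)) = (↑) '' (⋂ s ∈ t, (s : Set S))ᶜ := by
      ext x
      constructor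
      · rintro ⟨h1, h2⟩
        exact ⟨⟨x, h1⟩, fun h3 => h2 ⟨_, h3, rfl⟩, rfl⟩
      · rintro ⟨z, hz, rfl⟩
        refine ⟨z.2, ?_⟩
        rintro ⟨w, hw, e⟩
        exact hz (Subtype.ext e ▸ hw)
    rw [this]
    exact hcm _ hT.compl.isClosed
  · rintro _ ⟨z, -, rfl⟩
    exact z.2
  · rintro _ ⟨z, hz, rfl⟩
    by_contra hn
    have : z ∈ ((↑) ⁻¹' N : Set S)ᶜ ∩ ⋂ s ∈ t, (s : Set S) := ⟨hn, hz⟩
    rw [ht] at this
    exact this

theorem hull_ind {P : Set X → Prop} (h0 : P ∅) (hm : ∀ A B, A ⊆ B → P B → P A)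
    (hu : ∀ A B, IsClosed A → IsClosed B → Disjoint A B → P A → P B → P (A ∪ B))
    {S Y : Set X} (hS : IsCompact S) (hY : IsCompact Y) (hYS : Y ⊆ S)
    (h : ∀ y ∈ Y, ∃ N, IsOpen N ∧ connectedComponentIn S y ⊆ N ∧ P N) :
    ∃ Q, IsClosed Q ∧ IsClosed (S \ Q) ∧ Y ⊆ Q ∧ Q ⊆ S ∧ P Q := by
  refine hY.induction_on
    (p := fun T => ∃ Q, IsClosed Q ∧ IsClosed (S \ Q) ∧ T ⊆ Q ∧ Q ⊆ S ∧ P Q) ?_ ?_ ?_ ?_
  · exact ⟨∅, isClosed_empty, by simpa using hS.isClosed, Subset.rfl, empty_subset _, h0⟩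
  · rintro s t hst ⟨Q, a, b, c, d, e⟩
    exact ⟨Q, a, b, hst.trans c, d, e⟩
  · rintro s t ⟨Q, a, b, c, d, e⟩ ⟨Q', a', b', c', d', e'⟩
    refine ⟨Q ∪ Q', a.union a', ?_, union_subset_union c c', union_subset d d', ?_⟩
    · have : S \ (Q ∪ Q') = (S \ Q) ∩ (S \ Q') := by
        ext x
        simp only [mem_sdiff, mem_union, mem_inter_iff]
        tauto
      rw [this]
      exact b.inter b'
    · have : Q ∪ Q' = Q ∪ (Q' ∩ (S \ Q)) := by
        ext x
        constructor
        · rintro (h1 | h1)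
          · exact Or.inl h1
          · by_cases h2 : x ∈ Q
            · exact Or.inl h2
            · exact Or.inr ⟨h1, d' h1, h2⟩
        · rintro (h1 | h1)
          · exact Or.inl h1
          · exact Or.inr h1.1
      rw [this]
      exact hu _ _ a (a'.inter b) (disjoint_left.2 fun x h1 h2 => h2.2.2 h1) e
        (hm _ _ inter_subset_left e')
  · intro y hy
    obtain ⟨N, hN, hc, hP⟩ := h y hy
    obtain ⟨Q, a, b, c, d, e⟩ := hull_pt hS hN (hYS hy) hc
    refine ⟨(S \ Q)ᶜ ∩ Y, mem_nhdsWithin.2 ⟨(S \ Q)ᶜ, b.isOpen_compl, fun h1 => h1.2 c,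
      Subset.rfl⟩, Q, a, b, ?_, d, hm _ _ e hP⟩
    intro x hx
    by_contra h1
    exact hx.1 ⟨hYS hx.2, h1⟩

theorem comp_compact {S : Set X} (hS : IsCompact S) (y : X) :
    IsCompact (connectedComponentIn S y) := by
  by_cases hy : y ∈ S
  · have : CompactSpace S := isCompact_iff_compactSpace.1 hS
    rw [connectedComponentIn_eq_image hy]
    exact isClosed_connectedComponent.isCompact.image continuous_subtype_val
  · rw [connectedComponentIn_eq_empty hy]
    exact isCompact_empty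

variable [CompactSpace X]

theorem exists_log (hs : Shape X) (g : X → ℂ) (hg : Continuous g) (h0 : ∀ x, g x ≠ 0) :
    ∃ l : X → ℂ, Continuous l ∧ ∀ x, Complex.exp (l x) = g x := by
  obtain ⟨e, he, hU⟩ := hs
  have hce : IsClosedEmbedding e := ⟨he, (isCompact_range he.continuous).isClosed⟩
  obtain ⟨G, hG⟩ := ContinuousMap.exists_extension' hce ⟨g, hg⟩
  have hG' : ∀ x, G (e x) = g x := fun x => congrFun hG x
  obtain ⟨V, -, hV, h, y, ⟨H⟩⟩ := hU {u | G u ≠ 0}
    (isOpen_ne_fun G.continuous continuous_const)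
    (by rintro _ ⟨x, rfl⟩; show G (e x) ≠ 0; rw [hG']; exact h0 x)
  have hev : Continuous fun x : X => (⟨e x, hV ⟨x, rfl⟩⟩ : V) := he.continuous.subtype_mk _
  let H' : C(unitInterval × X, {z : ℂ // z ≠ 0}) :=
    ⟨fun p => ⟨G (H.symm (p.1, ⟨e p.2, hV ⟨_, rfl⟩⟩)).1, (H.symm _).2⟩,
      (G.continuous.comp (continuous_subtype_val.comp (H.symm.continuous.comp
        (continuous_fst.prodMk (hev.comp continuous_snd))))).subtype_mk _⟩
  have H0 : ∀ a, H' (0, a) = (fun z : ℂ ↦ (⟨_, z.exp_ne_zero⟩ : {z : ℂ // z ≠ 0}))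
      ((ContinuousMap.const X (Complex.log (G y.1))) a) := fun a => by
    apply Subtype.ext
    show G (H.symm (0, ⟨e a, hV ⟨_, rfl⟩⟩)).1 = Complex.exp (Complex.log (G y.1))
    rw [H.symm.apply_zero, Complex.exp_log y.2]
    rfl
  refine ⟨fun x => Complex.isCoveringMap_exp.liftHomotopy H' _ H0 (1, x),
    (Complex.isCoveringMap_exp.liftHomotopy H' _ H0).continuous.comp
      (continuous_const.prodMk continuous_id), fun x => ?_⟩
  have := congrArg Subtype.val
    (congrFun (Complex.isCoveringMap_exp.liftHomotopy_lifts H' _ H0) (1, x))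
  refine this.trans ?_
  show G (H.symm (1, ⟨e x, hV ⟨_, rfl⟩⟩)).1 = g x
  rw [H.symm.apply_one, ← hG']
  rfl

theorem log_near (hi : Nested X) (hs : Shape X) {A : Set X} (hA : IsClosed A) (g : X → ℂ)
    (hg : Continuous g) (h0 : ∀ x ∈ A, g x ≠ 0) {v : X} (hv : v ∈ A) :
    ∃ N, IsOpen N ∧ connectedComponentIn A v ⊆ N ∧
      ∃ l : X → ℂ, ContinuousOn l N ∧ ∀ x ∈ N, Complex.exp (l x) = g x := by
  classical
  set K := connectedComponentIn A v with hK
  have hKc : IsCompact K := comp_compact hA.isCompact v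
  have hKk : IsConnected K := isConnected_connectedComponentIn_iff.2 hv
  have hvK : v ∈ K := mem_connectedComponentIn hv
  have hKA : K ⊆ A := connectedComponentIn_subset _ _
  let u : X → ℂ := fun x => g x / g v
  have hu : Continuous u := hg.div_const _
  have hre : Continuous fun x => (u x).re := Complex.continuous_re.comp hu
  let S : Set X := {x | (u x).re ≤ 1 / 2}
  have hS : IsClosed S := isClosed_le hre continuous_const
  have hvS : v ∉ S := by
    show ¬ (g v / g v).re ≤ 1 / 2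
    rw [div_self (h0 v hv)]
    norm_num
  obtain ⟨Q, a, b, c, d, e⟩ := hull_ind (P := fun T => T ⊆ {x | g x ≠ 0}) (empty_subset _)
    (fun _ _ h1 h2 => h1.trans h2) (fun _ _ _ _ _ h1 h2 => union_subset h1 h2)
    hS.isCompact (hKc.inter_right hS) inter_subset_right (fun p hp => by
      refine ⟨{x | g x ≠ 0}, isOpen_ne_fun hg continuous_const, ?_, Subset.rfl⟩
      rcases hi _ K ⟨comp_compact hS.isCompact p, isConnected_connectedComponentIn_iff.2 hp.2⟩
        ⟨hKc, hKk⟩ ⟨p, mem_connectedComponentIn hp.2, hp.1⟩ with h1 | h1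
      · exact fun x hx => h0 x (hKA (h1 hx))
      · exact absurd (connectedComponentIn_subset _ _ (h1 hvK)) hvS)
  let m : X → ℂ := fun x => ⟨max (u x).re (1 / 2), (u x).im⟩
  have hm : Continuous m := by
    have : m = fun x => ((max (u x).re (1 / 2) : ℝ) : ℂ) + ((u x).im : ℂ) * Complex.I := by
      funext x
      apply Complex.ext <;> simp [m]
    rw [this]
    exact (Complex.continuous_ofReal.comp (hre.max continuous_const)).add
      ((Complex.continuous_ofReal.comp (Complex.continuous_im.comp hu)).mul continuous_const)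
  let T : Set X := {x | 1 / 2 ≤ (u x).re}
  have hT : IsClosed T := isClosed_le continuous_const hre
  have hmT : ∀ x ∈ T, m x = u x := fun x hx => Complex.ext (max_eq_left hx) rfl
  let w : X → ℂ := fun x => if x ∈ S \ Q then m x else u x
  have hw : Continuous w := by
    rw [← continuousOn_univ]
    have hcov : (univ : Set X) = ((S \ Q) ∪ T) ∪ (Q ∪ T) := by
      refine (eq_univ_of_forall fun x => ?_).symm
      by_cases h1 : x ∈ S
      · by_cases h2 : x ∈ Q
        · exact Or.inr (Or.inl h2)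
        · exact Or.inl (Or.inl ⟨h1, h2⟩)
      · have h2 : 1 / 2 < (u x).re := not_le.1 h1
        exact Or.inl (Or.inr h2.le)
    rw [hcov]
    refine ContinuousOn.union_of_isClosed (hm.continuousOn.congr ?_) (hu.continuousOn.congr ?_)
      (b.union hT) (a.union hT)
    · rintro x (h1 | h1)
      · exact if_pos h1
      · show (if x ∈ S \ Q then m x else u x) = m x
        split_ifs
        · rfl
        · exact (hmT x h1).symm
    · rintro x (h1 | h1)
      · exact if_neg fun h2 => h2.2 h1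
      · show (if x ∈ S \ Q then m x else u x) = u x
        split_ifs
        · exact hmT x h1
        · rfl
  have hw0 : ∀ x, w x ≠ 0 := fun x => by
    show (if x ∈ S \ Q then m x else u x) ≠ 0
    split_ifs with h1
    · intro h2
      have h3 : max (u x).re (1 / 2) = 0 := congrArg Complex.re h2
      have h4 := le_max_right (u x).re (1 / 2)
      linarith
    · by_cases h2 : x ∈ S
      · have h3 : x ∈ Q := by
          by_contra h3
          exact h1 ⟨h2, h3⟩
        exact div_ne_zero (e h3) (h0 v hv)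
      · intro h3
        apply h2
        show (u x).re ≤ 1 / 2
        rw [h3]
        norm_num
  obtain ⟨l, hl, hl'⟩ := exists_log hs w hw hw0
  refine ⟨(S \ Q)ᶜ, b.isOpen_compl, fun x hx h1 => h1.2 (c ⟨hx, h1.1⟩),
    fun x => l x + Complex.log (g v), (hl.add continuous_const).continuousOn, fun x hx => ?_⟩
  have h1 : w x = u x := if_neg hx
  rw [Complex.exp_add, hl', Complex.exp_log (h0 v hv), h1]
  exact div_mul_cancel₀ _ (h0 v hv)

theorem extend (hi : Nested X) (hs : Shape X) {A : Set X} (hA : IsClosed A) (g : X → ℂ)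
    (hg : Continuous g) (h0 : ∀ x ∈ A, g x ≠ 0) :
    ∃ G : X → ℂ, Continuous G ∧ (∀ x, G x ≠ 0) ∧ ∀ x ∈ A, G x = g x := by
  classical
  obtain ⟨Q, -, -, c, -, l, hl, hl'⟩ := hull_ind
    (P := fun N => ∃ l : X → ℂ, ContinuousOn l N ∧ ∀ x ∈ N, Complex.exp (l x) = g x)
    ⟨fun _ => 0, continuousOn_empty _, fun _ h => h.elim⟩
    (fun _ _ h1 ⟨l, h2, h3⟩ => ⟨l, h2.mono h1, fun x hx => h3 x (h1 hx)⟩)
    (fun B C hB hC hd ⟨l, h2, h3⟩ ⟨l', h2', h3'⟩ => by
      refine ⟨fun x => if x ∈ B then l x else l' x, ContinuousOn.union_of_isClosed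
        (h2.congr fun x hx => if_pos hx)
        (h2'.congr fun x hx => if_neg fun h4 => disjoint_left.1 hd h4 hx) hB hC, fun x hx => ?_⟩
      show Complex.exp (if x ∈ B then l x else l' x) = g x
      split_ifs with h4
      · exact h3 x h4
      · exact h3' x (hx.resolve_left h4))
    hA.isCompact hA.isCompact Subset.rfl (fun v hv => log_near hi hs hA g hg h0 hv)
  obtain ⟨L, hL⟩ := ContinuousMap.exists_restrict_eq (Y := ℂ) hA
    ⟨A.domRestrict l, continuousOn_iff_continuous_domRestrict.1 (hl.mono c)⟩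
  refine ⟨fun x => Complex.exp (L x), Complex.continuous_exp.comp L.continuous,
    fun x => Complex.exp_ne_zero _, fun x hx => ?_⟩
  have : L x = l x := congrArg (fun f : C(A, ℂ) => f ⟨x, hx⟩) hL
  show Complex.exp (L x) = g x
  rw [this, hl' x (c hx)]

omit [CompactSpace X] in
theorem zero_fun {F : Set X} (hF : IsClosed F) :
    ∃ d : X → ℝ, Continuous d ∧ (∀ x, 0 ≤ d x) ∧ ∀ x, x ∈ F ↔ d x = 0 := by
  rcases F.eq_empty_or_nonempty with rfl | h
  · exact ⟨fun _ => 1, continuous_const, fun _ => zero_le_one, fun _ => by simp⟩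
  · exact ⟨fun x => infDist x F, continuous_infDist_pt F, fun _ => infDist_nonneg,
      fun x => hF.mem_iff_infDist_zero h⟩

theorem three (hi : Nested X) (hs : Shape X) {U1 U2 U3 : Set X} (h1 : IsOpen U1)
    (h2 : IsOpen U2) (h3 : IsOpen U3) (hc : ∀ x, x ∈ U1 ∨ x ∈ U2 ∨ x ∈ U3) :
    ∃ V1 V2 V3 : Set X, IsOpen V1 ∧ IsOpen V2 ∧ IsOpen V3 ∧ V1 ⊆ U1 ∧ V2 ⊆ U2 ∧ V3 ⊆ U3 ∧
      (∀ x, x ∈ V1 ∨ x ∈ V2 ∨ x ∈ V3) ∧ ∀ x, x ∈ V1 → x ∈ V2 → x ∉ V3 := by
  obtain ⟨d1, c1, p1, z1⟩ := zero_fun h1.isClosed_compl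
  obtain ⟨d2, c2, p2, z2⟩ := zero_fun h2.isClosed_compl
  obtain ⟨d3, c3, p3, z3⟩ := zero_fun h3.isClosed_compl
  let g : X → ℂ := fun x => ((d1 x - d3 x : ℝ) : ℂ) + ((d2 x - d3 x : ℝ) : ℂ) * Complex.I
  have hg : Continuous g := (Complex.continuous_ofReal.comp (c1.sub c3)).add
    ((Complex.continuous_ofReal.comp (c2.sub c3)).mul continuous_const)
  have gre : ∀ x, (g x).re = d1 x - d3 x := fun x => by simp [g]
  have gim : ∀ x, (g x).im = d2 x - d3 x := fun x => by simp [g]
  obtain ⟨G, hG, hG0, hGg⟩ := extend hi hs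
    ((h1.isClosed_compl.union h2.isClosed_compl).union h3.isClosed_compl) g hg (fun x hx h => by
      have a := gre x
      have b := gim x
      rw [h] at a b
      simp only [Complex.zero_re, Complex.zero_im] at a b
      have hz : d1 x = 0 ∧ d2 x = 0 ∧ d3 x = 0 := by
        rcases hx with (hx | hx) | hx
        · have := (z1 x).1 hx
          exact ⟨by linarith, by linarith, by linarith⟩
        · have := (z2 x).1 hx
          exact ⟨by linarith, by linarith, by linarith⟩
        · have := (z3 x).1 hx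
          exact ⟨by linarith, by linarith, by linarith⟩
      rcases hc x with h4 | h4 | h4
      · exact (z1 x).2 hz.1 h4
      · exact (z2 x).2 hz.2.1 h4
      · exact (z3 x).2 hz.2.2 h4)
  have re : Continuous fun x => (G x).re := Complex.continuous_re.comp hG
  have im : Continuous fun x => (G x).im := Complex.continuous_im.comp hG
  refine ⟨{x | 0 < (G x).re} ∪ {x | (G x).im < (G x).re},
    {x | 0 < (G x).im} ∪ {x | (G x).re < (G x).im}, {x | (G x).re < 0} ∪ {x | (G x).im < 0},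
    (isOpen_lt continuous_const re).union (isOpen_lt im re),
    (isOpen_lt continuous_const im).union (isOpen_lt re im),
    (isOpen_lt re continuous_const).union (isOpen_lt im continuous_const), ?_, ?_, ?_, ?_, ?_⟩
  · intro x hx
    by_contra h
    have e := hGg x (Or.inl (Or.inl h))
    have := (z1 x).1 h
    have := p2 x
    have := p3 x
    simp only [mem_union, mem_ofPred_eq, e, gre, gim] at hx
    rcases hx with hx | hx <;> linarith
  · intro x hx
    by_contra h
    have e := hGg x (Or.inl (Or.inr h))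
    have := (z2 x).1 h
    have := p1 x
    have := p3 x
    simp only [mem_union, mem_ofPred_eq, e, gre, gim] at hx
    rcases hx with hx | hx <;> linarith
  · intro x hx
    by_contra h
    have e := hGg x (Or.inr h)
    have := (z3 x).1 h
    have := p1 x
    have := p2 x
    simp only [mem_union, mem_ofPred_eq, e, gre, gim] at hx
    rcases hx with hx | hx <;> linarith
  · intro x
    by_contra h
    simp only [mem_union, mem_ofPred_eq, not_or, not_lt] at h
    obtain ⟨⟨a, -⟩, ⟨b, -⟩, c, d⟩ := h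
    exact hG0 x (Complex.ext (le_antisymm a c) (le_antisymm b d))
  · intro x a b c
    simp only [mem_union, mem_ofPred_eq] at a b c
    rcases a with a | a <;> rcases b with b | b <;> rcases c with c | c <;> linarith

theorem dim_le_one (hi : Nested X) (hs : Shape X) (k : ℕ) (U : Fin k → Set X)
    (hU : ∀ i, IsOpen (U i)) (hc : (⋃ i, U i) = Set.univ) :
    ∃ V : Fin k → Set X, (∀ i, IsOpen (V i)) ∧ (∀ i, V i ⊆ U i) ∧ (⋃ i, V i) = Set.univ ∧
      ∀ x : X, Set.ncard {i : Fin k | x ∈ V i} ≤ 1 + 1 := by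
  classical
  have key : ∀ s : Finset (Fin k × Fin k), ∃ V : Fin k → Set X, (∀ i, IsOpen (V i)) ∧
      (∀ i, V i ⊆ U i) ∧ (∀ x, ∃ i, x ∈ V i) ∧ ∀ p ∈ s, p.1 ≠ p.2 → ∀ l, l ≠ p.1 → l ≠ p.2 →
        ∀ x, x ∈ V p.1 → x ∈ V p.2 → x ∉ V l := by
    intro s
    induction s using Finset.induction_on with
    | empty => exact ⟨U, hU, fun _ => Subset.rfl, fun x => mem_iUnion.1 (hc ▸ mem_univ x),
        fun p hp => absurd hp (Finset.notMem_empty p)⟩
    | insert p s _ ih =>
      obtain ⟨V, o, sub, cov, tri⟩ := ih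
      by_cases hp : p.1 = p.2
      · refine ⟨V, o, sub, cov, fun q hq hne => ?_⟩
        rcases Finset.mem_insert.1 hq with rfl | hq
        · exact absurd hp hne
        · exact tri q hq hne
      obtain ⟨W1, W2, W3, o1, o2, o3, s1, s2, s3, cw, tw⟩ := three hi hs (o p.1) (o p.2)
        (isOpen_iUnion fun l : {l : Fin k // l ≠ p.1 ∧ l ≠ p.2} => o l.1) (fun x => by
          obtain ⟨i, hi⟩ := cov x
          by_cases a : i = p.1
          · exact Or.inl (a ▸ hi)
          by_cases b : i = p.2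
          · exact Or.inr (Or.inl (b ▸ hi))
          exact Or.inr (Or.inr (mem_iUnion.2 ⟨⟨i, a, b⟩, hi⟩)))
      let V' : Fin k → Set X := fun i => if i = p.1 then W1 else if i = p.2 then W2 else V i ∩ W3
      have e1 : V' p.1 = W1 := if_pos rfl
      have e2 : V' p.2 = W2 := (if_neg (Ne.symm hp)).trans (if_pos rfl)
      have e3 : ∀ l, l ≠ p.1 → l ≠ p.2 → V' l = V l ∩ W3 := fun l a b =>
        (if_neg a).trans (if_neg b)
      have hV' : ∀ i, IsOpen (V' i) ∧ V' i ⊆ V i := fun i => by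
        by_cases a : i = p.1
        · rw [a, e1]
          exact ⟨o1, s1⟩
        by_cases b : i = p.2
        · rw [b, e2]
          exact ⟨o2, s2⟩
        rw [e3 i a b]
        exact ⟨(o i).inter o3, inter_subset_left⟩
      refine ⟨V', fun i => (hV' i).1, fun i => (hV' i).2.trans (sub i), fun x => ?_,
        fun q hq hne l a b x h1 h2 h3 => ?_⟩
      · rcases cw x with h | h | h
        · exact ⟨p.1, e1 ▸ h⟩
        · exact ⟨p.2, e2 ▸ h⟩
        · obtain ⟨l, hl⟩ := mem_iUnion.1 (s3 h)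
          exact ⟨l.1, by rw [e3 l.1 l.2.1 l.2.2]; exact ⟨hl, h⟩⟩
      · rcases Finset.mem_insert.1 hq with rfl | hq
        · rw [e1] at h1
          rw [e2] at h2
          rw [e3 l a b] at h3
          exact tw x h1 h2 h3.2
        · exact tri q hq hne l a b x ((hV' _).2 h1) ((hV' _).2 h2) ((hV' _).2 h3)
  obtain ⟨V, o, sub, cov, tri⟩ := key Finset.univ
  refine ⟨V, o, sub, eq_univ_of_forall fun x => mem_iUnion.2 (cov x), fun x => ?_⟩
  by_contra h
  obtain ⟨a, ha, b, hb, c, hc', ab, ac, bc⟩ :=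
    (Set.two_lt_ncard (toFinite {i : Fin k | x ∈ V i})).1 (not_le.1 h)
  exact tri (a, b) (Finset.mem_univ _) ab c ac.symm bc.symm x ha hb hc'

end B7

theorem dimOne {X : Type} [MetricSpace X] [CompactSpace X] (hs : Shape X) (hn : Nested X) :
    DimOne X := fun k U hU hc => B7.dim_le_one hn hs k U hU hc

end Pool.Agent.Lib.MP_11d477_gt.HI
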