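import Pool.Agent.Lib.MP_11d477_gt.HI.Apo
import Pool.Agent.Lib.MP_11d477_gt.HI.Dim

/-!
The converse: a homogeneous continuum of trivial shape and of dimension at most one is
indecomposable (hereditary unicoherence, then the argument of Jones).
-/

set_option autoImplicit false

open Set Metric Topology

namespace Pool.Agent.Lib.MP_11d477_gt.HI

variable {X : Type} [MetricSpace X]

/-- intersections of two subcontinua are connected -/
def Unico (X : Type) [MetricSpace X] : Prop :=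
  ∀ K L : Set X, Cont K → Cont L → IsPreconnected (K ∩ L)

theorem cv_three (hd : DimOne X) {F₁ F₂ F₃ : Set X} (h1 : IsClosed F₁) (h2 : IsClosed F₂)
    (h3 : IsClosed F₃) (h0 : ∀ x, x ∈ F₁ → x ∈ F₂ → x ∉ F₃) :
    ∃ G₁ G₂ G₃ : Set X, IsClosed G₁ ∧ IsClosed G₂ ∧ IsClosed G₃ ∧ F₁ ⊆ G₁ ∧ F₂ ⊆ G₂ ∧ F₃ ⊆ G₃ ∧
      (∀ x, x ∈ G₁ ∨ x ∈ G₂ ∨ x ∈ G₃) ∧ ∀ x, x ∈ G₁ → x ∈ G₂ → x ∉ G₃ := by
  obtain ⟨V, hV, hVU, hc, ho⟩ := hd 3 ![F₁ᶜ, F₂ᶜ, F₃ᶜ]
    (by
      intro i
      fin_cases i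
      · exact h1.isOpen_compl
      · exact h2.isOpen_compl
      · exact h3.isOpen_compl)
    (by
      refine eq_univ_of_forall fun x => ?_
      by_cases a : x ∈ F₁
      · by_cases b : x ∈ F₂
        · exact mem_iUnion.mpr ⟨2, h0 x a b⟩
        · exact mem_iUnion.mpr ⟨1, b⟩
      · exact mem_iUnion.mpr ⟨0, a⟩)
  refine ⟨(V 0)ᶜ, (V 1)ᶜ, (V 2)ᶜ, (hV 0).isClosed_compl, (hV 1).isClosed_compl,
    (hV 2).isClosed_compl, fun x hx h => hVU 0 h hx, fun x hx h => hVU 1 h hx,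
    fun x hx h => hVU 2 h hx, fun x => ?_, fun x a b c => ?_⟩
  · by_contra h
    simp only [mem_compl_iff, not_or, not_not] at h
    have h4 : {i : Fin 3 | x ∈ V i} = univ := by
      refine eq_univ_of_forall fun i => ?_
      fin_cases i
      · exact h.1
      · exact h.2.1
      · exact h.2.2
    have h5 := ho x
    rw [h4, ncard_univ] at h5
    simp at h5
  · obtain ⟨i, hi⟩ := mem_iUnion.mp (hc ▸ mem_univ x : x ∈ ⋃ i, V i)
    fin_cases i
    · exact a hi
    · exact b hi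
    · exact c hi

variable [CompactSpace X]

theorem unico_of_dimOne (hs : Shape X) (hd : DimOne X) : Unico X := by
  intro K L hK hL
  have hKc := hK.1.isClosed
  have hLc := hL.1.isClosed
  rw [isPreconnected_iff_subset_of_fully_disjoint_closed (hKc.inter hLc)]
  intro u v hu hv hsub huv
  by_contra hn
  obtain ⟨hn1, hn2⟩ := not_or.mp hn
  obtain ⟨q, hq, hqu⟩ := not_subset.mp hn1
  obtain ⟨p, hp, hpv⟩ := not_subset.mp hn2
  have hpu : p ∈ u := (hsub hp).resolve_right hpv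
  have hqv : q ∈ v := (hsub hq).resolve_left hqu
  obtain ⟨a, ca, pa, za⟩ := B7.zero_fun hu
  obtain ⟨b, cb, pb, zb⟩ := B7.zero_fun hv
  obtain ⟨G₁, G₂, G₃, h1, h2, h3, s1, s2, s3, hc, h0⟩ := cv_three hd
    (hLc.inter (isClosed_le ca cb)) (hLc.inter (isClosed_le cb ca)) hKc (by
      rintro x ⟨hxL, hab⟩ ⟨-, hba⟩ hxK
      have e : a x = b x := le_antisymm hab hba
      rcases hsub ⟨hxK, hxL⟩ with h | h
      · exact disjoint_left.mp huv h ((zb x).2 (e ▸ (za x).1 h))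
      · exact disjoint_left.mp huv ((za x).2 (e ▸ (zb x).1 h)) h)
  obtain ⟨d1, c1, p1, z1⟩ := B7.zero_fun h1
  obtain ⟨d2, c2, p2, z2⟩ := B7.zero_fun h2
  obtain ⟨d3, c3, p3, z3⟩ := B7.zero_fun h3
  let g : X → ℂ := fun x => ((d1 x - d3 x : ℝ) : ℂ) + ((d2 x - d3 x : ℝ) : ℂ) * Complex.I
  have hg : Continuous g := (Complex.continuous_ofReal.comp (c1.sub c3)).add
    ((Complex.continuous_ofReal.comp (c2.sub c3)).mul continuous_const)
  have gre : ∀ x, (g x).re = d1 x - d3 x := fun x => by simp [g]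
  have gim : ∀ x, (g x).im = d2 x - d3 x := fun x => by simp [g]
  obtain ⟨l, hl, hle⟩ := B7.exists_log hs g hg (fun x h => by
    have a := gre x
    have b := gim x
    rw [h] at a b
    simp only [Complex.zero_re, Complex.zero_im] at a b
    have hz : d1 x = 0 ∧ d2 x = 0 ∧ d3 x = 0 := by
      rcases hc x with hx | hx | hx
      · have := (z1 x).1 hx
        exact ⟨by linarith, by linarith, by linarith⟩
      · have := (z2 x).1 hx
        exact ⟨by linarith, by linarith, by linarith⟩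
      · have := (z3 x).1 hx
        exact ⟨by linarith, by linarith, by linarith⟩
    exact h0 x ((z1 x).2 hz.1) ((z2 x).2 hz.2.1) ((z3 x).2 hz.2.2))
  have hre : ∀ x, d1 x - d3 x = Real.exp (l x).re * Real.cos (l x).im := fun x => by
    rw [← gre, ← hle, Complex.exp_re]
  have him : ∀ x, d2 x - d3 x = Real.exp (l x).re * Real.sin (l x).im := fun x => by
    rw [← gim, ← hle, Complex.exp_im]
  have hθ : Continuous fun x => (l x).im := Complex.continuous_im.comp hl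
  have hpos : ∀ x, 0 < Real.exp (l x).re := fun x => Real.exp_pos _
  have hp1 : d1 p = 0 := (z1 p).1 (s1 ⟨hp.2, show a p ≤ b p from ((za p).1 hpu).symm ▸ pb p⟩)
  have hq2 : d2 q = 0 := (z2 q).1 (s2 ⟨hq.2, show b q ≤ a q from ((zb q).1 hqv).symm ▸ pa q⟩)
  have hφp : Real.cos (l p).im - Real.sin (l p).im ≤ 0 := by
    have e1 := hre p
    have e2 := him p
    have e3 := p2 p
    have e4 := hpos p
    by_contra h
    have := mul_pos e4 (not_le.mp h)
    nlinarith
  have hφq : 0 ≤ Real.cos (l q).im - Real.sin (l q).im := by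
    have e1 := hre q
    have e2 := him q
    have e3 := p1 q
    have e4 := hpos q
    by_contra h
    have := mul_pos e4 (neg_pos.mpr (not_le.mp h))
    nlinarith
  have hφ : Continuous fun t : ℝ => Real.cos t - Real.sin t := by fun_prop
  obtain ⟨t, ht, ht0⟩ := intermediate_value_uIcc (a := (l p).im) (b := (l q).im)
    hφ.continuousOn (show (0 : ℝ) ∈ uIcc _ _ from mem_uIcc.mpr (Or.inl ⟨hφp, hφq⟩))
  have ht0 : Real.cos t - Real.sin t = 0 := ht0
  have hin : ∀ M : Set X, Cont M → p ∈ M → q ∈ M → ∃ m ∈ M, (l m).im = t := by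
    intro M hM hpM hqM
    exact ((hM.2.isPreconnected.image _ hθ.continuousOn).ordConnected.uIcc_subset
      ⟨p, hpM, rfl⟩ ⟨q, hqM, rfl⟩ ht)
  obtain ⟨k, hk, hkt⟩ := hin K hK hp.1 hq.1
  obtain ⟨m, hm, hmt⟩ := hin L hL hp.2 hq.2
  have hk0 : 0 ≤ Real.cos t := by
    have e1 := hre k
    have e2 := (z3 k).1 (s3 hk)
    have e3 := p1 k
    rw [hkt] at e1
    exact nonneg_of_mul_nonneg_right (by linarith) (hpos k)
  have hm0 : Real.cos t ≤ 0 := by
    by_contra h
    have h4 := mul_pos (hpos m) (not_le.mp h)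
    have e3 := p3 m
    rcases le_total (a m) (b m) with h5 | h5
    · have e1 := hre m
      have e2 := (z1 m).1 (s1 ⟨hm, h5⟩)
      rw [hmt] at e1
      linarith
    · have e1 := him m
      have e2 := (z2 m).1 (s2 ⟨hm, h5⟩)
      rw [hmt, show Real.sin t = Real.cos t by linarith] at e1
      linarith
  have e1 : Real.cos t = 0 := le_antisymm hm0 hk0
  have e2 : Real.sin t = 0 := by linarith
  have e3 := Real.sin_sq_add_cos_sq t
  rw [e1, e2] at e3
  norm_num at e3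

theorem cv_sInter {c : Set (Set X)} (hdir : DirectedOn (· ⊇ ·) c) (hne : c.Nonempty)
    (h : ∀ S ∈ c, Cont S) : IsPreconnected (⋂₀ c) := by
  have : Nonempty c := hne.to_subtype
  have hcl : ∀ S ∈ c, IsClosed S := fun S hS => (h S hS).1.isClosed
  have hI : IsClosed (⋂₀ c) := isClosed_sInter hcl
  rw [isPreconnected_iff_subset_of_fully_disjoint_closed hI]
  intro u v hu hv hsub huv
  obtain ⟨U, V, hU, hV, huU, hvV, hUV⟩ := normal_separation hu hv huv
  obtain ⟨S, hS⟩ := exists_subset_nhds_of_compactSpace (V := fun S : c => (S : Set X))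
    (directedOn_iff_directed.mp hdir) (fun S => hcl S S.2) (U := U ∪ V) (by
      rw [← sInter_eq_iInter]
      exact fun x hx => (hU.union hV).mem_nhds (union_subset_union huU hvV (hsub hx)))
  rcases (h S S.2).2.isPreconnected.subset_or_subset hU hV hUV hS with h1 | h1
  · exact Or.inl fun x hx => (hsub hx).resolve_right fun h2 =>
      disjoint_left.mp hUV (h1 (hx S S.2)) (hvV h2)
  · exact Or.inr fun x hx => (hsub hx).resolve_left fun h2 =>
      disjoint_left.mp hUV (huU h2) (h1 (hx S S.2))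

omit [CompactSpace X] in
theorem cv_inter (hu : Unico X) {K L : Set X} (hK : Cont K) (hL : Cont L)
    (h : (K ∩ L).Nonempty) : Cont (K ∩ L) :=
  ⟨hK.1.inter hL.1, h, hu K L hK hL⟩

omit [CompactSpace X] in
theorem cv_compl [ConnectedSpace X] {T A B : Set X} (hT : IsPreconnected T) (hne : T.Nonempty)
    (hA : IsOpen A) (hB : IsOpen B) (hAB : Disjoint A B) (hun : A ∪ B = Tᶜ) :
    IsPreconnected Aᶜ := by
  have hTA : T ⊆ Aᶜ := fun x hx h => (hun ▸ Or.inl h : x ∈ Tᶜ) hx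
  have key : ∀ u v : Set X, IsClosed u → IsClosed v → Aᶜ ⊆ u ∪ v → Disjoint u v → T ⊆ u →
      Aᶜ ⊆ u := by
    intro u v hu hv hsub huv hTu
    have e : v ∩ Aᶜ = B ∩ uᶜ := by
      ext x
      constructor
      · rintro ⟨hxv, hxA⟩
        have hxu : x ∉ u := fun h => disjoint_left.mp huv h hxv
        have hxT : x ∈ A ∪ B := hun ▸ fun h => hxu (hTu h)
        exact ⟨hxT.resolve_left hxA, hxu⟩
      · rintro ⟨hxB, hxu⟩
        have hxA : x ∉ A := fun h => disjoint_left.mp hAB h hxB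
        exact ⟨(hsub hxA).resolve_left hxu, hxA⟩
    have hcl : IsClopen (v ∩ Aᶜ) :=
      ⟨hv.inter hA.isClosed_compl, e ▸ hB.inter hu.isOpen_compl⟩
    rcases isClopen_iff.mp hcl with h | h
    · intro x hx
      refine (hsub hx).resolve_right fun hxv => ?_
      exact (h ▸ ⟨hxv, hx⟩ : x ∈ (∅ : Set X))
    · obtain ⟨t, ht⟩ := hne
      exact absurd (h ▸ mem_univ t : t ∈ v ∩ Aᶜ).1 (disjoint_left.mp huv (hTu ht))
  rw [isPreconnected_iff_subset_of_fully_disjoint_closed hA.isClosed_compl]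
  intro u v hu hv hsub huv
  rcases isPreconnected_iff_subset_of_disjoint_closed.mp hT u v hu hv (hTA.trans hsub)
    (by rw [huv.inter_eq, inter_empty]) with h | h
  · exact Or.inl (key u v hu hv hsub huv h)
  · exact Or.inr (key v u hv hu (union_comm u v ▸ hsub) huv.symm h)

theorem cv_jT_conn [ConnectedSpace X] (hom : ∀ x y : X, ∃ h : X ≃ₜ X, h x = y) (eff : Eff X)
    (hu : Unico X) (y : X) : IsPreconnected (jT y) := by
  have e : jT y = ⋂₀ {K : Set X | Cont K ∧ y ∈ interior K} := by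
    ext x
    exact ⟨fun hx K hK => jT_symm hom eff hx K hK.1 hK.2,
      fun hx => jT_symm hom eff fun K h1 h2 => hx K ⟨h1, h2⟩⟩
  rw [e]
  refine cv_sInter ?_ ⟨univ, ⟨isCompact_univ, isConnected_univ⟩, by simp⟩ fun S hS => hS.1
  intro K hK L hL
  exact ⟨K ∩ L, ⟨cv_inter hu hK.1 hL.1 ⟨y, interior_subset hK.2, interior_subset hL.2⟩,
    by rw [interior_inter]; exact ⟨hK.2, hL.2⟩⟩, inter_subset_left, inter_subset_right⟩

theorem cv_cut [ConnectedSpace X] (hom : ∀ x y : X, ∃ h : X ≃ₜ X, h x = y) (eff : Eff X)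
    (hu : Unico X) {p q : X} (hpq : p ∉ jT q) : ∃ x : X, ¬ IsPreconnected (jT x)ᶜ := by
  have hI : IsPreconnected (⋂₀ {K : Set X | Cont K ∧ p ∈ K ∧ q ∈ K}) := by
    refine cv_sInter ?_ ⟨univ, ⟨isCompact_univ, isConnected_univ⟩, mem_univ _, mem_univ _⟩
      fun S hS => hS.1
    intro K hK L hL
    exact ⟨K ∩ L, ⟨cv_inter hu hK.1 hL.1 ⟨p, hK.2.1, hL.2.1⟩, ⟨hK.2.1, hL.2.1⟩,
      hK.2.2, hL.2.2⟩, inter_subset_left, inter_subset_right⟩
  have hd : Disjoint (jT p) (jT q) :=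
    disjoint_left.mpr fun z h1 h2 => hpq (jT_trans eff h2 (jT_symm hom eff h1))
  obtain ⟨x, hx, hxn⟩ : ∃ x ∈ ⋂₀ {K : Set X | Cont K ∧ p ∈ K ∧ q ∈ K}, x ∉ jT p ∪ jT q := by
    by_contra h
    push Not at h
    have := side hI (jT_closed p) (jT_closed q) hd h ⟨p, fun K hK => hK.2.1, jT_self p⟩
    exact disjoint_left.mp hd (this fun K hK => hK.2.2) (jT_self q)
  have hp : p ∉ jT x := fun h => hxn (Or.inl (jT_symm hom eff h))
  have hq : q ∉ jT x := fun h => hxn (Or.inr (jT_symm hom eff h))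
  refine ⟨x, fun hc => ?_⟩
  let R : Set X := {z | ∃ K, Cont K ∧ p ∈ K ∧ z ∈ K ∧ x ∉ K}
  have h1 : ∀ z, z ∉ jT x → (z ∈ interior R ∨ z ∈ interior Rᶜ) := by
    intro z hz
    obtain ⟨K, hK, hzK, hxK⟩ := jT_not hz
    by_cases h : (interior K ∩ R).Nonempty
    · obtain ⟨w, hw, M, hM, hpM, hwM, hxM⟩ := h
      refine Or.inl (interior_mono (fun s hs => ?_) hzK)
      exact ⟨M ∪ K, hM.union hK ⟨w, hwM, interior_subset hw⟩, Or.inl hpM, Or.inr hs,
        fun h2 => h2.elim hxM hxK⟩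
    · exact Or.inr (interior_maximal (fun s hs h2 => h ⟨s, hs, h2⟩) isOpen_interior hzK)
  have hpR : p ∈ R := ⟨{p}, cont_singleton p, rfl, rfl, fun h => hp (h ▸ jT_self x)⟩
  have hqR : q ∉ R := fun ⟨K, hK, a, b, c⟩ => c (hx K ⟨hK, a, b⟩)
  obtain ⟨w, -, a, b⟩ := hc _ _ isOpen_interior isOpen_interior h1
    ⟨p, hp, (h1 p hp).resolve_right fun h => interior_subset h hpR⟩
    ⟨q, hq, (h1 q hq).resolve_left fun h => hqR (interior_subset h)⟩
  exact interior_subset b (interior_subset a)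

theorem indec_of_unico [ConnectedSpace X] (hom : ∀ x y : X, ∃ h : X ≃ₜ X, h x = y)
    (eff : Eff X) (hu : Unico X) : Indec X := by
  by_contra hd
  obtain ⟨p, q, hpq⟩ : ∃ p q : X, p ∉ jT q := by
    by_contra hc
    refine hd fun K L hK hL hun => by_contra fun hn => ?_
    obtain ⟨h1, h2⟩ := not_or.1 hn
    obtain ⟨q, hq⟩ := (ne_univ_iff_exists_notMem K).1 h1
    obtain ⟨p, hp⟩ := (ne_univ_iff_exists_notMem L).1 h2
    refine hc ⟨p, q, fun h => hq (h K hK ?_)⟩
    refine interior_maximal (fun w hw => ?_) hL.1.isClosed.isOpen_compl hp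
    exact ((hun ▸ mem_univ w : w ∈ K ∪ L)).resolve_right hw
  obtain ⟨x, hx⟩ := cv_cut hom eff hu hpq
  have hall : ∀ y : X, ¬ IsPreconnected (jT y)ᶜ := by
    intro y hy
    obtain ⟨h, rfl⟩ := hom y x
    refine hx ?_
    have e : (jT (h y))ᶜ = h '' (jT y)ᶜ := by
      ext w
      constructor
      · intro hw
        exact ⟨h.symm w, fun h1 => hw (by simpa using jT_map h h1), by simp⟩
      · rintro ⟨z, hz, rfl⟩ h1
        exact hz (by simpa using jT_map h.symm h1)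
    rw [e]
    exact hy.image _ h.continuous.continuousOn
  have hsplit : ∀ T : Set X, ∃ A B : Set X, ∀ y, T = jT y → p ∉ T →
      IsOpen A ∧ IsOpen B ∧ Disjoint A B ∧ A ∪ B = Tᶜ ∧ A.Nonempty ∧ p ∈ B := by
    intro T
    by_cases h : ∃ y, T = jT y ∧ p ∉ T
    · obtain ⟨y, rfl, hp⟩ := h
      have h1 := hall y
      unfold IsPreconnected at h1
      push Not at h1
      obtain ⟨u, v, hu', hv', hsub, hun, hvn, h0⟩ := h1
      have ho := (jT_closed y).isOpen_compl
      have hdis : Disjoint ((jT y)ᶜ ∩ u) ((jT y)ᶜ ∩ v) := disjoint_left.mpr fun z a b =>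
        (h0 ▸ ⟨a.1, a.2, b.2⟩ : z ∈ (∅ : Set X))
      have hcov : (jT y)ᶜ ∩ u ∪ (jT y)ᶜ ∩ v = (jT y)ᶜ := by
        rw [← inter_union_distrib_left, inter_eq_left.mpr hsub]
      rcases hsub hp with h2 | h2
      · exact ⟨_, _, fun _ _ _ => ⟨ho.inter hv', ho.inter hu', hdis.symm,
          union_comm _ _ ▸ hcov, hvn, hp, h2⟩⟩
      · exact ⟨_, _, fun _ _ _ => ⟨ho.inter hu', ho.inter hv', hdis, hcov, hun, hp, h2⟩⟩
    · exact ⟨∅, ∅, fun y a b => absurd ⟨y, a, b⟩ h⟩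
  choose A B hAB using hsplit
  have hconn := cv_jT_conn hom eff hu
  have heq : ∀ {m y : X}, m ∈ jT y → jT m = jT y := fun h =>
    (jT_trans eff h).antisymm (jT_trans eff (jT_symm hom eff h))
  have step : ∀ y m : X, p ∉ jT y → m ∈ A (jT y) → p ∉ jT m ∧ (B (jT m))ᶜ ⊆ A (jT y) := by
    intro y m hy hm
    obtain ⟨a1, a2, a3, a4, -, a6⟩ := hAB _ y rfl hy
    have hmy : m ∉ jT y := (a4 ▸ Or.inl hm : m ∈ (jT y)ᶜ)
    have h1 : jT m ⊆ A (jT y) := by
      refine (hconn m).subset_left_of_subset_union a1 a2 a3 ?_ ⟨m, jT_self m, hm⟩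
      rw [a4]
      exact fun z hz hz' => hmy (jT_trans eff hz' (jT_symm hom eff hz))
    have hpm : p ∉ jT m := fun h => disjoint_left.mp a3 (h1 h) a6
    obtain ⟨b1, b2, b3, b4, -, b6⟩ := hAB _ m rfl hpm
    refine ⟨hpm, compl_subset_comm.mp ?_⟩
    refine (cv_compl (hconn y) ⟨y, jT_self y⟩ a1 a2 a3 a4).subset_right_of_subset_union
      b1 b2 b3 ?_ ⟨p, fun h => disjoint_left.mp a3 h a6, b6⟩
    rw [b4]
    exact compl_subset_compl.mpr h1
  have hcase : ∀ y m : X, p ∉ jT y → m ∈ (B (jT y))ᶜ → m ∈ jT y ∨ m ∈ A (jT y) := by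
    intro y m hy hm
    obtain ⟨-, -, -, a4, -, -⟩ := hAB _ y rfl hy
    by_cases h : m ∈ jT y
    · exact Or.inl h
    · exact Or.inr ((a4 ▸ h : m ∈ A (jT y) ∪ B (jT y)).resolve_right hm)
  have hself : ∀ y : X, p ∉ jT y → y ∈ (B (jT y))ᶜ := by
    intro y hy h
    obtain ⟨-, -, -, a4, -, -⟩ := hAB _ y rfl hy
    exact (a4 ▸ Or.inr h : y ∈ (jT y)ᶜ) (jT_self y)
  obtain ⟨F, -, hF⟩ := zorn_superset_nonempty {F : Set X | ∃ y, p ∉ jT y ∧ F = (B (jT y))ᶜ} (by
    intro c hc hch hne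
    have : Nonempty c := hne.to_subtype
    have hcl : ∀ U ∈ c, IsClosed U := fun U hU => by
      obtain ⟨y, hy, rfl⟩ := hc hU
      exact (hAB _ y rfl hy).2.1.isClosed_compl
    obtain ⟨m, hm⟩ := IsCompact.nonempty_sInter_of_directed_nonempty_isCompact_isClosed (S := c)
      (fun a ha b hb => by
        rcases hch.total ha hb with h | h
        · exact ⟨a, ha, subset_rfl, h⟩
        · exact ⟨b, hb, h, subset_rfl⟩)
      (fun U hU => by obtain ⟨y, hy, rfl⟩ := hc hU; exact ⟨y, hself y hy⟩)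
      (fun U hU => (hcl U hU).isCompact) hcl
    have hpm : p ∉ jT m := by
      obtain ⟨U, hU⟩ := hne
      obtain ⟨y, hy, rfl⟩ := hc hU
      rcases hcase y m hy (hm _ hU) with h | h
      · exact heq h ▸ hy
      · exact (step y m hy h).1
    refine ⟨(B (jT m))ᶜ, ⟨m, hpm, rfl⟩, fun s hs => ?_⟩
    obtain ⟨y, hy, rfl⟩ := hc hs
    rcases hcase y m hy (hm _ hs) with h | h
    · rw [heq h]
    · exact (step y m hy h).2.trans fun z hz h2 =>
        disjoint_left.mp (hAB _ y rfl hy).2.2.1 hz h2) _ ⟨q, hpq, rfl⟩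
  obtain ⟨y, hy, rfl⟩ := hF.prop
  obtain ⟨-, -, a3, a4, ⟨m, hm⟩, -⟩ := hAB _ y rfl hy
  obtain ⟨hpm, h1⟩ := step y m hy hm
  have h2 := hF.le_of_le ⟨m, hpm, rfl⟩ (h1.trans fun z hz h2 => disjoint_left.mp a3 hz h2)
  exact (a4 ▸ Or.inl (h1 (h2 (hself y hy))) : y ∈ (jT y)ᶜ) (jT_self y)

/-- a homogeneous continuum of trivial shape and dimension at most one is indecomposable -/
theorem indec_of_dimOne [ConnectedSpace X] (hom : ∀ x y : X, ∃ h : X ≃ₜ X, h x = y)
    (eff : Eff X) (hs : Shape X) (hd : DimOne X) : Indec X :=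
  indec_of_unico hom eff (unico_of_dimOne hs hd)

end Pool.Agent.Lib.MP_11d477_gt.HI
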