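import Pool.Agent.Lib.MP_11d477_gt.HI.NeckMain

/-!
Trivial shape replaced by a lifting property: the embedding in the cube lifts to every covering
space of every open neighbourhood of the image.
-/

set_option autoImplicit false

open Set Metric Topology

namespace Pool.Agent.Lib.MP_11d477_gt.HI

variable {X : Type} [MetricSpace X]

/-- the map `e` lifts to every covering space of every open neighbourhood of its image -/
def LiftsAt (e : X → (ℕ → unitInterval)) : Prop :=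
  ∀ U : Set (ℕ → unitInterval), IsOpen U → Set.range e ⊆ U →
    ∀ (E : Type) [TopologicalSpace E] (p : E → U), IsCoveringMap p → Function.Surjective p →
      ∃ s : X → E, Continuous s ∧ ∀ x, (p (s x) : ℕ → unitInterval) = e x

/-- some embedding in the cube has the lifting property -/
def Lifts (X : Type) [MetricSpace X] : Prop :=
  ∃ e : X → (ℕ → unitInterval), IsEmbedding e ∧ LiftsAt e

theorem lifts_of_shape (hs : Shape X) : Lifts X := by
  obtain ⟨e, he, hs⟩ := hs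
  refine ⟨e, he, fun U hU hr E _ p cov hp => ?_⟩
  obtain ⟨V, -, hV, hVU, y, ⟨H⟩⟩ := hs U hU hr
  obtain ⟨z, hz⟩ := hp y
  let e' : C(X, V) := ⟨fun x => ⟨e x, hV (mem_range_self x)⟩, he.continuous.subtype_mk _⟩
  let K : C(unitInterval × X, U) := ⟨fun q => H.symm (q.1, e' q.2), by fun_prop⟩
  let f0 : C(X, E) := ContinuousMap.const X z
  have h0 : ∀ a, K (0, a) = p (f0 a) := by
    intro a
    change H.symm (0, e' a) = p z
    rw [H.symm.apply_zero, hz]
    rfl
  refine ⟨fun x => cov.liftHomotopy K f0 h0 (1, x),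
    (cov.liftHomotopy K f0 h0).continuous.comp (by fun_prop), fun x => ?_⟩
  have h1 : p (cov.liftHomotopy K f0 h0 (1, x)) = K (1, x) :=
    congr_fun (cov.liftHomotopy_lifts K f0 h0) (1, x)
  have h2 : K (1, x) = ContinuousMap.inclusion hVU (e' x) := H.symm.apply_one (e' x)
  rw [h1, h2]
  rfl

theorem section_of_lift {e : X → (ℕ → unitInterval)} (hs : LiftsAt e)
    {τ F : Type} [TopologicalSpace F] [DiscreteTopology F] [Nonempty F]
    (Ω : τ → Set (ℕ → unitInterval)) (hΩ : ∀ s, IsOpen (Ω s)) (hc : ∀ x, ∃ s, e x ∈ Ω s)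
    (g : τ → τ → F → F) (hg0 : ∀ s v, g s s v = v)
    (hg : ∀ s t u q, q ∈ Ω s → q ∈ Ω t → q ∈ Ω u → ∀ v, g t u (g s t v) = g s u v) :
    ∃ f : τ → X → F, (∀ s, ContinuousOn (f s) (e ⁻¹' Ω s)) ∧
      ∀ s t x, e x ∈ Ω s → e x ∈ Ω t → f t x = g s t (f s x) := by
  classical
  have hidx : ∀ b : ↥(⋃ s, Ω s), ∃ s, b.1 ∈ Ω s := fun b => mem_iUnion.1 b.2
  choose idx hidx using hidx
  let Z : FiberBundleCore τ ↥(⋃ s, Ω s) F :=
    { baseSet := fun s => Subtype.val ⁻¹' Ω s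
      isOpen_baseSet := fun s => (hΩ s).preimage continuous_subtype_val
      indexAt := idx
      mem_baseSet_at := hidx
      coordChange := fun s t _ v => g s t v
      coordChange_self := fun s _ _ v => hg0 s v
      continuousOn_coordChange := fun s t =>
        ((continuous_of_discreteTopology (f := g s t)).comp continuous_snd).continuousOn
      coordChange_comp := fun s t u b hb v => hg s t u b.1 hb.1.1 hb.1.2 hb.2 v }
  have cov : IsCoveringMap Z.proj :=
    IsCoveringMap.mk Z.proj (fun _ => F) (fun b => Z.localTrivAt b) fun b =>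
      Z.mem_localTrivAt_baseSet b
  obtain ⟨σ, hσ, hp⟩ := hs (⋃ s, Ω s) (isOpen_iUnion hΩ) (by
    rintro _ ⟨x, rfl⟩
    exact mem_iUnion.2 (hc x)) Z.TotalSpace Z.proj cov
    fun b => ⟨⟨b, Classical.arbitrary F⟩, rfl⟩
  replace hp : ∀ x, ((σ x).proj : ℕ → unitInterval) = e x := hp
  refine ⟨fun s x => (Z.localTriv s (σ x)).2, fun s => ?_, fun s t x h1 h2 => ?_⟩
  · refine continuous_snd.comp_continuousOn
      ((Z.localTriv s).continuousOn.comp hσ.continuousOn fun x hx => ?_)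
    rw [(Z.localTriv s).mem_source]
    change ((σ x).proj : ℕ → unitInterval) ∈ Ω s
    rw [hp]
    exact hx
  · change g (idx (σ x).proj) t (σ x).2 = g s t (g (idx (σ x).proj) s (σ x).2)
    have h3 := hidx (σ x).proj
    rw [hp] at h3
    exact (hg _ s t (e x) h3 h1 h2 _).symm

theorem deadEnd_lift [CompactSpace X] (hs : Lifts X) : DeadEnd X := by
  classical
  intro ι κ _ _ _ W P A₀ hW hP hWd hPd hcov hA hAP
  obtain ⟨e, he, hs⟩ := hs
  have hcl : IsClosedMap e := he.continuous.isClosedMap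
  obtain ⟨ΩW, hΩW, hΩW'⟩ := open_nbhds (fun i => e '' W i) (fun i => hcl _ (hW i))
    fun i i' h => (disjoint_image_iff he.injective).2 (hWd i i' h)
  obtain ⟨ΩP, hΩP, hΩP'⟩ := open_nbhds (fun j => e '' P j) (fun j => hcl _ (hP j))
    fun j j' h => (disjoint_image_iff he.injective).2 (hPd j j' h)
  let : TopologicalSpace (Word (ι × κ)) := ⊥
  have : DiscreteTopology (Word (ι × κ)) := ⟨rfl⟩
  have : Nonempty (Word (ι × κ)) := ⟨⟨[], List.isChain_nil⟩⟩
  let g : ι ⊕ κ → ι ⊕ κ → Word (ι × κ) → Word (ι × κ) := fun s t =>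
    match s, t with
    | Sum.inl i, Sum.inr j => Word.act (i, j)
    | Sum.inr j, Sum.inl i => Word.act (i, j)
    | Sum.inl _, Sum.inl _ => id
    | Sum.inr _, Sum.inr _ => id
  have hxW : ∀ {i z}, z ∈ W i → e z ∈ ΩW i := fun {i z} h => (hΩW i).2 (mem_image_of_mem e h)
  have hxP : ∀ {j z}, z ∈ P j → e z ∈ ΩP j := fun {j z} h => (hΩP j).2 (mem_image_of_mem e h)
  have hcov' : ∀ z, (∃ i, z ∈ W i) ∨ ∃ j, z ∈ P j := by
    intro z
    have : z ∈ (⋃ i, W i) ∪ ⋃ j, P j := hcov ▸ mem_univ z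
    simpa only [mem_union, mem_iUnion] using this
  obtain ⟨f, hf, hrel⟩ := section_of_lift hs (Sum.elim ΩW ΩP)
    (by rintro (i | j); exacts [(hΩW i).1, (hΩP j).1])
    (fun z => by
      rcases hcov' z with ⟨i, hi⟩ | ⟨j, hj⟩
      exacts [⟨Sum.inl i, hxW hi⟩, ⟨Sum.inr j, hxP hj⟩])
    g (by rintro (i | j) v <;> rfl) (by
      rintro (i | j) (i' | j') (i'' | j'') q h1 h2 h3 v
      · rfl
      · rw [hΩW' i i' q h1 h2]; rfl
      · rw [hΩW' i i'' q h1 h3]; exact Word.act_act _ _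
      · rw [hΩP' j' j'' q h2 h3]; rfl
      · rw [hΩW' i' i'' q h2 h3]; rfl
      · rw [hΩP' j j'' q h1 h3]; exact Word.act_act _ _
      · rw [hΩP' j j' q h1 h2]; rfl
      · rfl)
  have hfW : ∀ i, ContinuousOn (f (Sum.inl i)) (W i) := fun i =>
    (hf (Sum.inl i)).mono fun z hz => hxW hz
  have hfP : ∀ j, ContinuousOn (f (Sum.inr j)) (P j) := fun j =>
    (hf (Sum.inr j)).mono fun z hz => hxP hz
  have hstep : ∀ {i j z}, z ∈ W i → z ∈ P j →
      (f (Sum.inl i) z).1 = (i, j) :: (f (Sum.inr j) z).1 ∨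
        (f (Sum.inr j) z).1 = (i, j) :: (f (Sum.inl i) z).1 := by
    intro i j z h1 h2
    rw [hrel (Sum.inl i) (Sum.inr j) z (hxW h1) (hxP h2)]
    exact Word.act_cases _ _
  -- the longest word
  have hfin : (⋃ j, f (Sum.inr j) '' (A₀ ∩ P j)).Finite :=
    finite_iUnion fun j => (((hP j).isCompact.image_of_continuousOn (hfP j)).finite_of_discrete).subset
      (image_mono inter_subset_right)
  have hne : (⋃ j, f (Sum.inr j) '' (A₀ ∩ P j)).Nonempty := by
    obtain ⟨z, hz⟩ := hA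
    obtain ⟨j, hj⟩ := mem_iUnion.1 (hAP hz)
    exact ⟨_, mem_iUnion.2 ⟨j, z, ⟨hz, hj⟩, rfl⟩⟩
  obtain ⟨w, hw, hmax⟩ := exists_max_image _ (fun v : Word (ι × κ) => v.1.length) hfin hne
  obtain ⟨j, z₀, hz₀, hwz⟩ := mem_iUnion.1 hw
  obtain ⟨i, hi⟩ : ∃ i : ι, ∀ l : ι × κ, w.1.head? = some l → l.1 = i := by
    cases h : w.1.head? with
    | none => exact ⟨Classical.arbitrary ι, fun l hl => by simp at hl⟩
    | some l => exact ⟨l.1, fun l' hl => by rw [Option.some.inj hl]⟩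
  let Y : Set X := (⋃ j', {z | z ∈ P j' ∧ TQ j w.1 j' (f (Sum.inr j') z).1}) ∪
    ⋃ i', {z | z ∈ W i' ∧ TE j w.1 (f (Sum.inl i') z).1}
  let Y' : Set X := (⋃ j', {z | z ∈ P j' ∧ ¬ TQ j w.1 j' (f (Sum.inr j') z).1}) ∪
    ⋃ i', {z | z ∈ W i' ∧ ¬ TE j w.1 (f (Sum.inl i') z).1}
  have hY : IsClosed Y :=
    (isClosed_iUnion_of_finite fun j' =>
      closed_test (hP j') (hfP j') fun v => TQ j w.1 j' v.1).union
      (isClosed_iUnion_of_finite fun i' => closed_test (hW i') (hfW i') fun v => TE j w.1 v.1)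
  have hY' : IsClosed Y' :=
    (isClosed_iUnion_of_finite fun j' =>
      closed_test (hP j') (hfP j') fun v => ¬ TQ j w.1 j' v.1).union
      (isClosed_iUnion_of_finite fun i' => closed_test (hW i') (hfW i') fun v => ¬ TE j w.1 v.1)
  have eqP : ∀ {j₁ j₂ z}, z ∈ P j₁ → z ∈ P j₂ → j₁ = j₂ := by
    intro j₁ j₂ z h1 h2
    by_contra h
    exact Set.disjoint_left.1 (hPd _ _ h) h1 h2
  have eqW : ∀ {i₁ i₂ z}, z ∈ W i₁ → z ∈ W i₂ → i₁ = i₂ := by
    intro i₁ i₂ z h1 h2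
    by_contra h
    exact Set.disjoint_left.1 (hWd _ _ h) h1 h2
  have hYP : ∀ {j' z}, z ∈ Y → z ∈ P j' → TQ j w.1 j' (f (Sum.inr j') z).1 := by
    intro j' z hz hzP
    rcases hz with hz | hz
    · obtain ⟨j₁, h1, h2⟩ := mem_iUnion.1 hz
      obtain rfl := eqP h1 hzP
      exact h2
    · obtain ⟨i₁, h1, h2⟩ := mem_iUnion.1 hz
      exact te_tq j w.1 (l := (i₁, j')) (hstep h1 hzP) h2
  have hYY : ∀ z, z ∈ Y → z ∈ Y' → z ∈ W i := by
    intro z hz hz'
    rcases hz' with hz' | hz'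
    · obtain ⟨j₁, h1, h2⟩ := mem_iUnion.1 hz'
      exact absurd (hYP hz h1) h2
    · obtain ⟨i₁, h1, h2⟩ := mem_iUnion.1 hz'
      rcases hz with hz | hz
      · obtain ⟨j₁, h3, h4⟩ := mem_iUnion.1 hz
        rcases tq_te j w.1 (l := (i₁, j₁)) (hstep h1 h3) h4 with h | h
        · exact absurd h h2
        · exact hi _ h ▸ h1
      · obtain ⟨i₂, h3, h4⟩ := mem_iUnion.1 hz
        obtain rfl := eqW h1 h3
        exact absurd h4 h2
  have hall : ∀ z, z ∈ Y ∪ Y' := by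
    intro z
    rcases hcov' z with ⟨i₁, h⟩ | ⟨j₁, h⟩
    · by_cases ht : TE j w.1 (f (Sum.inl i₁) z).1
      · exact Or.inl (Or.inr (mem_iUnion.2 ⟨i₁, h, ht⟩))
      · exact Or.inr (Or.inr (mem_iUnion.2 ⟨i₁, h, ht⟩))
    · by_cases ht : TQ j w.1 j₁ (f (Sum.inr j₁) z).1
      · exact Or.inl (Or.inl (mem_iUnion.2 ⟨j₁, h, ht⟩))
      · exact Or.inr (Or.inl (mem_iUnion.2 ⟨j₁, h, ht⟩))
  refine ⟨i, j, Y, fun L hL hLY hLW => ?_, ⟨z₀, ?_, hz₀.1⟩, ?_⟩
  · have hno : ∀ z ∈ L, z ∈ Y → z ∈ Y' → False := fun z hz h1 h2 =>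
      Set.disjoint_left.1 hLW hz (hYY z h1 h2)
    rcases (isPreconnected_iff_subset_of_disjoint_closed.1 hL) Y Y' hY hY' (fun z _ => hall z)
      (eq_empty_of_forall_notMem fun z hz => hno z hz.1 hz.2.1 hz.2.2) with h | h
    · exact h
    · obtain ⟨z, hz, hzY⟩ := hLY
      exact (hno z hz hzY (h hz)).elim
  · exact Or.inl (mem_iUnion.2 ⟨j, hz₀.2, Or.inl ⟨rfl, by rw [hwz]⟩⟩)
  · rintro z ⟨hzY, hzA⟩
    obtain ⟨j', hj'⟩ := mem_iUnion.1 (hAP hzA)
    rcases hYP hzY hj' with h | ⟨⟨i', h⟩, -⟩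
    · exact h.1 ▸ hj'
    · have h1 := h.length_le
      have h2 := hmax _ (mem_iUnion.2 ⟨j', z, ⟨hzA, hj'⟩, rfl⟩)
      simp only [List.length_cons] at h1
      omega

theorem nested_of_lift [CompactSpace X] [ConnectedSpace X]
    (hom : ∀ x y : X, ∃ h : X ≃ₜ X, h x = y) (hi : Indec X) (hs : Lifts X) : Nested X := by
  by_contra h
  have eff := effros hom
  obtain ⟨S, σ, hσ, hS, hnt, hc⟩ := exists_clean hom eff h
  have ht : Thin S := by
    by_cases hu : S = univ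
    · exact hu ▸ thin_univ hi
    · exact thin_of_clean eff hσ hS hc hu
  have hw := wall eff hS ht
  exact finish eff hσ hS hnt hc
    (petals eff hS ht hw (fun x hx c hc hne => petal_term eff hS hw hx hc hne) (deadEnd_lift hs))

theorem dimOne_of_lift [CompactSpace X] [ConnectedSpace X] [Nontrivial X]
    (hom : ∀ x y : X, ∃ h : X ≃ₜ X, h x = y) (hna : ¬ Apo X) (hs : Lifts X) : DimOne X := by
  by_cases hi : Indec X
  · have hn := nested_of_lift hom hi hs
    obtain ⟨x, y, hxy⟩ := exists_pair_ne X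
    obtain ⟨D, hD, hxD, hne, hDU, -⟩ := bump (S := univ) (K := {x}) (U := {y}ᶜ)
      ⟨isCompact_univ, isConnected_univ⟩ (cont_singleton x) (subset_univ _)
      (fun e => hxy (mem_singleton_iff.1 (e ▸ mem_univ y : y ∈ ({x} : Set X))).symm)
      isOpen_compl_singleton (singleton_subset_iff.2 hxy)
    refine dimOne_of_term hom (D := D) ⟨hD, fun L hL hm => hn L D hL hD hm⟩ ?_ fun e => ?_
    · exact (Set.nontrivial_iff_ne_singleton (hxD rfl)).2 hne
    · exact hDU (e ▸ mem_univ y) rfl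
  · exact dimOne_of_dec hom hna hi

end Pool.Agent.Lib.MP_11d477_gt.HI
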