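import Pool.Agent.Lib.MP_11d477_gt.HI.Defs

/-!
The dead end lemma: the only use of the trivial shape in the proof of hereditary
indecomposability.
-/

set_option autoImplicit false

open Set Metric Topology

namespace Pool.Agent.Lib.MP_11d477_gt.HI

variable {X : Type} [MetricSpace X]

/-- constant transition maps on an open cover of a neighbourhood in the cube have a section -/
theorem section_of_shape {e : X → (ℕ → unitInterval)} (he : Continuous e)
    (hs : ∀ U : Set (ℕ → unitInterval), IsOpen U → Set.range e ⊆ U →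
      ∃ V : Set (ℕ → unitInterval), IsOpen V ∧ Set.range e ⊆ V ∧
        ∃ h : V ⊆ U, (ContinuousMap.inclusion h).Nullhomotopic)
    {τ F : Type} [TopologicalSpace F] [DiscreteTopology F] [Nonempty F]
    (Ω : τ → Set (ℕ → unitInterval)) (hΩ : ∀ s, IsOpen (Ω s)) (hc : ∀ x, ∃ s, e x ∈ Ω s)
    (g : τ → τ → F → F) (hg0 : ∀ s v, g s s v = v)
    (hg : ∀ s t u q, q ∈ Ω s → q ∈ Ω t → q ∈ Ω u → ∀ v, g t u (g s t v) = g s u v) :
    ∃ f : τ → X → F, (∀ s, ContinuousOn (f s) (e ⁻¹' Ω s)) ∧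
      ∀ s t x, e x ∈ Ω s → e x ∈ Ω t → f t x = g s t (f s x) := by
  classical
  obtain ⟨V, -, hV, hVU, y, ⟨H⟩⟩ := hs (⋃ s, Ω s) (isOpen_iUnion hΩ) (by
    rintro _ ⟨x, rfl⟩
    exact mem_iUnion.2 (hc x))
  have hidx : ∀ b : ↥(⋃ s, Ω s), ∃ s, b.1 ∈ Ω s := fun b => mem_iUnion.1 b.2
  choose idx hidx using hidx
  let Z : FiberBundleCore τ ↥(⋃ s, Ω s) F :=
    { baseSet := fun s => Subtype.val ⁻¹' Ω s
      isOpen_baseSet := fun s => (hΩ s).preimage continuous_subtype_val
      indexAt := idx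
      mem_baseSet_at := hidx
      coordChange := fun s t _ v => g s t v
      coordChange_self := fun s _ _ v => hg0 s v
      continuousOn_coordChange := fun s t =>
        ((continuous_of_discreteTopology (f := g s t)).comp continuous_snd).continuousOn
      coordChange_comp := fun s t u b hb v => hg s t u b.1 hb.1.1 hb.1.2 hb.2 v }
  have cov : IsCoveringMap Z.proj :=
    IsCoveringMap.mk Z.proj (fun _ => F) (fun b => Z.localTrivAt b) fun b =>
      Z.mem_localTrivAt_baseSet b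
  let e' : C(X, V) := ⟨fun x => ⟨e x, hV (mem_range_self x)⟩, he.subtype_mk _⟩
  let K : C(unitInterval × X, ↥(⋃ s, Ω s)) :=
    ⟨fun p => H.symm (p.1, e' p.2), by fun_prop⟩
  let v0 : F := Classical.arbitrary F
  let f0 : C(X, Z.TotalSpace) := ContinuousMap.const X ⟨y, v0⟩
  have h0 : ∀ a, K (0, a) = Z.proj (f0 a) := by
    intro a
    change H.symm (0, e' a) = y
    rw [H.symm.apply_zero]
    rfl
  let σ : X → Z.TotalSpace := fun x => cov.liftHomotopy K f0 h0 (1, x)
  have hσ : Continuous σ := by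
    have := (cov.liftHomotopy K f0 h0).continuous
    exact this.comp (by fun_prop)
  have hp : ∀ x, ((σ x).proj : ℕ → unitInterval) = e x := by
    intro x
    have h1 : Z.proj (σ x) = K (1, x) := congr_fun (cov.liftHomotopy_lifts K f0 h0) (1, x)
    have h2 : K (1, x) = ContinuousMap.inclusion hVU (e' x) := H.symm.apply_one (e' x)
    change ((Z.proj (σ x) : ↥(⋃ s, Ω s)) : ℕ → unitInterval) = e x
    rw [h1, h2]
    rfl
  refine ⟨fun s x => (Z.localTriv s (σ x)).2, fun s => ?_, fun s t x h1 h2 => ?_⟩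
  · refine continuous_snd.comp_continuousOn
      ((Z.localTriv s).continuousOn.comp hσ.continuousOn fun x hx => ?_)
    rw [(Z.localTriv s).mem_source]
    change ((σ x).proj : ℕ → unitInterval) ∈ Ω s
    rw [hp]
    exact hx
  · change g (idx (σ x).proj) t (σ x).2 = g s t (g (idx (σ x).proj) s (σ x).2)
    have h3 := hidx (σ x).proj
    rw [hp] at h3
    exact (hg _ s t (e x) h3 h1 h2 _).symm

/-- words without two equal neighbours -/
def Word (α : Type) : Type := {l : List α // l.IsChain (· ≠ ·)}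

open Classical in
/-- cancel the letter if it is the head, write it otherwise -/
noncomputable def Word.act {α : Type} (a : α) (w : Word α) : Word α :=
  if h : w.1.head? = some a then ⟨w.1.tail, w.2.tail⟩
  else ⟨a :: w.1, by
    obtain ⟨l, hl⟩ := w
    cases l with
    | nil => exact List.isChain_singleton a
    | cons b t =>
      refine List.isChain_cons_cons.2 ⟨?_, hl⟩
      rintro rfl
      exact h rfl⟩

theorem Word.act_pos {α : Type} {a : α} {w : Word α} (h : w.1.head? = some a) :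
    (w.act a).1 = w.1.tail := by
  unfold Word.act
  rw [dif_pos h]

theorem Word.act_neg {α : Type} {a : α} {w : Word α} (h : ¬ w.1.head? = some a) :
    (w.act a).1 = a :: w.1 := by
  unfold Word.act
  rw [dif_neg h]

theorem Word.act_cases {α : Type} (a : α) (w : Word α) :
    w.1 = a :: (w.act a).1 ∨ (w.act a).1 = a :: w.1 := by
  by_cases h : w.1.head? = some a
  · left
    rw [Word.act_pos h]
    exact (List.cons_head?_tail h).symm
  · exact Or.inr (Word.act_neg h)

theorem Word.act_act {α : Type} (a : α) (w : Word α) : (w.act a).act a = w := by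
  apply Subtype.ext
  by_cases h : w.1.head? = some a
  · have h1 := Word.act_pos h
    have h0 : a :: w.1.tail = w.1 := List.cons_head?_tail h
    have h2 : ¬ (w.act a).1.head? = some a := by
      rw [h1]
      have hl := w.2
      rw [← h0] at hl
      cases ht : w.1.tail with
      | nil => simp
      | cons c u =>
        rw [ht] at hl
        have := (List.isChain_cons_cons.1 hl).1
        simpa using fun hcb => this hcb.symm
    rw [Word.act_neg h2, h1, h0]
  · have h1 := Word.act_neg h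
    have h2 : (w.act a).1.head? = some a := by rw [h1]; rfl
    rw [Word.act_pos h2, h1]
    rfl

section tests

variable {ι κ : Type} (j : κ) (w : List (ι × κ))

/-- the word lies behind one of the edges of type `j` at `w` -/
def Behind (v : List (ι × κ)) : Prop := ∃ i, ((i, j) :: w) <:+ v

/-- the test on the side of the second family -/
def TQ (j' : κ) (v : List (ι × κ)) : Prop :=
  (j' = j ∧ v = w) ∨ (Behind j w v ∧ v.length % 2 = w.length % 2)

/-- the test on the side of the first family -/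
def TE (v : List (ι × κ)) : Prop := Behind j w v ∧ v.length % 2 ≠ w.length % 2

theorem behind_cons (l : ι × κ) (v : List (ι × κ)) :
    Behind j w (l :: v) ↔ (l.2 = j ∧ v = w) ∨ Behind j w v := by
  constructor
  · rintro ⟨i, hi⟩
    rcases List.suffix_cons_iff.1 hi with h | h
    · left
      have := List.cons.inj h
      exact ⟨by rw [← this.1], this.2.symm⟩
    · exact Or.inr ⟨i, h⟩
  · rintro (⟨h1, h2⟩ | ⟨i, hi⟩)
    · refine ⟨l.1, ?_⟩
      rw [← h1, h2]
    · exact ⟨i, hi.trans (List.suffix_cons _ _)⟩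

theorem te_tq {l : ι × κ} {a b : List (ι × κ)} (h : a = l :: b ∨ b = l :: a) (ha : TE j w a) :
    TQ j w l.2 b := by
  obtain ⟨h1, h2⟩ := ha
  rcases h with rfl | rfl
  · rcases (behind_cons j w l b).1 h1 with h | h
    · exact Or.inl h
    · refine Or.inr ⟨h, ?_⟩
      simp only [List.length_cons] at h2
      omega
  · refine Or.inr ⟨(behind_cons j w l a).2 (Or.inr h1), ?_⟩
    simp only [List.length_cons]
    omega

theorem tq_te {l : ι × κ} {a b : List (ι × κ)} (h : a = l :: b ∨ b = l :: a)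
    (hb : TQ j w l.2 b) : TE j w a ∨ w.head? = some l := by
  rcases h with rfl | rfl
  · left
    rcases hb with ⟨h1, h2⟩ | ⟨h1, h2⟩
    · refine ⟨(behind_cons j w l b).2 (Or.inl ⟨h1, h2⟩), ?_⟩
      simp only [List.length_cons, h2]
      omega
    · refine ⟨(behind_cons j w l b).2 (Or.inr h1), ?_⟩
      simp only [List.length_cons]
      omega
  · rcases hb with ⟨-, h2⟩ | ⟨h1, h2⟩
    · right
      rw [← h2]
      rfl
    · left
      simp only [List.length_cons] at h2
      rcases (behind_cons j w l a).1 h1 with h | h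
      · rw [h.2] at h2
        omega
      · exact ⟨h, by omega⟩

end tests

theorem closed_test {F : Type} [TopologicalSpace F] [DiscreteTopology F] {C : Set X}
    (hC : IsClosed C) {f : X → F} (hf : ContinuousOn f C) (p : F → Prop) :
    IsClosed {z | z ∈ C ∧ p (f z)} :=
  hf.preimage_isClosed_of_isClosed hC (isClosed_discrete {v | p v})

theorem open_nbhds {T : Type} [TopologicalSpace T] [NormalSpace T] {ι : Type} [Finite ι]
    (C : ι → Set T) (hC : ∀ i, IsClosed (C i)) (hd : ∀ i i', i ≠ i' → Disjoint (C i) (C i')) :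
    ∃ Ω : ι → Set T, (∀ i, IsOpen (Ω i) ∧ C i ⊆ Ω i) ∧
      ∀ i i' q, q ∈ Ω i → q ∈ Ω i' → i = i' := by
  have h1 : Pairwise (Function.onFun Disjoint fun i => 𝓝ˢ (C i)) := fun i i' h =>
    disjoint_nhdsSet_nhdsSet (hC i) (hC i') (hd i i' h)
  obtain ⟨Ω, h2, h3⟩ := h1.exists_mem_filter_basis_of_disjoint fun i => hasBasis_nhdsSet (C i)
  refine ⟨Ω, h2, fun i i' q hq hq' => ?_⟩
  by_contra hne
  exact Set.disjoint_left.1 (h3 hne) hq hq'

theorem deadEnd [CompactSpace X] (hs : Shape X) : DeadEnd X := by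
  classical
  intro ι κ _ _ _ W P A₀ hW hP hWd hPd hcov hA hAP
  obtain ⟨e, he, hs⟩ := hs
  have hcl : IsClosedMap e := he.continuous.isClosedMap
  obtain ⟨ΩW, hΩW, hΩW'⟩ := open_nbhds (fun i => e '' W i) (fun i => hcl _ (hW i))
    fun i i' h => (disjoint_image_iff he.injective).2 (hWd i i' h)
  obtain ⟨ΩP, hΩP, hΩP'⟩ := open_nbhds (fun j => e '' P j) (fun j => hcl _ (hP j))
    fun j j' h => (disjoint_image_iff he.injective).2 (hPd j j' h)
  let : TopologicalSpace (Word (ι × κ)) := ⊥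
  have : DiscreteTopology (Word (ι × κ)) := ⟨rfl⟩
  have : Nonempty (Word (ι × κ)) := ⟨⟨[], List.isChain_nil⟩⟩
  let g : ι ⊕ κ → ι ⊕ κ → Word (ι × κ) → Word (ι × κ) := fun s t =>
    match s, t with
    | Sum.inl i, Sum.inr j => Word.act (i, j)
    | Sum.inr j, Sum.inl i => Word.act (i, j)
    | Sum.inl _, Sum.inl _ => id
    | Sum.inr _, Sum.inr _ => id
  have hxW : ∀ {i z}, z ∈ W i → e z ∈ ΩW i := fun {i z} h => (hΩW i).2 (mem_image_of_mem e h)
  have hxP : ∀ {j z}, z ∈ P j → e z ∈ ΩP j := fun {j z} h => (hΩP j).2 (mem_image_of_mem e h)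
  have hcov' : ∀ z, (∃ i, z ∈ W i) ∨ ∃ j, z ∈ P j := by
    intro z
    have : z ∈ (⋃ i, W i) ∪ ⋃ j, P j := hcov ▸ mem_univ z
    simpa only [mem_union, mem_iUnion] using this
  obtain ⟨f, hf, hrel⟩ := section_of_shape he.continuous hs (Sum.elim ΩW ΩP)
    (by rintro (i | j); exacts [(hΩW i).1, (hΩP j).1])
    (fun z => by
      rcases hcov' z with ⟨i, hi⟩ | ⟨j, hj⟩
      exacts [⟨Sum.inl i, hxW hi⟩, ⟨Sum.inr j, hxP hj⟩])
    g (by rintro (i | j) v <;> rfl) (by
      rintro (i | j) (i' | j') (i'' | j'') q h1 h2 h3 v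
      · rfl
      · rw [hΩW' i i' q h1 h2]; rfl
      · rw [hΩW' i i'' q h1 h3]; exact Word.act_act _ _
      · rw [hΩP' j' j'' q h2 h3]; rfl
      · rw [hΩW' i' i'' q h2 h3]; rfl
      · rw [hΩP' j j'' q h1 h3]; exact Word.act_act _ _
      · rw [hΩP' j j' q h1 h2]; rfl
      · rfl)
  have hfW : ∀ i, ContinuousOn (f (Sum.inl i)) (W i) := fun i =>
    (hf (Sum.inl i)).mono fun z hz => hxW hz
  have hfP : ∀ j, ContinuousOn (f (Sum.inr j)) (P j) := fun j =>
    (hf (Sum.inr j)).mono fun z hz => hxP hz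
  have hstep : ∀ {i j z}, z ∈ W i → z ∈ P j →
      (f (Sum.inl i) z).1 = (i, j) :: (f (Sum.inr j) z).1 ∨
        (f (Sum.inr j) z).1 = (i, j) :: (f (Sum.inl i) z).1 := by
    intro i j z h1 h2
    rw [hrel (Sum.inl i) (Sum.inr j) z (hxW h1) (hxP h2)]
    exact Word.act_cases _ _
  -- the longest word
  have hfin : (⋃ j, f (Sum.inr j) '' (A₀ ∩ P j)).Finite :=
    finite_iUnion fun j => (((hP j).isCompact.image_of_continuousOn (hfP j)).finite_of_discrete).subset
      (image_mono inter_subset_right)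
  have hne : (⋃ j, f (Sum.inr j) '' (A₀ ∩ P j)).Nonempty := by
    obtain ⟨z, hz⟩ := hA
    obtain ⟨j, hj⟩ := mem_iUnion.1 (hAP hz)
    exact ⟨_, mem_iUnion.2 ⟨j, z, ⟨hz, hj⟩, rfl⟩⟩
  obtain ⟨w, hw, hmax⟩ := exists_max_image _ (fun v : Word (ι × κ) => v.1.length) hfin hne
  obtain ⟨j, z₀, hz₀, hwz⟩ := mem_iUnion.1 hw
  obtain ⟨i, hi⟩ : ∃ i : ι, ∀ l : ι × κ, w.1.head? = some l → l.1 = i := by
    cases h : w.1.head? with
    | none => exact ⟨Classical.arbitrary ι, fun l hl => by simp at hl⟩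
    | some l => exact ⟨l.1, fun l' hl => by rw [Option.some.inj hl]⟩
  let Y : Set X := (⋃ j', {z | z ∈ P j' ∧ TQ j w.1 j' (f (Sum.inr j') z).1}) ∪
    ⋃ i', {z | z ∈ W i' ∧ TE j w.1 (f (Sum.inl i') z).1}
  let Y' : Set X := (⋃ j', {z | z ∈ P j' ∧ ¬ TQ j w.1 j' (f (Sum.inr j') z).1}) ∪
    ⋃ i', {z | z ∈ W i' ∧ ¬ TE j w.1 (f (Sum.inl i') z).1}
  have hY : IsClosed Y :=
    (isClosed_iUnion_of_finite fun j' =>
      closed_test (hP j') (hfP j') fun v => TQ j w.1 j' v.1).union
      (isClosed_iUnion_of_finite fun i' => closed_test (hW i') (hfW i') fun v => TE j w.1 v.1)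
  have hY' : IsClosed Y' :=
    (isClosed_iUnion_of_finite fun j' =>
      closed_test (hP j') (hfP j') fun v => ¬ TQ j w.1 j' v.1).union
      (isClosed_iUnion_of_finite fun i' => closed_test (hW i') (hfW i') fun v => ¬ TE j w.1 v.1)
  have eqP : ∀ {j₁ j₂ z}, z ∈ P j₁ → z ∈ P j₂ → j₁ = j₂ := by
    intro j₁ j₂ z h1 h2
    by_contra h
    exact Set.disjoint_left.1 (hPd _ _ h) h1 h2
  have eqW : ∀ {i₁ i₂ z}, z ∈ W i₁ → z ∈ W i₂ → i₁ = i₂ := by
    intro i₁ i₂ z h1 h2
    by_contra h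
    exact Set.disjoint_left.1 (hWd _ _ h) h1 h2
  have hYP : ∀ {j' z}, z ∈ Y → z ∈ P j' → TQ j w.1 j' (f (Sum.inr j') z).1 := by
    intro j' z hz hzP
    rcases hz with hz | hz
    · obtain ⟨j₁, h1, h2⟩ := mem_iUnion.1 hz
      obtain rfl := eqP h1 hzP
      exact h2
    · obtain ⟨i₁, h1, h2⟩ := mem_iUnion.1 hz
      exact te_tq j w.1 (l := (i₁, j')) (hstep h1 hzP) h2
  have hYY : ∀ z, z ∈ Y → z ∈ Y' → z ∈ W i := by
    intro z hz hz'
    rcases hz' with hz' | hz'
    · obtain ⟨j₁, h1, h2⟩ := mem_iUnion.1 hz'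
      exact absurd (hYP hz h1) h2
    · obtain ⟨i₁, h1, h2⟩ := mem_iUnion.1 hz'
      rcases hz with hz | hz
      · obtain ⟨j₁, h3, h4⟩ := mem_iUnion.1 hz
        rcases tq_te j w.1 (l := (i₁, j₁)) (hstep h1 h3) h4 with h | h
        · exact absurd h h2
        · exact hi _ h ▸ h1
      · obtain ⟨i₂, h3, h4⟩ := mem_iUnion.1 hz
        obtain rfl := eqW h1 h3
        exact absurd h4 h2
  have hall : ∀ z, z ∈ Y ∪ Y' := by
    intro z
    rcases hcov' z with ⟨i₁, h⟩ | ⟨j₁, h⟩
    · by_cases ht : TE j w.1 (f (Sum.inl i₁) z).1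
      · exact Or.inl (Or.inr (mem_iUnion.2 ⟨i₁, h, ht⟩))
      · exact Or.inr (Or.inr (mem_iUnion.2 ⟨i₁, h, ht⟩))
    · by_cases ht : TQ j w.1 j₁ (f (Sum.inr j₁) z).1
      · exact Or.inl (Or.inl (mem_iUnion.2 ⟨j₁, h, ht⟩))
      · exact Or.inr (Or.inl (mem_iUnion.2 ⟨j₁, h, ht⟩))
  refine ⟨i, j, Y, fun L hL hLY hLW => ?_, ⟨z₀, ?_, hz₀.1⟩, ?_⟩
  · have hno : ∀ z ∈ L, z ∈ Y → z ∈ Y' → False := fun z hz h1 h2 =>
      Set.disjoint_left.1 hLW hz (hYY z h1 h2)
    rcases (isPreconnected_iff_subset_of_disjoint_closed.1 hL) Y Y' hY hY' (fun z _ => hall z)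
      (eq_empty_of_forall_notMem fun z hz => hno z hz.1 hz.2.1 hz.2.2) with h | h
    · exact h
    · obtain ⟨z, hz, hzY⟩ := hLY
      exact (hno z hz hzY (h hz)).elim
  · exact Or.inl (mem_iUnion.2 ⟨j, hz₀.2, Or.inl ⟨rfl, by rw [hwz]⟩⟩)
  · rintro z ⟨hzY, hzA⟩
    obtain ⟨j', hj'⟩ := mem_iUnion.1 (hAP hzA)
    rcases hYP hzY hj' with h | ⟨⟨i', h⟩, -⟩
    · exact h.1 ▸ hj'
    · have h1 := h.length_le
      have h2 := hmax _ (mem_iUnion.2 ⟨j', z, ⟨hzA, hj'⟩, rfl⟩)
      simp only [List.length_cons] at h1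
      omega

end Pool.Agent.Lib.MP_11d477_gt.HI
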