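import Mathlib

/-!
Definitions for the proof that a homogeneous indecomposable continuum of trivial shape is
hereditarily indecomposable.
-/

set_option autoImplicit false

open Set Metric Topology

namespace Pool.Agent.Lib.MP_11d477_gt.HI

variable {X : Type} [MetricSpace X]

/-- subcontinuum -/
def Cont (K : Set X) : Prop := IsCompact K ∧ IsConnected K

/-- terminal subcontinuum -/
def Term (S : Set X) : Prop := Cont S ∧ ∀ L, Cont L → (L ∩ S).Nonempty → L ⊆ S ∨ S ⊆ L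

/-- the homeomorphism moves every point less than `ε` -/
def Small (h : X ≃ₜ X) (ε : ℝ) : Prop := ∀ w, dist (h w) w < ε

/-- the Effros property -/
def Eff (X : Type) [MetricSpace X] : Prop :=
  ∀ ε : ℝ, 0 < ε → ∃ δ : ℝ, 0 < δ ∧ ∀ x y : X, dist x y < δ → ∃ h : X ≃ₜ X, Small h ε ∧ h x = y

/-- proper subcontinua of `S` have empty interior in `S` -/
def Thin (S : Set X) : Prop :=
  ∀ J, Cont J → J ⊆ S → J ≠ S → ∀ V, IsOpen V → (V ∩ S).Nonempty → ¬ (V ∩ S ⊆ J)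

/-- proper terminal subcontinua of `S` miss a `σ`-ball centred in `S` -/
def Clean (S : Set X) (σ : ℝ) : Prop :=
  ∀ D, Term D → D ⊆ S → D ≠ S → ∃ a ∈ S, ∀ z ∈ D, σ ≤ dist a z

/-- meeting subcontinua are nested -/
def Nested (X : Type) [MetricSpace X] : Prop :=
  ∀ K L : Set X, Cont K → Cont L → (K ∩ L).Nonempty → K ⊆ L ∨ L ⊆ K

/-- not the union of two proper subcontinua -/
def Indec (X : Type) [MetricSpace X] : Prop :=
  ∀ K L : Set X, Cont K → Cont L → K ∪ L = univ → K = univ ∨ L = univ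

/-- trivial shape, as in the frozen statement -/
def Shape (X : Type) [MetricSpace X] : Prop :=
  ∃ e : X → (ℕ → unitInterval), IsEmbedding e ∧
    ∀ U : Set (ℕ → unitInterval), IsOpen U → Set.range e ⊆ U →
      ∃ V : Set (ℕ → unitInterval), IsOpen V ∧ Set.range e ⊆ V ∧
        ∃ h : V ⊆ U, (ContinuousMap.inclusion h).Nullhomotopic

/-- covering dimension at most one, as in the frozen statement -/
def DimOne (X : Type) [MetricSpace X] : Prop :=
  ∀ (k : ℕ) (U : Fin k → Set X), (∀ i, IsOpen (U i)) → (⋃ i, U i) = Set.univ →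
    ∃ V : Fin k → Set X, (∀ i, IsOpen (V i)) ∧ (∀ i, V i ⊆ U i) ∧ (⋃ i, V i) = Set.univ ∧
      ∀ x : X, Set.ncard {i : Fin k | x ∈ V i} ≤ 1 + 1

/-- walls: a small ball round `c` separates two points near `b` of a continuum through `c` -/
def Wall (S : Set X) : Prop :=
  ∀ b ∈ S, ∀ c ∈ S, ∀ θ : ℝ, 0 < θ → 4 * θ < dist b c → ∀ r : ℝ, 0 < r → r ≤ θ →
    ∃ (C : Set X) (x y : X) (A B : Set X), Cont C ∧ C ⊆ S ∧ c ∈ C ∧
      Disjoint C (ball b (θ / 2)) ∧ x ∈ C ∧ y ∈ C ∧ dist x b ≤ 2 * θ ∧ dist y b ≤ 2 * θ ∧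
      IsClosed A ∧ IsClosed B ∧ Disjoint A B ∧ A ∪ B = (ball c r)ᶜ ∧ x ∈ A ∧ y ∈ B

/-- closure of the union of the continua through `x` that miss `c` -/
def petal (x c : X) : Set X := closure (⋃₀ {L | Cont L ∧ x ∈ L ∧ c ∉ L})

/-- dead ends with a neck inside one piece -/
def DeadEnd (X : Type) [MetricSpace X] : Prop :=
  ∀ (ι κ : Type) [Fintype ι] [Fintype κ] [Nonempty ι] (W : ι → Set X) (P : κ → Set X)
    (A₀ : Set X), (∀ i, IsClosed (W i)) → (∀ j, IsClosed (P j)) →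
    (∀ i i', i ≠ i' → Disjoint (W i) (W i')) → (∀ j j', j ≠ j' → Disjoint (P j) (P j')) →
    (⋃ i, W i) ∪ (⋃ j, P j) = univ → A₀.Nonempty → A₀ ⊆ ⋃ j, P j →
    ∃ (i : ι) (j : κ) (Y : Set X),
      (∀ L : Set X, IsPreconnected L → (L ∩ Y).Nonempty → Disjoint L (W i) → L ⊆ Y) ∧
      (Y ∩ A₀).Nonempty ∧ Y ∩ A₀ ⊆ P j

/-- proper terminal subcontinua come close to any two points -/
def Petals (S : Set X) : Prop :=
  ∀ a ∈ S, ∀ b ∈ S, a ≠ b → ∀ θ : ℝ, 0 < θ →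
    ∃ D, Term D ∧ D ⊆ S ∧ D ≠ S ∧ (∃ x ∈ D, dist x b < θ) ∧ ∃ y ∈ D, dist y a < θ

end Pool.Agent.Lib.MP_11d477_gt.HI
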