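import Mathlib
import Pool.Agent.Lib.MP_d328cc_gt.Pairs
import Pool.Agent.Lib.MP_11d477_gt.HI.Defs

/-!
The Effros property of a homogeneous compact metric space: close points are moved to each other
by homeomorphisms close to the identity.
-/

set_option autoImplicit false

open Set Metric Filter Topology

namespace Pool.Agent.Lib.MP_11d477_gt.HI

open Pool.Agent.Lib.MP_d328cc_gt

variable {X : Type} [MetricSpace X] [CompactSpace X]

theorem eff_half_step {z z' : X} (g h : X ≃ₜ X) {η ε : ℝ} (hε : 0 < ε)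
    (hg : ∀ a b, dist a b < η → dist (g a) (g b) < ε) (hη : η ≤ ε)
    (hz : g.symm (h z') ∈ closure (Orb η z)) {W : Set X} (hW : W ∈ 𝓝 z') :
    ∃ g' : X ≃ₜ X, dist (g : C(X, X)) (g' : C(X, X)) ≤ ε ∧
      dist (g.symm : C(X, X)) (g'.symm : C(X, X)) ≤ ε ∧ h.symm (g' z) ∈ W := by
  have hc : Continuous fun w => h.symm (g w) := h.symm.continuous.comp g.continuous
  have hW' : (fun w => h.symm (g w)) ⁻¹' W ∈ 𝓝 (g.symm (h z')) := by
    apply hc.continuousAt.preimage_mem_nhds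
    simpa using hW
  obtain ⟨_, hw, ⟨v, hv, rfl⟩⟩ := mem_closure_iff_nhds.mp hz _ hW'
  refine ⟨v.trans g, ?_, ?_, hw⟩
  · rw [ContinuousMap.dist_le hε.le]
    intro w
    exact (hg w (v w) (by rw [dist_comm]; exact hv w)).le
  · rw [ContinuousMap.dist_le hε.le]
    intro w
    have := symm_small hv (g.symm w)
    rw [dist_comm] at this
    exact (this.trans_le hη).le

theorem closure_orb_mem (hom : ∀ x y : X, ∃ h : X ≃ₜ X, h x = y) {η : ℝ} (hη : 0 < η) (z : X) :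
    closure (Orb η z) ∈ 𝓝 z := by
  have := mem_interior_orb hom (half_pos hη) z
  rw [add_halves] at this
  exact mem_interior_iff_mem_nhds.mp this

/-- Effros property with homeomorphisms. -/
theorem effros (hom : ∀ x y : X, ∃ h : X ≃ₜ X, h x = y) : Eff X := by
  intro η hη
  have hp : ∀ n : ℕ, 0 < η / 3 / 2 / 2 ^ n := fun n => by positivity
  have hm : ∀ (g : X ≃ₜ X) (n : ℕ), ∃ δ > 0, δ ≤ η / 3 / 2 / 2 ^ n ∧
      ∀ a b, dist a b < δ → dist (g a) (g b) < η / 3 / 2 / 2 ^ n := by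
    intro g n
    obtain ⟨δ, hδ, h⟩ := modulus g (hp n)
    exact ⟨min δ (η / 3 / 2 / 2 ^ n), lt_min hδ (hp n), min_le_right _ _,
      fun a b hab => h a b (hab.trans_le (min_le_left _ _))⟩
  choose δ hδ0 hδ1 hδ2 using hm
  obtain ⟨d, hd, hw⟩ := weak_effros hom (hδ0 (Homeomorph.refl X) 0)
  refine ⟨d, hd, fun z z' hzz => ?_⟩
  have h0 := hw z z' hzz
  let S : ℕ → Type _ := fun n => {p : (X ≃ₜ X) × (X ≃ₜ X) //
    p.1.symm (p.2 z') ∈ closure (Orb (δ p.1 n) z)}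
  have step : ∀ (n : ℕ) (p : S n), ∃ q : S (n + 1),
      (dist (p.1.1 : C(X, X)) (q.1.1 : C(X, X)) ≤ η / 3 / 2 / 2 ^ n ∧
        dist (p.1.1.symm : C(X, X)) (q.1.1.symm : C(X, X)) ≤ η / 3 / 2 / 2 ^ n) ∧
      (dist (p.1.2 : C(X, X)) (q.1.2 : C(X, X)) ≤ η / 3 / 2 / 2 ^ n ∧
        dist (p.1.2.symm : C(X, X)) (q.1.2.symm : C(X, X)) ≤ η / 3 / 2 / 2 ^ n) ∧
      dist (q.1.2 z') (q.1.1 z) < 1 / ((n : ℝ) + 1) := by
    rintro n ⟨⟨g, h⟩, hgh⟩
    obtain ⟨g', a1, a2, a3⟩ := eff_half_step g h (hp n) (hδ2 g n) (hδ1 g n) hgh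
      (closure_orb_mem hom (hδ0 h n) z')
    have hb : g' ⁻¹' ball (g' z) (1 / ((n : ℝ) + 1)) ∈ 𝓝 z :=
      g'.continuous.continuousAt.preimage_mem_nhds (ball_mem_nhds _ (by positivity))
    obtain ⟨h', b1, b2, b3, b4⟩ := eff_half_step h g' (hp n) (hδ2 h n) (hδ1 h n) a3
      (inter_mem (closure_orb_mem hom (hδ0 g' (n + 1)) z) hb)
    refine ⟨⟨(g', h'), b3⟩, ⟨a1, a2⟩, ⟨b1, b2⟩, ?_⟩
    simpa using b4
  choose nxt hn1 hn2 hn3 using step
  let s : (n : ℕ) → S n := fun n =>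
    Nat.rec (motive := S) ⟨(Homeomorph.refl X, Homeomorph.refl X), h0⟩ (fun n e => nxt n e) n
  obtain ⟨G, hG, hG0⟩ := homeo_limit (fun n => (s n).1.1) (fun n => (hn1 n (s n)).1)
    (fun n => (hn1 n (s n)).2)
  obtain ⟨H, hH, hH0⟩ := homeo_limit (fun n => (s n).1.2) (fun n => (hn2 n (s n)).1)
    (fun n => (hn2 n (s n)).2)
  have lim : ∀ {u : ℕ → X ≃ₜ X} {U : X ≃ₜ X},
      Tendsto (fun n => (u n : C(X, X))) atTop (𝓝 (U : C(X, X))) → ∀ w,
      Tendsto (fun n => u (n + 1) w) atTop (𝓝 (U w)) := fun {u U} hu x =>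
    ((continuous_eval_const x).tendsto (U : C(X, X))).comp (hu.comp (tendsto_add_atTop_nat 1))
  have e : H z' = G z := by
    have t1 := (lim hH z').dist (lim hG z)
    have t2 : Tendsto (fun n => dist ((s (n + 1)).1.2 z') ((s (n + 1)).1.1 z)) atTop
        (𝓝 0) := squeeze_zero (fun _ => dist_nonneg) (fun n => (hn3 n (s n)).le)
        tendsto_one_div_add_atTop_nhds_zero_nat
    exact dist_eq_zero.mp (tendsto_nhds_unique t1 t2)
  have sm : ∀ {U : X ≃ₜ X}, dist ((Homeomorph.refl X : X ≃ₜ X) : C(X, X)) (U : C(X, X)) ≤ η / 3 →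
      ∀ w, dist (U w) w < η / 2 := by
    intro U hU w
    have := (ContinuousMap.dist_apply_le_dist (f := ((Homeomorph.refl X : X ≃ₜ X) : C(X, X)))
      (g := (U : C(X, X))) w).trans hU
    rw [dist_comm]
    have h3 : η / 3 < η / 2 := by linarith
    exact lt_of_le_of_lt this h3
  refine ⟨G.trans H.symm, fun w => ?_, ?_⟩
  · have a1 := symm_small (sm hH0) (G w)
    have a2 := sm hG0 w
    have := dist_triangle (H.symm (G w)) (G w) w
    show dist (H.symm (G w)) w < η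
    linarith
  · show H.symm (G z) = z'
    rw [← e]
    simp

end Pool.Agent.Lib.MP_11d477_gt.HI
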