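import Pool.Agent.Lib.MP_11d477_gt.HI.Basic

/-!
Step 1: a clean proper terminal subcontinuum is thin (the fibre lemma).
-/

set_option autoImplicit false

open Set Metric Topology

namespace Pool.Agent.Lib.MP_11d477_gt.HI

variable {X : Type} [MetricSpace X] [CompactSpace X]

/-- a small homeomorphism that moves a clean terminal continuum into itself fixes it -/
theorem clean_image_of_subset {S : Set X} {σ ε : ℝ} (hS : Term S) (hc : Clean S σ)
    {g : X ≃ₜ X} (hg : Small g ε) (hε : ε ≤ σ) (h : g '' S ⊆ S) : g '' S = S := by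
  by_contra hne
  obtain ⟨a, ha, hz⟩ := hc _ (hS.image g) h hne
  have h1 := hz (g a) ⟨a, ha, rfl⟩
  have h2 := hg a
  rw [dist_comm] at h2
  linarith

/-- a small image of a clean terminal continuum is equal to it or disjoint from it -/
theorem clean_image_eq {S : Set X} {σ ε : ℝ} (hS : Term S) (hc : Clean S σ)
    {g : X ≃ₜ X} (hg : Small g ε) (hε : ε ≤ σ) (hm : (g '' S ∩ S).Nonempty) : g '' S = S := by
  rcases hS.2 _ (hS.1.image g) hm with h | h
  · exact clean_image_of_subset hS hc hg hε h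
  · have h1 : g.symm '' S ⊆ S := by
      rintro _ ⟨s, hs, rfl⟩
      obtain ⟨t, ht, rfl⟩ := h hs
      rwa [g.symm_apply_apply]
    have h2 := clean_image_of_subset hS hc hg.symm hε h1
    refine Subset.antisymm ?_ h
    rintro _ ⟨s, hs, rfl⟩
    rw [← h2] at hs
    obtain ⟨t, ht, rfl⟩ := hs
    rwa [g.apply_symm_apply]

theorem thin_of_clean [ConnectedSpace X] (eff : Eff X) {S : Set X} {σ : ℝ} (hσ : 0 < σ)
    (hS : Term S) (hc : Clean S σ) (hne : S ≠ univ) : Thin S := by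
  intro J hJ hJS hJne V hV hVS hsub
  obtain ⟨z, hzV, hzS⟩ := hVS
  have hzJ : z ∈ J := hsub ⟨hzV, hzS⟩
  obtain ⟨v, hvS, hvJ⟩ : ∃ v ∈ S, v ∉ J := by
    by_contra h
    push Not at h
    exact hJne (Subset.antisymm hJS h)
  obtain ⟨ρ₁, hρ₁, hb₁⟩ := Metric.isOpen_iff.mp hV z hzV
  obtain ⟨ρ₂, hρ₂, hb₂⟩ := Metric.isOpen_iff.mp hJ.1.isClosed.isOpen_compl v hvJ
  obtain ⟨e, he, he₁, he₂, he₃⟩ : ∃ e : ℝ, 0 < e ∧ 4 * e ≤ ρ₁ ∧ 4 * e ≤ ρ₂ ∧ 4 * e ≤ σ := by
    refine ⟨min (min ρ₁ ρ₂) σ / 4, by positivity, ?_, ?_, ?_⟩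
    · have := (min_le_left (min ρ₁ ρ₂) σ).trans (min_le_left ρ₁ ρ₂)
      linarith
    · have := (min_le_left (min ρ₁ ρ₂) σ).trans (min_le_right ρ₁ ρ₂)
      linarith
    · have := min_le_right (min ρ₁ ρ₂) σ
      linarith
  obtain ⟨δ, hδ, hmove⟩ := eff e he
  obtain ⟨M, hM, hSM, hMS, hMU, -⟩ := bump (S := univ) (K := S) (U := thickening δ S)
    ⟨isCompact_univ, isConnected_univ⟩ hS.1 (subset_univ _) hne isOpen_thickening
    (self_subset_thickening hδ S)
  have hg : ∀ m : X, ∃ g : X ≃ₜ X, Small g e ∧ (m ∈ M → m ∈ g '' S) := by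
    intro m
    by_cases hm : m ∈ M
    · obtain ⟨s, hs, hd⟩ := mem_thickening_iff.mp (hMU hm)
      rw [dist_comm] at hd
      obtain ⟨g, hg, hgs⟩ := hmove s m hd
      exact ⟨g, hg, fun _ => ⟨s, hs, hgs⟩⟩
    · exact ⟨Homeomorph.refl X, fun w => by simpa using he, fun h => absurd h hm⟩
  choose g hgs hgm using hg
  have hQ : IsClosed (ball v (2 * e))ᶜ := isOpen_ball.isClosed_compl
  have hfar : ∀ y ∈ J, 4 * e ≤ dist y v := by
    intro y hy
    by_contra h
    push Not at h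
    exact hb₂ (mem_ball.mpr (lt_of_lt_of_le h he₂)) hy
  have hJQ : ∀ m : X, g m '' J ⊆ (ball v (2 * e))ᶜ := by
    rintro m _ ⟨y, hy, rfl⟩ hb
    have h1 := hfar y hy
    have h2 := hgs m y
    have h3 := mem_ball.mp hb
    have h4 := dist_triangle_left y v (g m y)
    linarith
  have hzQ : z ∈ (ball v (2 * e))ᶜ := by
    intro hb
    have h1 := hfar z hzJ
    have h3 := mem_ball.mp hb
    linarith
  obtain ⟨m₁, hm₁, hm₁S⟩ : ∃ m ∈ M, m ∉ S := by
    by_contra h
    push Not at h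
    exact hMS (Subset.antisymm h hSM)
  have hout : g m₁ z ∉ S := by
    intro h
    have := clean_image_eq hS hc (hgs m₁) (by linarith) ⟨_, ⟨z, hzS, rfl⟩, h⟩
    exact hm₁S (this ▸ hgm m₁ hm₁)
  have hcomp : connectedComponentIn (ball v (2 * e))ᶜ z ⊆ S :=
    hS.sub (cont_comp hQ hzQ) ⟨z, mem_connectedComponentIn hzQ, hzS⟩ hvS
      (fun h => connectedComponentIn_subset _ _ h (mem_ball_self (by linarith)))
  obtain ⟨A, B, hA, hB, hAB, hun, hzA, hmB⟩ := sep (P := {z}) (P' := {g m₁ z}) hQ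
    isClosed_singleton isClosed_singleton (singleton_subset_iff.mpr hzQ)
    (singleton_subset_iff.mpr (hJQ m₁ ⟨z, hzJ, rfl⟩))
    (by
      rintro _ rfl _ rfl h
      exact hout (hcomp h))
  have hzA : z ∈ A := hzA rfl
  have hmB : g m₁ z ∈ B := hmB rfl
  have loc : ∀ A B : Set X, IsClosed A → IsClosed B → Disjoint A B →
      A ∪ B = (ball v (2 * e))ᶜ → ∀ m ∈ M, g m z ∈ A →
      m ∈ interior {m' | m' ∈ M → g m' z ∈ A} := by
    intro A B hA hB hAB hun m hm hmA
    obtain ⟨r, hr, hbr⟩ := Metric.isOpen_iff.mp hB.isOpen_compl (g m z)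
      (disjoint_left.mp hAB hmA)
    obtain ⟨η, hη, hk⟩ := eff (min r e) (lt_min hr he)
    refine mem_interior_iff_mem_nhds.mpr (Filter.mem_of_superset (ball_mem_nhds m hη) ?_)
    intro m' hm' hm'M
    obtain ⟨k, hks, hkm⟩ := hk m m' (by rw [dist_comm]; exact mem_ball.mp hm')
    have hφ : Small (((g m).trans k).trans (g m').symm) (e + min r e + e) :=
      ((hgs m).trans hks).trans (hgs m').symm
    have hmin := min_le_right r e
    obtain ⟨s, hs, hsm⟩ := hgm m hm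
    obtain ⟨s', hs', hsm'⟩ := hgm m' hm'M
    have hφs : (((g m).trans k).trans (g m').symm) s = s' := by
      show (g m').symm (k (g m s)) = s'
      rw [hsm, hkm, Homeomorph.symm_apply_eq]
      exact hsm'.symm
    have heq := clean_image_eq hS hc hφ (by linarith) ⟨s', ⟨s, hs, hφs⟩, hs'⟩
    have h1 : (((g m).trans k).trans (g m').symm) z ∈ S := heq ▸ mem_image_of_mem _ hzS
    have h2 : (((g m).trans k).trans (g m').symm) z ∈ J :=
      hsub ⟨hb₁ (mem_ball.mpr (by have := hφ z; linarith)), h1⟩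
    have h3 : k (g m z) ∈ g m' '' J := ⟨_, h2, (g m').apply_symm_apply _⟩
    have h4 : k (g m z) ∈ A := by
      have h5 : k (g m z) ∈ A ∪ B := hun ▸ hJQ m' h3
      rcases h5 with h5 | h5
      · exact h5
      · exact absurd h5 (hbr (mem_ball.mpr (lt_of_lt_of_le (hks _) (min_le_left _ _))))
    exact side (hJ.image (g m')).2.isPreconnected hA hB hAB (hun ▸ hJQ m') ⟨_, h3, h4⟩
      ⟨z, hzJ, rfl⟩
  have hgz : g z z ∈ A := by
    have h1 := clean_image_eq hS hc (hgs z) (by linarith) ⟨z, hgm z (hSM hzS), hzS⟩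
    have h2 : g z z ∈ S := h1 ▸ mem_image_of_mem _ hzS
    have h3 : g z z ∈ J := hsub ⟨hb₁ (mem_ball.mpr (by have := hgs z z; linarith)), h2⟩
    have h4 : J ⊆ A ∪ B := by
      rw [hun]
      intro y hy hb
      have h5 := hfar y hy
      have h6 := mem_ball.mp hb
      linarith
    exact side hJ.2.isPreconnected hA hB hAB h4 ⟨z, hzJ, hzA⟩ h3
  obtain ⟨m, hm, hmu, hmv⟩ := hM.2.isPreconnected _ _ isOpen_interior isOpen_interior
    (fun m hm => by
      have h5 : g m z ∈ A ∪ B := hun ▸ hJQ m ⟨z, hzJ, rfl⟩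
      rcases h5 with h5 | h5
      · exact Or.inl (loc A B hA hB hAB hun m hm h5)
      · exact Or.inr (loc B A hB hA hAB.symm (union_comm A B ▸ hun) m hm h5))
    ⟨z, hSM hzS, loc A B hA hB hAB hun z (hSM hzS) hgz⟩
    ⟨m₁, hm₁, loc B A hB hA hAB.symm (union_comm A B ▸ hun) m₁ hm₁ hmB⟩
  exact disjoint_left.mp hAB (interior_subset hmu hm) (interior_subset hmv hm)

end Pool.Agent.Lib.MP_11d477_gt.HI
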