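import Pool.Agent.Lib.MP_11d477_gt.HI.Basic

/-!
Steps 3 and 4: a continuum with an outlet point is terminal; petals are terminal.
-/

set_option autoImplicit false

open Set Metric Topology

namespace Pool.Agent.Lib.MP_11d477_gt.HI

variable {X : Type} [MetricSpace X] [CompactSpace X]

omit [CompactSpace X] in
/-- a point outside a closed set is at positive distance from it -/
theorem exists_far {F : Set X} (hF : IsClosed F) {p : X} (hp : p ∉ F) :
    ∃ e : ℝ, 0 < e ∧ ∀ z ∈ F, e ≤ dist z p := by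
  obtain ⟨e, he, hb⟩ := Metric.isOpen_iff.1 hF.isOpen_compl p hp
  refine ⟨e, he, fun z hz => ?_⟩
  by_contra h
  exact hb (mem_ball.2 (not_le.1 h)) hz

/-- Step 3: a continuum with an outlet point `w` is terminal. -/
theorem term_of_outlet (eff : Eff X) {S D : Set X} (hw : Wall S) (hD : Cont D) (hDS : D ⊆ S)
    {w : X} (hwS : w ∈ S) (out : ∀ L, Cont L → (L ∩ D).Nonempty → w ∉ L → L ⊆ D) : Term D := by
  refine ⟨hD, fun L hL hLD => ?_⟩
  by_cases hwL : w ∈ L
  swap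
  · exact Or.inl (out L hL hLD hwL)
  by_contra hcon
  rw [not_or] at hcon
  obtain ⟨v, hvL, hvD⟩ := not_subset.1 hcon.1
  obtain ⟨p, hpD, hpL⟩ := not_subset.1 hcon.2
  obtain ⟨e1, he1, h1⟩ := exists_far hD.1.isClosed hvD
  obtain ⟨e2, he2, h2⟩ := exists_far hL.1.isClosed hpL
  obtain ⟨δ, hδ, hδe⟩ := eff (min e1 (e2 / 2)) (lt_min he1 (by linarith))
  have hθ : 0 < min (δ / 4) (e2 / 8) := lt_min (by linarith) (by linarith)
  have hθ1 : min (δ / 4) (e2 / 8) ≤ δ / 4 := min_le_left _ _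
  have hθ2 : min (δ / 4) (e2 / 8) ≤ e2 / 8 := min_le_right _ _
  set θ := min (δ / 4) (e2 / 8) with hθdef
  have hwp : e2 ≤ dist w p := h2 w hwL
  obtain ⟨C, x, y, A, B, hC, -, hpC, hCw, hxC, hyC, hxw, hyw, hA, hB, hAB, hU, hxA, hyB⟩ :=
    hw w hwS p (hDS hpD) θ hθ (by linarith) θ hθ le_rfl
  have hwC : w ∉ C := fun h => disjoint_left.1 hCw h (mem_ball_self (by linarith))
  have hCD : C ⊆ D := out C hC ⟨p, hpC, hpD⟩ hwC
  have key : ∀ (A B : Set X) (x : X), IsClosed A → IsClosed B → Disjoint A B →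
      A ∪ B = (ball p θ)ᶜ → x ∈ A → x ∈ C → dist x w ≤ 2 * θ → w ∈ B → False := by
    intro A B x hA hB hAB hU hxA hxC hxw hwB
    obtain ⟨h, hs, hh⟩ := hδe w x (by rw [dist_comm]; linarith)
    have hhL : Cont (h '' L) := hL.image h
    have hxL : x ∈ h '' L := ⟨w, hwL, hh⟩
    have hsub : h '' L ⊆ A ∪ B := by
      rintro _ ⟨l, hl, rfl⟩
      rw [hU]
      intro hb
      have a1 := h2 l hl
      have a2 : dist (h l) l < e2 / 2 := (hs l).trans_le (min_le_right _ _)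
      have a3 : dist (h l) p < θ := mem_ball.1 hb
      have a4 := dist_triangle_left l p (h l)
      linarith
    have hLA : h '' L ⊆ A := side hhL.2.isPreconnected hA hB hAB hsub ⟨x, hxL, hxA⟩
    have hwn : w ∉ h '' L := fun hm => disjoint_left.1 hAB (hLA hm) hwB
    have hLD' : h '' L ⊆ D := out _ hhL ⟨x, hxL, hCD hxC⟩ hwn
    have b1 := h1 (h v) (hLD' ⟨v, hvL, rfl⟩)
    have b2 : dist (h v) v < e1 := (hs v).trans_le (min_le_left _ _)
    linarith
  have hwAB : w ∈ A ∪ B := by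
    rw [hU]
    intro hb
    have := mem_ball.1 hb
    linarith
  rcases hwAB with hwA | hwB
  · exact key B A y hB hA hAB.symm (by rw [union_comm]; exact hU) hyB hyC hyw hwA
  · exact key A B x hA hB hAB hU hxA hxC hxw hwB

/-- A petal is a continuum. -/
theorem cont_petal {x c : X} (hne : x ≠ c) : Cont (petal x c) := by
  refine ⟨isClosed_closure.isCompact, IsConnected.closure ⟨?_, ?_⟩⟩
  · exact ⟨x, {x}, ⟨cont_singleton x, rfl, fun h => hne (mem_singleton_iff.1 h).symm⟩, rfl⟩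
  · exact isPreconnected_sUnion x _ (fun L hL => hL.2.1) fun L hL => hL.1.2.isPreconnected

/-- Step 4: `c` is an outlet point of the petal. -/
theorem petal_outlet (eff : Eff X) {x c : X} {L : Set X} (hL : Cont L)
    (hm : (L ∩ petal x c).Nonempty) (hc : c ∉ L) : L ⊆ petal x c := by
  obtain ⟨z, hzL, hz⟩ := hm
  obtain ⟨e, he, hfar⟩ := exists_far hL.1.isClosed hc
  intro y hy
  refine Metric.mem_closure_iff.2 fun ε hε => ?_
  obtain ⟨δ, hδ, hδe⟩ := eff (min ε e) (lt_min hε he)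
  obtain ⟨z', ⟨L', ⟨hL', hxL', hcL'⟩, hz'⟩, hzz⟩ := Metric.mem_closure_iff.1 hz δ hδ
  obtain ⟨h, hs, hh⟩ := hδe z z' hzz
  have hch : c ∉ h '' L := by
    rintro ⟨l, hl, hlc⟩
    have a1 := hfar l hl
    have a2 : dist (h l) l < e := (hs l).trans_le (min_le_right _ _)
    rw [hlc, dist_comm] at a2
    linarith
  refine ⟨h y, ⟨h '' L ∪ L', ⟨(hL.image h).union hL' ⟨z', ⟨z, hzL, hh⟩, hz'⟩, Or.inr hxL',
    fun hm => hm.elim hch hcL'⟩, Or.inl ⟨y, hy, rfl⟩⟩, ?_⟩
  rw [dist_comm]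
  exact (hs y).trans_le (min_le_left _ _)

theorem petal_term (eff : Eff X) {S : Set X} (hS : Term S) (hw : Wall S) {x c : X} (hx : x ∈ S)
    (hc : c ∈ S) (hne : x ≠ c) : Term (petal x c) ∧ petal x c ⊆ S := by
  have hsub : petal x c ⊆ S := by
    refine closure_minimal ?_ hS.1.1.isClosed
    rintro z ⟨L, ⟨hL, hxL, hcL⟩, hz⟩
    exact hS.sub hL ⟨x, hxL, hx⟩ hc hcL hz
  exact ⟨term_of_outlet eff hw (cont_petal hne) hsub hc
    fun L hL hm hcL => petal_outlet eff hL hm hcL, hsub⟩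

end Pool.Agent.Lib.MP_11d477_gt.HI
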