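import Pool.Agent.Lib.MP_11d477_gt.HI.Basic

/-!
A dead end with a fixed neck ball gives a proper terminal subcontinuum between two given points.
-/

set_option autoImplicit false
set_option linter.unusedSectionVars false

open Set Metric Topology Filter

namespace Pool.Agent.Lib.MP_11d477_gt.HI

variable {X : Type} [MetricSpace X] [CompactSpace X]

/-- the dead end property for one pair of two-piece partitions -/
def Good (E A₀ E₂ Q₁ : Set X) (c : X) (ρ : ℝ) : Prop :=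
  ∃ Y : Set X, (∀ L : Set X, IsPreconnected L → (L ∩ Y).Nonempty → Disjoint L (E ∩ E₂) → L ⊆ Y) ∧
    (∃ c' ∈ Y ∩ A₀, dist c' c < ρ) ∧ Y ∩ A₀ ⊆ Q₁

theorem limDead (hd : DeadEnd X) {E Q A₀ : Set X} (hE : IsClosed E) (hQ : IsClosed Q)
    (hEQ : E ∪ Q = univ) (hEn : E.Nonempty) (hA : IsClosed A₀) (hAn : A₀.Nonempty)
    (hAQ : A₀ ⊆ Q) :
    ∃ c ∈ A₀, ∃ e ∈ E, ∀ (E₁ E₂ Q₁ Q₂ : Set X) (ρ : ℝ), (0 < ρ ∧ IsClosed E₁ ∧ IsClosed E₂ ∧
      Disjoint E₁ E₂ ∧ E ⊆ E₁ ∪ E₂ ∧ e ∈ E₂ ∧ IsClosed Q₁ ∧ IsClosed Q₂ ∧ Disjoint Q₁ Q₂ ∧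
      Q ⊆ Q₁ ∪ Q₂ ∧ c ∈ Q₁) → Good E A₀ E₂ Q₁ c ρ := by
  classical
  by_contra hcon
  have hbad : ∀ p : (A₀ ×ˢ E : Set (X × X)), ∃ (E₁ E₂ Q₁ Q₂ : Set X) (ρ : ℝ),
      (0 < ρ ∧ IsClosed E₁ ∧ IsClosed E₂ ∧
      Disjoint E₁ E₂ ∧ E ⊆ E₁ ∪ E₂ ∧ p.1.2 ∈ E₂ ∧ IsClosed Q₁ ∧ IsClosed Q₂ ∧ Disjoint Q₁ Q₂ ∧
      Q ⊆ Q₁ ∪ Q₂ ∧ p.1.1 ∈ Q₁) ∧ ¬ Good E A₀ E₂ Q₁ p.1.1 ρ := by
    intro p
    by_contra h
    refine hcon ⟨p.1.1, p.2.1, p.1.2, p.2.2, fun E₁ E₂ Q₁ Q₂ ρ hh => ?_⟩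
    by_contra h'
    exact h ⟨E₁, E₂, Q₁, Q₂, ρ, hh, h'⟩
  choose E₁ E₂ Q₁ Q₂ ρ hp hng using hbad
  obtain ⟨t, ht⟩ := (hA.isCompact.prod hE.isCompact).elim_nhds_subcover'
    (fun p hp => (ball p.1 (ρ ⟨p, hp⟩) ∩ (Q₂ ⟨p, hp⟩)ᶜ) ×ˢ (E₁ ⟨p, hp⟩)ᶜ) (by
      intro p hpm
      obtain ⟨h0, h1, _, h3, _, h5, _, h7, h8, _, h10⟩ := hp ⟨p, hpm⟩
      refine ((isOpen_ball.inter h7.isOpen_compl).prod h1.isOpen_compl).mem_nhds
        ⟨⟨mem_ball_self h0, Set.disjoint_left.mp h8 h10⟩, Set.disjoint_right.mp h3 h5⟩)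
  let W : (t → Bool) → Set X := fun f => E ∩ ⋂ s : t, if f s then E₂ s.1 else E₁ s.1
  let P : (t → Bool) → Set X := fun f => Q ∩ ⋂ s : t, if f s then Q₁ s.1 else Q₂ s.1
  have hWE : ∀ z ∈ E, ∃ f, z ∈ W f := by
    intro z hz
    refine ⟨fun s => decide (z ∈ E₂ s.1), hz, mem_iInter.mpr fun s => ?_⟩
    by_cases h : z ∈ E₂ s.1
    · simp [h]
    · simpa [h] using ((hp s.1).2.2.2.2.1 hz).resolve_right h
  have hPQ : ∀ z ∈ Q, ∃ f, z ∈ P f := by
    intro z hz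
    refine ⟨fun s => decide (z ∈ Q₁ s.1), hz, mem_iInter.mpr fun s => ?_⟩
    by_cases h : z ∈ Q₁ s.1
    · simp [h]
    · simpa [h] using ((hp s.1).2.2.2.2.2.2.2.2.2.1 hz).resolve_left h
  obtain ⟨i, j, Y, hY, ⟨c', hc'⟩, hYP⟩ := hd (t → Bool) (t → Bool) W P A₀
    (fun f => hE.inter (isClosed_iInter fun s => by
      split_ifs
      exacts [(hp s.1).2.2.1, (hp s.1).2.1]))
    (fun f => hQ.inter (isClosed_iInter fun s => by
      split_ifs
      exacts [(hp s.1).2.2.2.2.2.2.1, (hp s.1).2.2.2.2.2.2.2.1]))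
    (by
      intro f f' hne
      obtain ⟨s, hs⟩ := Function.ne_iff.mp hne
      refine Set.disjoint_left.mpr fun z hz hz' => ?_
      have h1 := mem_iInter.mp hz.2 s
      have h2 := mem_iInter.mp hz'.2 s
      have h3 := (hp s.1).2.2.2.1
      cases hf : f s <;> cases hf' : f' s <;> simp [hf, hf'] at hs h1 h2
      · exact Set.disjoint_left.mp h3 h1 h2
      · exact Set.disjoint_left.mp h3 h2 h1)
    (by
      intro f f' hne
      obtain ⟨s, hs⟩ := Function.ne_iff.mp hne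
      refine Set.disjoint_left.mpr fun z hz hz' => ?_
      have h1 := mem_iInter.mp hz.2 s
      have h2 := mem_iInter.mp hz'.2 s
      have h3 := (hp s.1).2.2.2.2.2.2.2.2.1
      cases hf : f s <;> cases hf' : f' s <;> simp [hf, hf'] at hs h1 h2
      · exact Set.disjoint_left.mp h3 h2 h1
      · exact Set.disjoint_left.mp h3 h1 h2)
    (by
      refine eq_univ_of_forall fun z => ?_
      have : z ∈ E ∪ Q := hEQ ▸ mem_univ z
      exact this.elim (fun h => Or.inl (mem_iUnion.mpr (hWE z h)))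
        fun h => Or.inr (mem_iUnion.mpr (hPQ z h)))
    hAn (fun z hz => mem_iUnion.mpr (hPQ z (hAQ hz)))
  obtain ⟨e', he', hW⟩ : ∃ e' ∈ E, ∀ s : t, e' ∉ E₁ s.1 → W i ⊆ E ∩ E₂ s.1 := by
    rcases (W i).eq_empty_or_nonempty with h | ⟨e', he'⟩
    · obtain ⟨e', he'⟩ := hEn
      exact ⟨e', he', fun s _ => h ▸ empty_subset _⟩
    · refine ⟨e', he'.1, fun s hs z hz => ⟨hz.1, ?_⟩⟩
      have h1 := mem_iInter.mp he'.2 s
      have h2 := mem_iInter.mp hz.2 s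
      cases hf : i s <;> simp [hf] at h1 h2
      · exact absurd h1 hs
      · exact h2
  obtain ⟨s, hs, hm⟩ := mem_iUnion₂.mp (ht (show (c', e') ∈ A₀ ×ˢ E from ⟨hc'.2, he'⟩))
  refine hng s ⟨Y, fun L hL hLY hdis => hY L hL hLY (hdis.mono_right (hW ⟨s, hs⟩ hm.2)),
    ⟨c', hc', hm.1.1⟩, fun z hz => ?_⟩
  have h1 := mem_iInter.mp (hYP hc').2 ⟨s, hs⟩
  have h2 := mem_iInter.mp (hYP hz).2 ⟨s, hs⟩
  cases hf : j ⟨s, hs⟩ <;> simp [hf] at h1 h2
  · exact absurd h1 hm.1.2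
  · exact h2

theorem petals (eff : Eff X) {S : Set X} (hS : Term S) (ht : Thin S) (hw : Wall S)
    (hpt : ∀ x ∈ S, ∀ c ∈ S, x ≠ c → Term (petal x c) ∧ petal x c ⊆ S) (hd : DeadEnd X) :
    Petals S := by
  intro a ha b hb hab θ₀ hθ₀
  have hdab : 0 < dist a b := dist_pos.mpr hab
  obtain ⟨θ, hθ, hθ1, hθ2⟩ : ∃ θ : ℝ, 0 < θ ∧ θ ≤ θ₀ / 3 ∧ θ ≤ dist a b / 10 :=
    ⟨min (θ₀ / 3) (dist a b / 10), lt_min (by positivity) (by positivity), min_le_left _ _,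
      min_le_right _ _⟩
  have hSc : IsClosed S := hS.1.1.isClosed
  have hQ : IsClosed (ball b (θ / 4))ᶜ := isOpen_ball.isClosed_compl
  have near : ∀ z, dist z a ≤ θ → 9 * θ ≤ dist z b := by
    intro z hz
    have := dist_triangle a z b
    rw [dist_comm a z] at this
    linarith
  obtain ⟨c, hc, e, he, hlim⟩ := limDead hd (E := closedBall b (θ / 4)) (Q := (ball b (θ / 4))ᶜ)
    (A₀ := S ∩ closedBall a θ) isClosed_closedBall hQ
    (eq_univ_of_forall fun z => (em (z ∈ ball b (θ / 4))).elim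
      (fun h => Or.inl (ball_subset_closedBall h)) Or.inr)
    ⟨b, mem_closedBall_self (by positivity)⟩ (hSc.inter isClosed_closedBall)
    ⟨a, ha, mem_closedBall_self hθ.le⟩ (by
      intro z hz hzb
      have h1 := near z hz.2
      have h2 : dist z b < θ / 4 := hzb
      linarith)
  have hcb : 9 * θ ≤ dist c b := near c hc.2
  have far : ∀ z, dist z b ≤ 3 * θ → 6 * θ ≤ dist z c := by
    intro z hz
    have := dist_triangle c z b
    rw [dist_comm c z] at this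
    linarith
  have hr0 : ∀ n : ℕ, 0 < θ / ((n : ℝ) + 1) := fun n => by positivity
  have hr1 : ∀ n : ℕ, θ / ((n : ℝ) + 1) ≤ θ := fun n =>
    div_le_self hθ.le (by linarith [Nat.cast_nonneg (α := ℝ) n])
  have hwall : ∀ n : ℕ, ∃ (C : Set X) (x : X) (A B : Set X), Cont C ∧ C ⊆ S ∧ c ∈ C ∧
      Disjoint C (ball b (θ / 2)) ∧ x ∈ C ∧ dist x b ≤ 2 * θ ∧ IsClosed A ∧ IsClosed B ∧
      Disjoint A B ∧ A ∪ B = (ball c (θ / ((n : ℝ) + 1)))ᶜ ∧ x ∈ A ∧ e ∈ B := by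
    intro n
    obtain ⟨C, x, y, A, B, h1, h2, h3, h4, h5, h6, h7, h8, h9, h10, h11, h12, h13, h14⟩ :=
      hw b hb c hc.1 θ hθ (by rw [dist_comm]; linarith) _ (hr0 n) (hr1 n)
    have heAB : e ∈ A ∪ B := by
      rw [h12]
      intro h
      have h' : dist e c < θ / ((n : ℝ) + 1) := h
      have h'' : dist e b ≤ θ / 4 := he
      linarith [far e (by linarith), hr1 n]
    rcases heAB with h | h
    · exact ⟨C, y, B, A, h1, h2, h3, h4, h6, h8, h10, h9, h11.symm, by rw [union_comm, h12],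
        h14, h⟩
    · exact ⟨C, x, A, B, h1, h2, h3, h4, h5, h7, h9, h10, h11, h12, h13, h⟩
  choose C ξ A B hC hCS hcC hCb hξC hξb hA hB hAB hun hξA heB using hwall
  obtain ⟨x, hx, φ, hφ, hlimx⟩ := (hSc.inter isClosed_closedBall).isCompact.tendsto_subseq
    (s := S ∩ closedBall b (2 * θ)) (x := ξ) (fun n => ⟨hCS n (hξC n), hξb n⟩)
  have hxb : dist x b ≤ 2 * θ := hx.2
  have hclu : ∀ η : ℝ, 0 < η → ∃ n : ℕ, dist (ξ n) x < η ∧ θ / ((n : ℝ) + 1) < η := by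
    intro η hη
    have h1 : ∀ᶠ n in atTop, dist (ξ (φ n)) x < η := Metric.tendsto_nhds.mp hlimx η hη
    have h2 : Tendsto (fun n : ℕ => θ / ((n : ℝ) + 1)) atTop (𝓝 0) :=
      tendsto_const_nhds.div_atTop (tendsto_natCast_atTop_atTop.atTop_add tendsto_const_nhds)
    have h3 : ∀ᶠ n in atTop, θ / ((φ n : ℝ) + 1) < η :=
      (h2.comp hφ.tendsto_atTop).eventually (gt_mem_nhds hη)
    obtain ⟨n, h4, h5⟩ := (h1.and h3).exists
    exact ⟨φ n, h4, h5⟩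
  have hcQ : c ∈ (ball b (θ / 4))ᶜ := by
    intro h
    have h' : dist c b < θ / 4 := h
    linarith
  have claim : ∀ L, Cont L → x ∈ L → c ∉ L → ∀ u ∈ L, dist u a < θ →
      u ∈ connectedComponentIn (ball b (θ / 4))ᶜ c := by
    intro L hL hxL hcL u huL hua
    by_contra hu
    have huQ : u ∈ (ball b (θ / 4))ᶜ := by
      intro h
      have h' : dist u b < θ / 4 := h
      linarith [near u hua.le]
    obtain ⟨Q₁, Q₂, hQ1, hQ2, hQd, hQu, hc1, hu2⟩ := sep (P := {c}) (P' := {u}) hQ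
      isClosed_singleton isClosed_singleton (singleton_subset_iff.mpr hcQ)
      (singleton_subset_iff.mpr huQ) (by rintro _ rfl _ rfl; exact hu)
    obtain ⟨β, hβ, hβL⟩ := Metric.isOpen_iff.mp hL.1.isClosed.isOpen_compl c hcL
    obtain ⟨γ, hγ, hγQ⟩ := Metric.isOpen_iff.mp hQ1.isOpen_compl u
      (Set.disjoint_right.mp hQd (hu2 rfl))
    obtain ⟨ε, hε, hε1, hε2, hε3⟩ : ∃ ε : ℝ, 0 < ε ∧ ε ≤ β / 2 ∧ ε ≤ γ ∧ ε ≤ θ - dist u a :=
      ⟨min (β / 2) (min γ (θ - dist u a)), lt_min (by positivity) (lt_min hγ (by linarith)),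
        min_le_left _ _, (min_le_right _ _).trans (min_le_left _ _),
        (min_le_right _ _).trans (min_le_right _ _)⟩
    obtain ⟨δ, hδ, heff⟩ := eff ε hε
    obtain ⟨n, hn1, hn2⟩ := hclu (min (δ / 2) (β / 2)) (lt_min (by positivity) (by positivity))
    have hn3 := hn1.trans_le (min_le_left _ _)
    have hn4 := hn2.trans_le (min_le_right _ _)
    obtain ⟨γ₂, hγ₂, hγB⟩ := Metric.isOpen_iff.mp (hB n).isOpen_compl (ξ n)
      (Set.disjoint_left.mp (hAB n) (hξA n))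
    obtain ⟨ε₂, hε₂, hf1, hf2, hf3⟩ : ∃ ε₂ : ℝ, 0 < ε₂ ∧ ε₂ ≤ γ₂ ∧ ε₂ ≤ δ / 2 ∧ ε₂ ≤ θ / 4 :=
      ⟨min γ₂ (min (δ / 2) (θ / 4)), lt_min hγ₂ (lt_min (by positivity) (by positivity)),
        min_le_left _ _, (min_le_right _ _).trans (min_le_left _ _),
        (min_le_right _ _).trans (min_le_right _ _)⟩
    obtain ⟨δ₂, hδ₂, heff₂⟩ := eff ε₂ hε₂
    obtain ⟨Y, hY, ⟨c', hc', hcc⟩, hYQ⟩ := hlim (A n) (B n) Q₁ Q₂ δ₂ ⟨hδ₂, hA n, hB n, hAB n, by
      rw [hun n]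
      intro z hz h
      have h' : dist z c < θ / ((n : ℝ) + 1) := h
      have h'' : dist z b ≤ θ / 4 := hz
      linarith [far z (by linarith), hr1 n], heB n, hQ1, hQ2, hQd, hQu.ge, hc1 rfl⟩
    obtain ⟨k, hk, hkc⟩ := heff₂ c c' (by rwa [dist_comm])
    have hC' := (hC n).image k
    have hc'C : c' ∈ k '' C n := ⟨c, hcC n, hkc⟩
    have hCE : Disjoint (k '' C n) (closedBall b (θ / 4)) := by
      refine Set.disjoint_left.mpr ?_
      rintro _ ⟨z, hz, rfl⟩ h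
      have h1 : ¬ dist z b < θ / 2 := Set.disjoint_left.mp (hCb n) hz
      have h2 : dist (k z) b ≤ θ / 4 := h
      have h3 := hk z
      have h4 := dist_triangle z (k z) b
      rw [dist_comm z (k z)] at h4
      linarith
    have hCY : k '' C n ⊆ Y := hY _ hC'.2.isPreconnected ⟨c', hc'C, hc'.1⟩
      (hCE.mono_right inter_subset_left)
    have hCS' : k '' C n ⊆ S := hS.sub hC' ⟨c', hc'C, hc'.2.1⟩ hb
      (fun h => Set.disjoint_left.mp hCE h (mem_closedBall_self (by positivity)))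
    have hξ' : k (ξ n) ∈ k '' C n := ⟨_, hξC n, rfl⟩
    have hkξ := hk (ξ n)
    have hξ'A : k (ξ n) ∈ A n := by
      have h1 : k (ξ n) ∈ A n ∪ B n := by
        rw [hun n]
        intro h
        have h' : dist (k (ξ n)) c < θ / ((n : ℝ) + 1) := h
        have h4 := dist_triangle (k (ξ n)) (ξ n) b
        linarith [far (k (ξ n)) (by linarith [hξb n]), hr1 n]
      exact h1.resolve_right (hγB (show dist (k (ξ n)) (ξ n) < γ₂ by linarith))
    obtain ⟨h, hh, hhx⟩ := heff x (k (ξ n)) (by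
      have h4 := dist_triangle (k (ξ n)) (ξ n) x
      rw [dist_comm]
      linarith)
    have hL' := hL.image h
    have hm : k (ξ n) ∈ h '' L := ⟨x, hxL, hhx⟩
    have hLAB : h '' L ⊆ A n ∪ B n := by
      rw [hun n]
      rintro _ ⟨z, hz, rfl⟩ h0
      have h1 : dist (h z) c < θ / ((n : ℝ) + 1) := h0
      have h2 : ¬ dist z c < β := fun h' => hβL h' hz
      have h3 := hh z
      have h4 := dist_triangle z (h z) c
      rw [dist_comm z (h z)] at h4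
      linarith
    have hLA : h '' L ⊆ A n := side hL'.2.isPreconnected (hA n) (hB n) (hAB n) hLAB
      ⟨_, hm, hξ'A⟩
    have hLY : h '' L ⊆ Y := hY _ hL'.2.isPreconnected ⟨_, hm, hCY hξ'⟩
      (((hAB n).mono_left hLA).mono_right inter_subset_right)
    have hLS : h '' L ⊆ S := hS.sub hL' ⟨_, hm, hCS' hξ'⟩ hc.1 (by
      intro h0
      have := hLAB h0
      rw [hun n] at this
      exact this (mem_ball_self (hr0 n)))
    have hu' : h u ∈ h '' L := ⟨u, huL, rfl⟩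
    have hhu := hh u
    have h5 : h u ∈ Q₁ := hYQ ⟨hLY hu', hLS hu', by
      have h4 := dist_triangle (h u) u a
      show dist (h u) a ≤ θ
      linarith⟩
    exact hγQ (show dist (h u) u < γ by linarith) h5
  have hxc : x ≠ c := by
    rintro rfl
    linarith
  obtain ⟨hD, hDS⟩ := hpt x hx.1 c hc.1 hxc
  refine ⟨petal x c, hD, hDS, ?_, ⟨x, subset_closure ⟨{x}, ⟨cont_singleton x, rfl, ?_⟩, rfl⟩,
    by linarith⟩, ?_⟩
  · intro hDe
    have hq := cont_comp hQ hcQ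
    have hbq : b ∉ connectedComponentIn (ball b (θ / 4))ᶜ c := fun h =>
      connectedComponentIn_subset _ _ h (mem_ball_self (by positivity))
    refine ht _ hq (hS.sub hq ⟨c, mem_connectedComponentIn hcQ, hc.1⟩ hb hbq)
      (fun h => hbq (h ▸ hb)) (ball a θ) isOpen_ball ⟨a, mem_ball_self hθ, ha⟩ ?_
    rw [← hDe]
    refine isOpen_ball.inter_closure.trans (closure_minimal ?_ hq.1.isClosed)
    rintro u ⟨hu, L, ⟨hL, hxL, hcL⟩, huL⟩
    exact claim L hL hxL hcL u huL hu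
  · exact fun h => hxc (mem_singleton_iff.mp h).symm
  · obtain ⟨M, hM, h1, _, h3, z, hz, hz'⟩ := reach hS.1 (cont_singleton x)
      (singleton_subset_iff.mpr hx.1) (F := (ball c θ)ᶜ) isOpen_ball.isClosed_compl
      (singleton_subset_iff.mpr (by
        intro h
        have h' : dist x c < θ := h
        linarith [far x (by linarith)])) (fun h => h hc.1 (mem_ball_self hθ))
    rw [compl_compl] at hz'
    have h4 : dist z c ≤ θ := closure_ball_subset_closedBall hz'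
    have h5 : dist c a ≤ θ := hc.2
    refine ⟨z, subset_closure ⟨M, ⟨hM, h1 rfl, fun h => h3 h (mem_ball_self hθ)⟩, hz⟩, ?_⟩
    linarith [dist_triangle z c a]

end Pool.Agent.Lib.MP_11d477_gt.HI
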