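import Pool.Agent.Lib.MP_11d477_gt.HI.Basic

/-!
Walls: in a thin terminal continuum a small ball round one point separates two points near
another point, both on a continuum through the centre of the ball.
-/

set_option autoImplicit false

open Set Metric Topology

namespace Pool.Agent.Lib.MP_11d477_gt.HI

variable {X : Type} [MetricSpace X] [CompactSpace X]

theorem wall_split {S : Set X} (hS : Term S) (ht : Thin S) {b c : X} (hb : b ∈ S) (hc : c ∈ S)
    {θ ρ : ℝ} (hθ : 0 < θ) (hρ : 0 < ρ) (hR : closedBall b θ ⊆ (ball c ρ)ᶜ) :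
    ∃ (A B : Set X) (z : X), IsClosed A ∧ IsClosed B ∧ Disjoint A B ∧ A ∪ B = (ball c ρ)ᶜ ∧
      b ∈ A ∧ z ∈ B ∧ z ∈ S ∧ z ∈ closedBall b θ := by
  have hcl : IsClosed (ball c ρ)ᶜ := isOpen_ball.isClosed_compl
  have hbR : b ∈ (ball c ρ)ᶜ := hR (mem_closedBall_self hθ.le)
  have hJ := cont_comp hcl hbR
  have hcJ : c ∉ connectedComponentIn (ball c ρ)ᶜ b := fun h =>
    connectedComponentIn_subset _ _ h (mem_ball_self hρ)
  have hJS := hS.sub hJ ⟨b, mem_connectedComponentIn hbR, hb⟩ hc hcJ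
  have hne : connectedComponentIn (ball c ρ)ᶜ b ≠ S := fun h => hcJ (h.symm ▸ hc)
  obtain ⟨z, ⟨hz1, hz2⟩, hz3⟩ :=
    not_subset.mp (ht _ hJ hJS hne (ball b θ) isOpen_ball ⟨b, mem_ball_self hθ, hb⟩)
  obtain ⟨A, B, hA, hB, hd, hu, h1, h2⟩ := sep (P := {b}) (P' := {z}) hcl isClosed_singleton
    isClosed_singleton (singleton_subset_iff.mpr hbR)
    (singleton_subset_iff.mpr (hR (ball_subset_closedBall hz1)))
    (by rintro _ rfl _ rfl; exact hz3)
  exact ⟨A, B, z, hA, hB, hd, hu, h1 rfl, h2 rfl, hz2, ball_subset_closedBall hz1⟩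

theorem wall_link {S A B : Set X} (hS : Cont S) {b z : X} {θ : ℝ} (hθ : 0 < θ) (hA : IsClosed A)
    (hB : IsClosed B) (hd : Disjoint A B) (hR : closedBall b θ ⊆ A ∪ B) (hb : b ∈ S)
    (hbA : b ∈ A) (hzB : z ∈ B) (hzS : z ∈ S) (hz : z ∈ closedBall b θ) :
    ∃ (C : Set X) (x y : X), Cont C ∧ C ⊆ S ∧ C ⊆ (ball b θ)ᶜ ∧ x ∈ C ∧ y ∈ C ∧
      x ∈ closedBall b θ ∧ y ∈ closedBall b θ ∧ x ∈ A ∧ y ∈ B := by
  have hSc : IsClosed S := hS.1.isClosed
  have hR' : IsClosed (S ∩ (ball b θ)ᶜ) := hSc.inter isOpen_ball.isClosed_compl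
  by_contra hno
  obtain ⟨A2, B2, hA2, hB2, hd2, hu2, h1, h2⟩ := sep
    (P := S ∩ (ball b θ)ᶜ ∩ (closedBall b θ ∩ A)) (P' := S ∩ (ball b θ)ᶜ ∩ (closedBall b θ ∩ B))
    hR' (hR'.inter (isClosed_closedBall.inter hA)) (hR'.inter (isClosed_closedBall.inter hB))
    inter_subset_left inter_subset_left (by
      intro x hx y hy hxy
      exact hno ⟨_, x, y, cont_comp hR' hx.1,
        (connectedComponentIn_subset _ _).trans inter_subset_left,
        (connectedComponentIn_subset _ _).trans inter_subset_right,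
        mem_connectedComponentIn hx.1, hxy, hx.2.1, hy.2.1, hx.2.2, hy.2.2⟩)
  have hA2R : A2 ⊆ S ∩ (ball b θ)ᶜ := hu2 ▸ subset_union_left
  have hB2R : B2 ⊆ S ∩ (ball b θ)ᶜ := hu2 ▸ subset_union_right
  have hdis : Disjoint (A2 ∪ closedBall b θ ∩ A) (B2 ∪ closedBall b θ ∩ B) := by
    rw [Set.disjoint_left]
    rintro w (hw | hw) (hw' | hw')
    · exact Set.disjoint_left.mp hd2 hw hw'
    · exact Set.disjoint_left.mp hd2 hw (h2 ⟨hA2R hw, hw'⟩)
    · exact Set.disjoint_left.mp hd2 (h1 ⟨hB2R hw', hw⟩) hw'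
    · exact Set.disjoint_left.mp hd hw.2 hw'.2
  have hsub : S ⊆ (A2 ∪ closedBall b θ ∩ A) ∪ (B2 ∪ closedBall b θ ∩ B) := by
    intro w hw
    by_cases hwb : w ∈ ball b θ
    · rcases hR (ball_subset_closedBall hwb) with h | h
      · exact Or.inl (Or.inr ⟨ball_subset_closedBall hwb, h⟩)
      · exact Or.inr (Or.inr ⟨ball_subset_closedBall hwb, h⟩)
    · have : w ∈ A2 ∪ B2 := hu2.symm ▸ (⟨hw, hwb⟩ : w ∈ S ∩ (ball b θ)ᶜ)
      rcases this with h | h
      · exact Or.inl (Or.inl h)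
      · exact Or.inr (Or.inl h)
  have := side hS.2.isPreconnected (hA2.union (isClosed_closedBall.inter hA))
    (hB2.union (isClosed_closedBall.inter hB)) hdis hsub
    ⟨b, hb, Or.inr ⟨mem_closedBall_self hθ.le, hbA⟩⟩
  exact Set.disjoint_left.mp hdis (this hzS) (Or.inr ⟨hz, hzB⟩)

theorem wall (eff : Eff X) {S : Set X} (hS : Term S) (ht : Thin S) : Wall S := by
  intro b hb c hc θ hθ hbc r hr hrθ
  obtain ⟨δ, hδ, hE⟩ := eff (r / 2) (by positivity)
  have hρ : 0 < min δ (r / 2) := lt_min hδ (by positivity)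
  have hρ2 : min δ (r / 2) ≤ r / 2 := min_le_right _ _
  have hR : closedBall b θ ⊆ (ball c (min δ (r / 2)))ᶜ := by
    intro w hw hw'
    rw [mem_closedBall] at hw
    rw [mem_ball] at hw'
    have := dist_triangle_left b c w
    linarith
  obtain ⟨A, B, z, hA, hB, hd, hu, hbA, hzB, hzS, hz⟩ := wall_split hS ht hb hc hθ hρ hR
  obtain ⟨C, x, y, hC, -, hCb, hx, hy, hxb, hyb, hxA, hyB⟩ :=
    wall_link hS.1 hθ hA hB hd (hu.symm ▸ hR) hb hbA hzB hzS hz
  obtain ⟨c1, hc1, hc1'⟩ : ∃ c1 ∈ C, c1 ∈ ball c (min δ (r / 2)) := by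
    by_contra hno
    have hsub : C ⊆ A ∪ B := by
      rw [hu]
      exact fun w hw hw' => hno ⟨w, hw, hw'⟩
    exact Set.disjoint_left.mp hd (side hC.2.isPreconnected hA hB hd hsub ⟨x, hx, hxA⟩ hy) hyB
  obtain ⟨h, hh, hhc⟩ := hE c1 c ((mem_ball.mp hc1').trans_le (min_le_left _ _))
  have hmiss : Disjoint (h '' C) (ball b (θ / 2)) := by
    rw [Set.disjoint_left]
    rintro _ ⟨w, hw, rfl⟩ hw'
    apply hCb hw
    rw [mem_ball] at hw' ⊢
    have h1 := hh w
    have h2 := dist_triangle_left w b (h w)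
    linarith
  have hnear : ∀ w ∈ closedBall b θ, dist (h w) b ≤ 2 * θ := fun w hw => by
    rw [mem_closedBall] at hw
    have h1 := hh w
    have h2 := dist_triangle (h w) w b
    linarith
  have hfar : ∀ w ∈ closedBall b θ, h w ∈ (ball c r)ᶜ := fun w hw hw' => by
    rw [mem_ball] at hw'
    have h1 := hnear w hw
    have h2 := dist_triangle_left b c (h w)
    linarith
  have hcC : c ∈ h '' C := ⟨c1, hc1, hhc⟩
  refine ⟨h '' C, h x, h y, h '' A ∩ (ball c r)ᶜ, h '' B ∩ (ball c r)ᶜ, hC.image h,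
    hS.sub (hC.image h) ⟨c, hcC, hc⟩ hb
      (fun hbC => Set.disjoint_left.mp hmiss hbC (mem_ball_self (by positivity))),
    hcC, hmiss, mem_image_of_mem _ hx, mem_image_of_mem _ hy, hnear x hxb, hnear y hyb,
    (h.isClosedMap _ hA).inter isOpen_ball.isClosed_compl,
    (h.isClosedMap _ hB).inter isOpen_ball.isClosed_compl,
    ((Set.disjoint_image_iff h.injective).mpr hd).mono inter_subset_left inter_subset_left, ?_,
    ⟨mem_image_of_mem _ hxA, hfar x hxb⟩, ⟨mem_image_of_mem _ hyB, hfar y hyb⟩⟩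
  apply Subset.antisymm (union_subset inter_subset_right inter_subset_right)
  intro w hw
  have hw2 : h.symm w ∈ A ∪ B := by
    rw [hu]
    intro hw'
    apply hw
    rw [mem_ball] at hw' ⊢
    have h1 := hh (h.symm w)
    rw [h.apply_symm_apply] at h1
    have h2 := dist_triangle w (h.symm w) c
    linarith
  rcases hw2 with h1 | h1
  · exact Or.inl ⟨⟨_, h1, h.apply_symm_apply w⟩, hw⟩
  · exact Or.inr ⟨⟨_, h1, h.apply_symm_apply w⟩, hw⟩

end Pool.Agent.Lib.MP_11d477_gt.HI
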