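import Pool.Agent.Lib.MP_11d477_gt.HI.Effros
import Pool.Agent.Lib.MP_11d477_gt.HI.Clean
import Pool.Agent.Lib.MP_11d477_gt.HI.Fibre
import Pool.Agent.Lib.MP_11d477_gt.HI.Wall
import Pool.Agent.Lib.MP_11d477_gt.HI.Outlet
import Pool.Agent.Lib.MP_11d477_gt.HI.Dead
import Pool.Agent.Lib.MP_11d477_gt.HI.Petals
import Pool.Agent.Lib.MP_11d477_gt.HI.Dim

/-!
A homogeneous indecomposable continuum of trivial shape is hereditarily indecomposable and has
dimension at most one.
-/

set_option autoImplicit false

open Set Metric Topology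

namespace Pool.Agent.Lib.MP_11d477_gt.HI

variable {X : Type} [MetricSpace X] [CompactSpace X]

theorem main [ConnectedSpace X] (hom : ∀ x y : X, ∃ h : X ≃ₜ X, h x = y) (hi : Indec X)
    (hs : Shape X) : Nested X ∧ DimOne X := by
  have hn : Nested X := by
    by_contra h
    have eff := effros hom
    obtain ⟨S, σ, hσ, hS, hnt, hc⟩ := exists_clean hom eff h
    have ht : Thin S := by
      by_cases hu : S = univ
      · exact hu ▸ thin_univ hi
      · exact thin_of_clean eff hσ hS hc hu
    have hw := wall eff hS ht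
    exact finish eff hσ hS hnt hc
      (petals eff hS ht hw (fun x hx c hc hne => petal_term eff hS hw hx hc hne) (deadEnd hs))
  exact ⟨hn, dimOne hs hn⟩

end Pool.Agent.Lib.MP_11d477_gt.HI
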