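import Pool.Agent.Lib.MP_11d477_gt.HI.Basic

/-!
A proper terminal subcontinuum whose small translates are equal to it or disjoint from it has
trivial shape.
-/

set_option autoImplicit false

open Set Metric Topology unitInterval

namespace Pool.Agent.Lib.MP_11d477_gt.HI

/-- segments in the Hilbert cube -/
noncomputable def mix (t : I) (p q : ℕ → I) : ℕ → I := fun n => Icc.convexComb (p n) (q n) t

theorem mix_zero (p q : ℕ → I) : mix 0 p q = p := funext fun _ => Icc.convexComb_zero _ _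

theorem mix_one (p q : ℕ → I) : mix 1 p q = q := funext fun _ => Icc.convexComb_one _ _

theorem mix_self (t : I) (p : ℕ → I) : mix t p p = p := funext fun _ => Icc.convexComb_eq _ _

@[fun_prop]
theorem continuous_mix {Z : Type} [TopologicalSpace Z] {t : Z → I} {p q : Z → ℕ → I}
    (ht : Continuous t) (hp : Continuous p) (hq : Continuous q) :
    Continuous fun z => mix (t z) (p z) (q z) := by
  refine continuous_pi fun n => ?_
  exact Icc.continuous_convexComb_prod.comp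
    (((continuous_apply n).comp hp).prodMk (((continuous_apply n).comp hq).prodMk ht))

theorem isOpen_forall_I {Z : Type} [TopologicalSpace Z] {U : Set (ℕ → I)} (hU : IsOpen U)
    {Φ : Z × I → ℕ → I} (hΦ : Continuous Φ) : IsOpen {z : Z | ∀ t : I, Φ (z, t) ∈ U} := by
  rw [isOpen_iff_mem_nhds]
  intro z hz
  have := isCompact_univ.eventually_forall_of_forall_eventually (x₀ := z)
    (P := fun (z : Z) (t : I) => Φ (z, t) ∈ U)
    fun t _ => (hU.preimage hΦ).mem_nhds (hz t)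
  exact this.mono fun w hw t => hw t (mem_univ t)

theorem homotopic_of_mix {Z : Type} [TopologicalSpace Z] {U : Set (ℕ → I)} (f g : C(Z, U))
    (h : ∀ z t, mix t (f z) (g z) ∈ U) : f.Homotopic g :=
  ⟨⟨⟨fun w => ⟨mix w.1 (f w.2) (g w.2), h _ _⟩, by fun_prop⟩,
    fun z => Subtype.ext (mix_zero _ _), fun z => Subtype.ext (mix_one _ _)⟩⟩

variable {X : Type} [MetricSpace X]

/-- small translates of `S` are equal to `S` or disjoint from it -/
def Inv (S : Set X) (ω : ℝ) : Prop :=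
  ∀ g : X ≃ₜ X, Small g ω → (g '' S ∩ S).Nonempty → g '' S = S

/-- the restriction of a map into the Hilbert cube -/
def resU (g : C(X, ℕ → I)) (U : Set (ℕ → I)) (F : Set X) (h : ∀ x ∈ F, g x ∈ U) : C(F, U) :=
  ⟨fun x => ⟨g x, h x x.2⟩, by fun_prop⟩

/-- the restriction to `F` is null-homotopic in `U` -/
def Null (g : C(X, ℕ → I)) (U : Set (ℕ → I)) (F : Set X) : Prop :=
  ∃ h, (resU g U F h).Nullhomotopic

theorem Null.move {g : C(X, ℕ → I)} {U : Set (ℕ → I)} {F : Set X} (k : X ≃ₜ X)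
    (h : Null g U (k '' F)) (hm : ∀ x ∈ F, ∀ t, mix t (g x) (g (k x)) ∈ U) : Null g U F := by
  obtain ⟨h1, h2⟩ := h
  have h0 : ∀ x ∈ F, g x ∈ U := fun x hx => mix_zero (g x) (g (k x)) ▸ hm x hx 0
  refine ⟨h0, ?_⟩
  let κ : C(F, (k '' F : Set X)) := ⟨fun x => ⟨k x, x, x.2, rfl⟩, by fun_prop⟩
  obtain ⟨y, hy⟩ := h2.comp_left κ
  exact ⟨y, (homotopic_of_mix (resU g U F h0) ((resU g U (k '' F) h1).comp κ)
    fun (z : F) t => hm z z.2 t).trans hy⟩

theorem close_mix (g : C(X, ℕ → I)) {U : Set (ℕ → I)} (hU : IsOpen U) {M : Set X}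
    (hM : IsCompact M) (h : ∀ x ∈ M, g x ∈ U) :
    ∃ η : ℝ, 0 < η ∧ ∀ x ∈ M, ∀ y ∈ M, dist x y < η → ∀ t, mix t (g x) (g y) ∈ U := by
  have ho : IsOpen {z : X × X | ∀ t : I, mix t (g z.1) (g z.2) ∈ U} :=
    isOpen_forall_I hU (Φ := fun w : (X × X) × I => mix w.2 (g w.1.1) (g w.1.2)) (by fun_prop)
  obtain ⟨η, hη, hle⟩ := ((hM.prod hM).inter_right ho.isClosed_compl).exists_forall_le'
    (f := fun z : X × X => dist z.1 z.2) (by fun_prop) (a := 0) (by
      rintro ⟨x, y⟩ ⟨⟨hx, -⟩, hn⟩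
      refine dist_pos.2 fun e => hn fun t => ?_
      have e' : x = y := e
      subst e'
      show mix t (g x) (g x) ∈ U
      rw [mix_self]
      exact h x hx)
  refine ⟨η, hη, fun x hx y hy hd => by_contra fun hn => ?_⟩
  exact absurd hd (not_lt.2 (hle (x, y) ⟨⟨hx, hy⟩, hn⟩))

variable [CompactSpace X]

theorem null_of_inv [ConnectedSpace X] (eff : Eff X) {S : Set X} {ω : ℝ} (hω : 0 < ω)
    (hS : Term S) (hne : S ≠ univ) (hinv : Inv S ω) (e : C(X, ℕ → I)) {U : Set (ℕ → I)}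
    (hU : IsOpen U) (hSU : ∀ x ∈ S, e x ∈ U) : Null e U S := by
  obtain ⟨v, hv⟩ := hS.1.2.nonempty
  have hSc : IsClosed S := hS.1.1.isClosed
  obtain ⟨r, hr, hrU⟩ := hS.1.1.exists_cthickening_subset_open (hU.preimage e.continuous) hSU
  obtain ⟨η, hη, hη'⟩ := close_mix e hU (isClosed_cthickening (δ := r) (E := S)).isCompact hrU
  obtain ⟨ε, hε, hε1, hε2⟩ : ∃ ε : ℝ, 0 < ε ∧ ε ≤ η ∧ 3 * ε ≤ ω :=
    ⟨min η (ω / 3), lt_min hη (by positivity), min_le_left _ _, by
      have := min_le_right η (ω / 3); linarith⟩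
  have hinv' : ∀ (g : X ≃ₜ X) (a : ℝ), Small g a → a ≤ 3 * ε → (g '' S ∩ S).Nonempty →
      g '' S = S := fun g a hg ha => hinv g fun w => (hg w).trans_le (ha.trans hε2)
  obtain ⟨δ, hδ, hmove⟩ := eff ε hε
  obtain ⟨M, hM, hSM, hMS, hMU, -⟩ := bump (S := univ) (K := S) (U := thickening (min δ r) S)
    ⟨isCompact_univ, isConnected_univ⟩ hS.1 (subset_univ _) hne isOpen_thickening
    (self_subset_thickening (lt_min hδ hr) S)
  have hMr : M ⊆ cthickening r S := hMU.trans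
    ((thickening_mono (min_le_right _ _) S).trans (thickening_subset_cthickening _ _))
  have hg : ∀ m : X, ∃ g : X ≃ₜ X, Small g ε ∧ (m ∈ M → m ∈ g '' S) := by
    intro m
    by_cases hm : m ∈ M
    · obtain ⟨s, hs, hd⟩ := mem_thickening_iff.mp (hMU hm)
      rw [dist_comm] at hd
      obtain ⟨g, hg, hgs⟩ := hmove s m (hd.trans_le (min_le_left _ _))
      exact ⟨g, hg, fun _ => ⟨s, hs, hgs⟩⟩
    · exact ⟨Homeomorph.refl X, fun w => by simpa using hε, fun h => absurd h hm⟩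
  choose g hgs hgm using hg
  have hFM : ∀ m ∈ M, g m '' S ⊆ M := by
    intro m hm
    refine ((hS.image (g m)).2 M hM ⟨m, hm, hgm m hm⟩).resolve_left fun h => hMS ?_
    have := hinv' (g m) ε (hgs m) (by linarith) ⟨v, h (hSM hv), hv⟩
    exact Subset.antisymm (this ▸ h) hSM
  obtain ⟨m₁, hm₁, hm₁S⟩ : ∃ m ∈ M, m ∉ S := by
    by_contra h
    push Not at h
    exact hMS (Subset.antisymm h hSM)
  have hS' := hS.image (g m₁)
  have hdis : Disjoint S (g m₁ '' S) := by
    refine disjoint_left.2 fun x hx hx' => hm₁S ?_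
    have := hinv' (g m₁) ε (hgs m₁) (by linarith) ⟨x, hx', hx⟩
    exact this ▸ hgm m₁ hm₁
  have hQ : IsClosed (ball v ε)ᶜ := isOpen_ball.isClosed_compl
  obtain ⟨A, B, hA, hB, hAB, hun, hPA, hPB⟩ := sep (R := (ball v ε)ᶜ) (P := S ∩ (ball v ε)ᶜ)
    (P' := g m₁ '' S ∩ (ball v ε)ᶜ) hQ (hSc.inter hQ) (hS'.1.1.isClosed.inter hQ)
    inter_subset_right inter_subset_right (by
      intro x hx y hy h
      have hcomp : connectedComponentIn (ball v ε)ᶜ x ⊆ S :=
        hS.sub (cont_comp hQ hx.2) ⟨x, mem_connectedComponentIn hx.2, hx.1⟩ hv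
          (fun h => connectedComponentIn_subset _ _ h (mem_ball_self hε))
      exact disjoint_left.1 hdis (hcomp h) hy.1)
  obtain ⟨φ, hφ0, hφ1, hφ⟩ := exists_continuous_zero_one_of_isClosed (hA.union hSc)
    (hB.union hS'.1.1.isClosed) (by
      refine disjoint_left.2 ?_
      rintro x (hx | hx) (hx' | hx')
      · exact disjoint_left.1 hAB hx hx'
      · exact disjoint_left.1 hAB hx (hPB ⟨hx', hun ▸ Or.inl hx⟩)
      · exact disjoint_left.1 hAB (hPA ⟨hx, hun ▸ Or.inr hx'⟩) hx'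
      · exact disjoint_left.1 hdis hx hx')
  let G : C(X, ℕ → I) := ⟨fun x => mix ⟨φ x, hφ x⟩ (e x) (e v), by fun_prop⟩
  have hG0 : ∀ x ∈ A ∪ S, G x = e x := by
    intro x hx
    have : (⟨φ x, hφ x⟩ : I) = 0 := Subtype.ext (hφ0 hx)
    show mix ⟨φ x, hφ x⟩ (e x) (e v) = e x
    rw [this, mix_zero]
  have hG1 : ∀ x ∈ B ∪ g m₁ '' S, G x = e v := by
    intro x hx
    have : (⟨φ x, hφ x⟩ : I) = 1 := Subtype.ext (hφ1 hx)
    show mix ⟨φ x, hφ x⟩ (e x) (e v) = e v
    rw [this, mix_one]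
  have hGU : ∀ x ∈ M, G x ∈ U := by
    intro x hx
    by_cases hb : x ∈ ball v ε
    · exact hη' x (hMr hx) v (hMr (hSM hv)) ((mem_ball.1 hb).trans_le hε1) _
    · rcases (hun ▸ hb : x ∈ A ∪ B) with h | h
      · rw [hG0 x (Or.inl h)]; exact hrU (hMr hx)
      · rw [hG1 x (Or.inl h)]; exact hSU v hv
  obtain ⟨η₂, hη₂, hη₂'⟩ := close_mix G hU hM.1 hGU
  obtain ⟨δ₂, hδ₂, hk⟩ := eff (min η₂ ε) (lt_min hη₂ hε)
  have step : ∀ m ∈ M, ∀ m' ∈ M, dist m m' < δ₂ → Null G U (g m' '' S) → Null G U (g m '' S) := by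
    intro m hm m' hm' hd hn
    obtain ⟨k, hks, hkm⟩ := hk m m' hd
    have hke : Small k ε := fun w => (hks w).trans_le (min_le_right _ _)
    obtain ⟨s, hs, hsm⟩ := hgm m hm
    obtain ⟨s', hs', hsm'⟩ := hgm m' hm'
    have hψ := ((hgs m).trans hke).trans (hgs m').symm
    have hψs : (((g m).trans k).trans (g m').symm) s = s' := by
      show (g m').symm (k (g m s)) = s'
      rw [hsm, hkm, Homeomorph.symm_apply_eq]
      exact hsm'.symm
    have heq := hinv' _ _ hψ (by linarith) ⟨s', ⟨s, hs, hψs⟩, hs'⟩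
    have him : k '' (g m '' S) = g m' '' S := by
      conv_rhs => rw [← heq]
      rw [image_image, image_image]
      exact image_congr fun x _ => ((g m').apply_symm_apply _).symm
    refine Null.move k (him ▸ hn) fun x hx t => hη₂' x (hFM m hm hx) (k x)
      (hFM m' hm' (him ▸ mem_image_of_mem k hx)) ?_ t
    rw [dist_comm]
    exact (hks x).trans_le (min_le_left _ _)
  have h1 : Null G U (g m₁ '' S) := by
    refine ⟨fun x hx => hGU x (hFM m₁ hm₁ hx), ⟨e v, hSU v hv⟩, ?_⟩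
    have : resU G U (g m₁ '' S) (fun x hx => hGU x (hFM m₁ hm₁ hx)) =
        ContinuousMap.const _ ⟨e v, hSU v hv⟩ :=
      ContinuousMap.ext fun x => Subtype.ext (hG1 x (Or.inr x.2))
    rw [this]
  have h2 : Null G U (g v '' S) := by
    refine hM.2.isPreconnected.induction₂' (fun a b => Null G U (g a '' S) → Null G U (g b '' S))
      (fun x hx => ?_) (fun _ _ _ _ _ _ h h' a => h' (h a)) hm₁ (hSM hv) h1
    filter_upwards [self_mem_nhdsWithin, mem_nhdsWithin_of_mem_nhds (ball_mem_nhds x hδ₂)]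
      with y hy hd
    exact ⟨step y hy x hx (mem_ball.1 hd), step x hx y hy (dist_comm y x ▸ mem_ball.1 hd)⟩
  rw [hinv' (g v) ε (hgs v) (by linarith) ⟨v, hgm v (hSM hv), hv⟩] at h2
  obtain ⟨h3, h4⟩ := h2
  refine ⟨hSU, ?_⟩
  have : resU e U S hSU = resU G U S h3 :=
    ContinuousMap.ext fun x => Subtype.ext (hG0 x (Or.inr x.2)).symm
  rw [this]
  exact h4

theorem shape_of_inv [ConnectedSpace X] (eff : Eff X) {S : Set X} {ω : ℝ} (hω : 0 < ω)
    (hS : Term S) (hne : S ≠ univ) (hinv : Inv S ω) : Shape S := by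
  obtain ⟨e, he⟩ := Metric.PiNatEmbed.exists_embedding_to_hilbert_cube (X := X)
  have : CompactSpace S := isCompact_iff_compactSpace.1 hS.1.1
  have he' : IsEmbedding (fun x : S => e x) := he.comp IsEmbedding.subtypeVal
  refine ⟨fun x => e x, he', fun U hU hSU => ?_⟩
  obtain ⟨h0, q, ⟨H⟩⟩ := null_of_inv eff hω hS hne hinv ⟨e, he.continuous⟩ hU
    fun x hx => hSU ⟨⟨x, hx⟩, rfl⟩
  have hce : IsClosedEmbedding (Prod.map (fun x : S => e x) (id : I → I)) :=
    (he'.continuous.prodMap continuous_id).isClosedEmbedding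
      (he'.injective.prodMap Function.injective_id)
  obtain ⟨K, hK⟩ := ContinuousMap.exists_extension' hce
    (⟨fun w : S × I => (H (w.2, w.1) : ℕ → I), by fun_prop⟩ : C(S × I, ℕ → I))
  have hK' : ∀ (x : S) (t : I), K (e x, t) = (H (t, x) : ℕ → I) := fun x t => congrFun hK (x, t)
  let V : Set (ℕ → I) := {p | ∀ t : I, K (p, t) ∈ U} ∩
    ({p | ∀ t : I, mix t p (K (p, 0)) ∈ U} ∩ {p | ∀ t : I, mix t (K (p, 1)) q ∈ U})
  have hV : IsOpen V := (isOpen_forall_I hU K.continuous).inter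
    ((isOpen_forall_I hU (Φ := fun w : (ℕ → I) × I => mix w.2 w.1 (K (w.1, 0))) (by fun_prop)).inter
      (isOpen_forall_I hU (Φ := fun w : (ℕ → I) × I => mix w.2 (K (w.1, 1)) q) (by fun_prop)))
  have hVU : V ⊆ U := fun p hp => mix_zero p (K (p, 0)) ▸ hp.2.1 0
  refine ⟨V, hV, ?_, hVU, q, ?_⟩
  · rintro _ ⟨x, rfl⟩
    refine ⟨fun t => ?_, fun t => ?_, fun t => ?_⟩
    · rw [hK']; exact (H (t, x)).2
    · show mix t (e x) (K (e x, 0)) ∈ U
      rw [hK', H.apply_zero]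
      show mix t (e x) (e x) ∈ U
      rw [mix_self]
      exact hSU ⟨x, rfl⟩
    · show mix t (K (e x, 1)) q ∈ U
      rw [hK', H.apply_one]
      show mix t q q ∈ U
      rw [mix_self]
      exact q.2
  · let f : I → C(V, U) := fun t => ⟨fun p => ⟨K (p, t), p.2.1 t⟩, by fun_prop⟩
    have a1 : (ContinuousMap.inclusion hVU).Homotopic (f 0) :=
      homotopic_of_mix _ _ fun z t => z.2.2.1 t
    have a2 : (f 0).Homotopic (f 1) :=
      ⟨⟨⟨fun w => ⟨K (w.2, w.1), w.2.2.1 w.1⟩, by fun_prop⟩, fun _ => rfl, fun _ => rfl⟩⟩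
    have a3 : (f 1).Homotopic (ContinuousMap.const _ q) :=
      homotopic_of_mix _ _ fun z t => z.2.2.2 t
    exact (a1.trans a2).trans a3

end Pool.Agent.Lib.MP_11d477_gt.HI
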