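import Pool.Agent.Lib.MP_11d477_gt.HI.Main
import Pool.Agent.Lib.MP_11d477_gt.HI.Apo
import Pool.Agent.Lib.MP_11d477_gt.HI.ApoP
import Pool.Agent.Lib.MP_11d477_gt.HI.Local
import Pool.Agent.Lib.MP_11d477_gt.HI.Neck

/-!
Without any hypothesis on the shape: in a homogeneous continuum every proper terminal subcontinuum
is hereditarily indecomposable, and if one of them is nondegenerate the space has dimension at most
one.
-/

set_option autoImplicit false

open Set Metric Topology

namespace Pool.Agent.Lib.MP_11d477_gt.HI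

open B7 (hull_ind comp_compact exists_log)

variable {X : Type} [MetricSpace X] [CompactSpace X]

omit [CompactSpace X] in
theorem hom_of_inv (eff : Eff X) {S : Set X} {ω : ℝ} (hω : 0 < ω) (hS : Cont S)
    (hinv : Inv S ω) (x y : S) : ∃ h : S ≃ₜ S, h x = y := by
  have : PreconnectedSpace S := Subtype.preconnectedSpace hS.2.isPreconnected
  obtain ⟨δ, hδ, he⟩ := eff ω hω
  have step : ∀ a b : S, dist a b < δ → ∃ h : S ≃ₜ S, h a = b := by
    intro a b hd
    obtain ⟨g, hg, hab⟩ := he a b hd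
    exact ⟨(g.image S).trans (Homeomorph.setCongr (hinv g hg ⟨b, ⟨a, a.2, hab⟩, b.2⟩)),
      Subtype.ext hab⟩
  refine PreconnectedSpace.induction₂' (fun a b : S => ∃ h : S ≃ₜ S, h a = b) (fun a => ?_)
    ⟨fun a b c ⟨h, e⟩ ⟨k, e'⟩ => ⟨h.trans k, by rw [Homeomorph.trans_apply, e, e']⟩⟩ x y
  filter_upwards [ball_mem_nhds a hδ] with b hb
  exact ⟨step a b (dist_comm b a ▸ mem_ball.1 hb), step b a (mem_ball.1 hb)⟩

omit [CompactSpace X] in
theorem indec_of_thin {S : Set X} (ht : Thin S) : Indec S := by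
  intro K L hK hL hu
  by_contra hn
  obtain ⟨h1, h2⟩ := not_or.1 hn
  obtain ⟨q, hq⟩ := (ne_univ_iff_exists_notMem K).1 h1
  obtain ⟨p, hp⟩ := (ne_univ_iff_exists_notMem L).1 h2
  refine ht ((↑) '' K) ⟨hK.1.image continuous_subtype_val,
    hK.2.image _ continuous_subtype_val.continuousOn⟩ (Subtype.coe_image_subset S K)
    (fun e => hq (Subtype.val_injective.mem_set_image.1 (e.ge q.2))) ((↑) '' L)ᶜ
    (hL.1.image continuous_subtype_val).isClosed.isOpen_compl
    ⟨p, fun h => hp (Subtype.val_injective.mem_set_image.1 h), p.2⟩ fun w hw => ?_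
  rcases (hu ▸ mem_univ _ : (⟨w, hw.2⟩ : S) ∈ K ∪ L) with h | h
  · exact ⟨_, h, rfl⟩
  · exact absurd ⟨_, h, rfl⟩ hw.1

omit [CompactSpace X] in
theorem nested_of_sub {S : Set X} (hS : IsCompact S) (hn : Nested S) {K L : Set X} (hK : Cont K)
    (hL : Cont L) (hKS : K ⊆ S) (hLS : L ⊆ S) (hm : (K ∩ L).Nonempty) : K ⊆ L ∨ L ⊆ K := by
  have : CompactSpace S := isCompact_iff_compactSpace.1 hS
  have pre : ∀ {K : Set X}, Cont K → K ⊆ S → Cont ((↑) ⁻¹' K : Set S) := by
    intro K hK hKS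
    obtain ⟨x, hx⟩ := hK.2.nonempty
    refine ⟨(hK.1.isClosed.preimage continuous_subtype_val).isCompact, ⟨⟨x, hKS hx⟩, hx⟩, ?_⟩
    rw [← IsInducing.subtypeVal.isPreconnected_image, Subtype.image_preimage_coe,
      inter_eq_right.2 hKS]
    exact hK.2.isPreconnected
  obtain ⟨x, hxK, hxL⟩ := hm
  rcases hn _ _ (pre hK hKS) (pre hL hLS) ⟨⟨x, hKS hxK⟩, hxK, hxL⟩ with h | h
  · exact Or.inl fun z hz => h (a := ⟨z, hKS hz⟩) hz
  · exact Or.inr fun z hz => h (a := ⟨z, hLS hz⟩) hz

theorem no_clean_proper [ConnectedSpace X] (eff : Eff X) {S : Set X} {ω : ℝ} (hω : 0 < ω)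
    (hS : Term S) (hnt : S.Nontrivial) (hc : Clean S ω) (hne : S ≠ univ) : False := by
  have hinv : Inv S ω := fun g hg hm => clean_image_eq hS hc hg le_rfl hm
  have : CompactSpace S := isCompact_iff_compactSpace.1 hS.1.1
  have : ConnectedSpace S := isConnected_iff_connectedSpace.1 hS.1.2
  have hn : Nested S := (main (hom_of_inv eff hω hS.1 hinv)
    (indec_of_thin (thin_of_clean eff hω hS hc hne)) (shape_of_inv eff hω hS hne hinv)).1
  refine finish eff hω hS hnt hc fun a ha b hb hab θ hθ => ?_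
  have hr : 0 < min (θ / 2) (dist b a) := lt_min (by positivity) (dist_pos.2 hab.symm)
  obtain ⟨M, hM, h1, h2, h3, z, hz, hz'⟩ := reach hS.1 (cont_singleton b)
    (singleton_subset_iff.2 hb) (F := (ball a (min (θ / 2) (dist b a)))ᶜ)
    isOpen_ball.isClosed_compl
    (singleton_subset_iff.2 fun h => absurd (mem_ball.1 h) (not_lt.2 (min_le_right _ _)))
    (fun h => h ha (mem_ball_self hr))
  rw [compl_compl] at hz'
  have h4 : dist z a ≤ min (θ / 2) (dist b a) := closure_ball_subset_closedBall hz'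
  refine ⟨M, ⟨hM, fun L hL hm => ?_⟩, h2, fun e => h3 (e ▸ ha) (mem_ball_self hr),
    ⟨b, h1 rfl, by simpa using hθ⟩, z, hz, by linarith [min_le_left (θ / 2) (dist b a)]⟩
  rcases hS.2 L hL (hm.mono (inter_subset_inter_right _ h2)) with h | h
  · exact nested_of_sub hS.1.1 hn hL hM h h2 hm
  · exact Or.inr (h2.trans h)

/-- meeting subcontinua of a proper terminal subcontinuum of a homogeneous continuum are nested -/
theorem nested_of_proper_term [ConnectedSpace X] (hom : ∀ x y : X, ∃ h : X ≃ₜ X, h x = y)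
    (E K L : Set X) (hE : Term E) (hne : E ≠ univ) (hK : Cont K) (hL : Cont L)
    (hKE : K ⊆ E) (hLE : L ⊆ E) (hm : (K ∩ L).Nonempty) : K ⊆ L ∨ L ⊆ K := by
  by_contra h
  have eff := effros hom
  obtain ⟨h1, h2⟩ := not_or.1 h
  obtain ⟨S, ω, hω, hS, hnt, hc, hu⟩ := exists_clean_proper hom eff hE hne hK hL hKE hLE hm h1 h2
  exact no_clean_proper eff hω hS hnt hc hu

/-- `g` has a continuous logarithm on `K` -/
def HasLog (g : X → ℂ) (K : Set X) : Prop :=
  ∃ l : X → ℂ, ContinuousOn l K ∧ ∀ x ∈ K, Complex.exp (l x) = g x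

omit [CompactSpace X] in
theorem HasLog.mono {g : X → ℂ} {K L : Set X} (h : HasLog g K) (hL : L ⊆ K) : HasLog g L := by
  obtain ⟨l, h1, h2⟩ := h
  exact ⟨l, h1.mono hL, fun x hx => h2 x (hL hx)⟩

omit [CompactSpace X] in
theorem HasLog.nhds {g : X → ℂ} {K : Set X} (h : HasLog g K) (hg : Continuous g)
    (hK : IsClosed K) : ∃ N, IsOpen N ∧ K ⊆ N ∧
      ∃ l : X → ℂ, ContinuousOn l N ∧ ∀ x ∈ N, Complex.exp (l x) = g x := by
  obtain ⟨l, h1, h2⟩ := h
  obtain ⟨L, hL⟩ := ContinuousMap.exists_restrict_eq (Y := ℂ) hK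
    ⟨K.domRestrict l, continuousOn_iff_continuous_domRestrict.1 h1⟩
  have hL' : ∀ x ∈ K, L x = l x := fun x hx => congrArg (fun f : C(K, ℂ) => f ⟨x, hx⟩) hL
  have hu : Continuous fun x => g x / Complex.exp (L x) :=
    hg.div (by fun_prop) fun x => Complex.exp_ne_zero _
  refine ⟨{x | g x / Complex.exp (L x) ∈ Complex.slitPlane},
    Complex.isOpen_slitPlane.preimage hu, fun x hx => ?_,
    fun x => L x + Complex.log (g x / Complex.exp (L x)),
    L.continuous.continuousOn.add (hu.continuousOn.clog fun x hx => hx), fun x hx => ?_⟩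
  · show g x / Complex.exp (L x) ∈ Complex.slitPlane
    rw [hL' x hx, ← h2 x hx, div_self (Complex.exp_ne_zero _)]
    exact Complex.one_mem_slitPlane
  · rw [Complex.exp_add, Complex.exp_log (Complex.slitPlane_ne_zero hx)]
    exact mul_div_cancel₀ _ (Complex.exp_ne_zero _)

theorem hasLog_of_term [ConnectedSpace X] (eff : Eff X) {K : Set X} (hK : Cont K)
    (hne : K ≠ univ) (ht : ∀ L, Cont L → L ⊆ K → Term L) {g : X → ℂ} (hg : Continuous g)
    (h0 : ∀ x ∈ K, g x ≠ 0) : HasLog g K := by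
  classical
  by_contra hno
  obtain ⟨S, hSK, hS⟩ := zorn_superset_nonempty {L : Set X | Cont L ∧ ¬ HasLog g L} (by
    intro c hcF hc hcne
    have hI := cont_sInter hc hcne fun S hS => (hcF hS).1
    refine ⟨⋂₀ c, ⟨hI, fun hl => ?_⟩, fun S hS => sInter_subset_of_mem hS⟩
    obtain ⟨N, hN, hsub, hlog⟩ := hl.nhds hg hI.1.isClosed
    have : Nonempty c := hcne.to_subtype
    have hdir : DirectedOn (· ⊇ ·) c := by
      intro S hS T hT
      rcases hc.total hS hT with h1 | h1
      · exact ⟨S, hS, Subset.rfl, h1⟩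
      · exact ⟨T, hT, h1, Subset.rfl⟩
    obtain ⟨S, hS⟩ := exists_subset_nhds_of_compactSpace (V := fun S : c => (S : Set X))
      (directedOn_iff_directed.mp hdir) (fun S => (hcF S.2).1.1.isClosed) (U := N) (by
        rw [← sInter_eq_iInter]
        exact fun x hx => hN.mem_nhds (hsub hx))
    exact (hcF S.2).2 (HasLog.mono hlog hS)) K ⟨hK, hno⟩
  have hSc : Cont S := hS.prop.1
  have hT := ht S hSc hSK
  obtain ⟨m, hm, hm'⟩ := hSc.1.exists_forall_le' (f := fun x => ‖g x‖) (by fun_prop) (a := 0)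
    fun x hx => norm_pos_iff.2 (h0 x (hSK hx))
  obtain ⟨ω, hω, hu⟩ := Metric.uniformContinuous_iff.1
    (CompactSpace.uniformContinuous_of_continuous hg) m hm
  have sub : ∀ k : X ≃ₜ X, Small k ω → k '' S ⊆ S → k '' S = S := by
    intro k hk hsub
    refine Subset.antisymm hsub (hS.le_of_le ⟨hSc.image k, fun hl => hS.prop.2 ?_⟩ hsub)
    obtain ⟨l, h1, h2⟩ := hl
    have hslit : ∀ x ∈ S, g (k x) / g x ∈ Complex.slitPlane := by
      intro x hx
      have hx0 := h0 x (hSK hx)
      have e : g (k x) / g x = 1 + (g (k x) - g x) / g x := by field_simp; ring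
      rw [e]
      apply Complex.mem_slitPlane_of_norm_lt_one
      rw [norm_div, div_lt_one (norm_pos_iff.2 hx0), ← dist_eq_norm]
      exact (hu (hk x)).trans_le (hm' x hx)
    refine ⟨fun x => l (k x) - Complex.log (g (k x) / g x),
      (h1.comp k.continuous.continuousOn (mapsTo_image k S)).sub
        (((hg.comp k.continuous).continuousOn.div hg.continuousOn
          fun x hx => h0 x (hSK hx)).clog hslit), fun x hx => ?_⟩
    have hk0 : g (k x) ≠ 0 := h0 _ (hSK (hsub (mem_image_of_mem k hx)))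
    have hx0 := h0 x (hSK hx)
    rw [Complex.exp_sub, Complex.exp_log (Complex.slitPlane_ne_zero (hslit x hx)),
      h2 _ (mem_image_of_mem k hx)]
    field_simp
  have hinv : Inv S ω := by
    intro k hk hm
    rcases hT.2 _ (hSc.image k) hm with h | h
    · exact sub k hk h
    · have h1 : k.symm '' S ⊆ S := by
        rintro _ ⟨s, hs, rfl⟩
        obtain ⟨t, ht, rfl⟩ := h hs
        rwa [k.symm_apply_apply]
      have h2 := sub k.symm hk.symm h1
      conv_lhs => rw [← h2]
      rw [image_image]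
      simp
  have : CompactSpace S := isCompact_iff_compactSpace.1 hSc.1
  obtain ⟨l, hl, hl'⟩ := exists_log
    (shape_of_inv eff hω hT (fun e => hne (univ_subset_iff.1 (e ▸ hSK))) hinv)
    (fun x : S => g x) (hg.comp continuous_subtype_val) fun x => h0 x (hSK x.2)
  refine hS.prop.2 ⟨fun x => if h : x ∈ S then l ⟨x, h⟩ else 0, ?_, fun x hx => ?_⟩
  · rw [continuousOn_iff_continuous_domRestrict]
    exact hl.congr fun x => (dif_pos x.2 : (if h : (x : X) ∈ S then l ⟨x, h⟩ else 0) = l x).symm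
  · show Complex.exp (if h : x ∈ S then l ⟨x, h⟩ else 0) = g x
    rw [dif_pos hx]
    exact hl' ⟨x, hx⟩

theorem extend_of_logs {A : Set X} (hA : IsClosed A) (g : X → ℂ) (hg : Continuous g)
    (hi : ∀ v ∈ A, HasLog g (connectedComponentIn A v)) :
    ∃ G : X → ℂ, Continuous G ∧ (∀ x, G x ≠ 0) ∧ ∀ x ∈ A, G x = g x := by
  classical
  obtain ⟨Q, -, -, c, -, l, hl, hl'⟩ := hull_ind
    (P := fun N => ∃ l : X → ℂ, ContinuousOn l N ∧ ∀ x ∈ N, Complex.exp (l x) = g x)
    ⟨fun _ => 0, continuousOn_empty _, fun _ h => h.elim⟩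
    (fun _ _ h1 ⟨l, h2, h3⟩ => ⟨l, h2.mono h1, fun x hx => h3 x (h1 hx)⟩)
    (fun B C hB hC hd ⟨l, h2, h3⟩ ⟨l', h2', h3'⟩ => by
      refine ⟨fun x => if x ∈ B then l x else l' x, ContinuousOn.union_of_isClosed
        (h2.congr fun x hx => if_pos hx)
        (h2'.congr fun x hx => if_neg fun h4 => disjoint_left.1 hd h4 hx) hB hC, fun x hx => ?_⟩
      show Complex.exp (if x ∈ B then l x else l' x) = g x
      split_ifs with h4
      · exact h3 x h4
      · exact h3' x (hx.resolve_left h4))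
    hA.isCompact hA.isCompact Subset.rfl (fun v hv => (hi v hv).nhds hg
      (comp_compact hA.isCompact v).isClosed)
  obtain ⟨L, hL⟩ := ContinuousMap.exists_restrict_eq (Y := ℂ) hA
    ⟨A.domRestrict l, continuousOn_iff_continuous_domRestrict.1 (hl.mono c)⟩
  refine ⟨fun x => Complex.exp (L x), Complex.continuous_exp.comp L.continuous,
    fun x => Complex.exp_ne_zero _, fun x hx => ?_⟩
  have : L x = l x := congrArg (fun f : C(A, ℂ) => f ⟨x, hx⟩) hL
  show Complex.exp (L x) = g x
  rw [this, hl' x (c hx)]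

theorem ext_of_logs {d : ℝ} (hd : 0 < d)
    (h : ∀ K : Set X, Cont K → (∀ x ∈ K, ∀ y ∈ K, dist x y < d) → ∀ g : X → ℂ, Continuous g →
      (∀ x ∈ K, g x ≠ 0) → HasLog g K) : Loc.Ext X := by
  classical
  have key : ∃ C : Set X, IsClosed C ∧ univ ⊆ C ∧ ∀ A : Set X, IsClosed A → ∀ g : X → ℂ,
      Continuous g → (∀ x ∈ A, g x ≠ 0) →
      ∃ G : X → ℂ, Continuous G ∧ (∀ x ∈ A ∪ C, G x ≠ 0) ∧ ∀ x ∈ A, G x = g x := by
    refine isCompact_univ.induction_on (p := fun T => ∃ C : Set X, IsClosed C ∧ T ⊆ C ∧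
      ∀ A : Set X, IsClosed A → ∀ g : X → ℂ, Continuous g → (∀ x ∈ A, g x ≠ 0) →
      ∃ G : X → ℂ, Continuous G ∧ (∀ x ∈ A ∪ C, G x ≠ 0) ∧ ∀ x ∈ A, G x = g x) ?_ ?_ ?_ ?_
    · exact ⟨∅, isClosed_empty, Subset.rfl, fun A _ g hg h0 =>
        ⟨g, hg, fun x hx => h0 x (by simpa using hx), fun _ _ => rfl⟩⟩
    · rintro s t hst ⟨C, a, b, c⟩
      exact ⟨C, a, hst.trans b, c⟩
    · rintro s t ⟨C, a, b, c⟩ ⟨C', a', b', c'⟩
      refine ⟨C ∪ C', a.union a', union_subset_union b b', fun A hA g hg h0 => ?_⟩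
      obtain ⟨G, g1, g2, g3⟩ := c A hA g hg h0
      obtain ⟨G', g1', g2', g3'⟩ := c' (A ∪ C) (hA.union a) G g1 g2
      exact ⟨G', g1', fun x hx => g2' x (by rwa [union_assoc]),
        fun x hx => (g3' x (Or.inl hx)).trans (g3 x hx)⟩
    · intro z _
      refine ⟨closedBall z (d / 3), mem_nhdsWithin_of_mem_nhds
        (closedBall_mem_nhds z (by positivity)), closedBall z (d / 3), isClosed_closedBall,
        Subset.rfl, fun A hA g hg h0 => ?_⟩
      have hAC : IsClosed (A ∩ closedBall z (d / 3)) := hA.inter isClosed_closedBall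
      obtain ⟨G, g1, g2, g3⟩ := extend_of_logs hAC g hg (fun v hv => h _
        ⟨comp_compact hAC.isCompact v, isConnected_connectedComponentIn_iff.2 hv⟩
        (fun x hx y hy => by
          have e1 := mem_closedBall.1 (connectedComponentIn_subset _ _ hx).2
          have e2 := mem_closedBall.1 (connectedComponentIn_subset _ _ hy).2
          have e3 := dist_triangle_right x y z
          linarith) g hg fun x hx => h0 x (connectedComponentIn_subset _ _ hx).1)
      let f : X → ℂ := fun x => if x ∈ A then g x else G x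
      have hf : ContinuousOn f (A ∪ closedBall z (d / 3)) := by
        refine ContinuousOn.union_of_isClosed (hg.continuousOn.congr fun x hx => if_pos hx)
          (g1.continuousOn.congr fun x hx => ?_) hA isClosed_closedBall
        show (if x ∈ A then g x else G x) = G x
        split_ifs with h1
        · exact (g3 x ⟨h1, hx⟩).symm
        · rfl
      obtain ⟨F, hF⟩ := ContinuousMap.exists_restrict_eq (Y := ℂ) (hA.union isClosed_closedBall)
        ⟨(A ∪ closedBall z (d / 3)).domRestrict f, continuousOn_iff_continuous_domRestrict.1 hf⟩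
      have hF' : ∀ x ∈ A ∪ closedBall z (d / 3), F x = f x := fun x hx =>
        congrArg (fun k : C((A ∪ closedBall z (d / 3) : Set X), ℂ) => k ⟨x, hx⟩) hF
      refine ⟨F, F.continuous, fun x hx => ?_, fun x hx => (hF' x (Or.inl hx)).trans (if_pos hx)⟩
      rw [hF' x hx]
      show (if x ∈ A then g x else G x) ≠ 0
      split_ifs with h1
      · exact h0 x h1
      · exact g2 x
  obtain ⟨C, -, b, c⟩ := key
  intro A hA g hg h0
  obtain ⟨G, g1, g2, g3⟩ := c A hA g hg h0
  exact ⟨G, g1, fun x => g2 x (Or.inr (b (mem_univ x))), g3⟩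

/-- a homogeneous continuum with a proper nondegenerate terminal subcontinuum has dimension at
most one -/
theorem dimOne_of_term [ConnectedSpace X] (hom : ∀ x y : X, ∃ h : X ≃ₜ X, h x = y)
    {D : Set X} (hD : Term D) (hnt : D.Nontrivial) (hne : D ≠ univ) : DimOne X := by
  have eff := effros hom
  obtain ⟨d, hd, hK⟩ := small_term hom eff hD hnt hne (nested_of_proper_term hom)
  obtain ⟨p, -, q, -, hpq⟩ := hnt
  have hx : Loc.Ext X := ext_of_logs (lt_min hd (dist_pos.2 hpq)) fun K hKc hs g hg h0 =>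
    hasLog_of_term eff hKc
      (fun e => absurd (hs p (e ▸ mem_univ p) q (e ▸ mem_univ q)) (not_lt.2 (min_le_right _ _)))
      (fun L hL hLK => hK L hL fun x hx y hy =>
        (hs x (hLK hx) y (hLK hy)).trans_le (min_le_left _ _)) hg h0
  exact fun k U hU hc => Loc.dim_le_one hx k U hU hc

/-- a homogeneous decomposable continuum that is not aposyndetic has dimension at most one -/
theorem dimOne_of_dec [ConnectedSpace X] (hom : ∀ x y : X, ∃ h : X ≃ₜ X, h x = y)
    (ha : ¬ Apo X) (hd : ¬ Indec X) : DimOne X := by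
  obtain ⟨D, hD, hnt, hne⟩ := exists_proper_term hom (effros hom) ha hd
  exact dimOne_of_term hom hD hnt hne

end Pool.Agent.Lib.MP_11d477_gt.HI
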