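import Mathlib

/-! A nondegenerate connected space does not have covering dimension zero. -/

set_option autoImplicit false

open Set

namespace Pool.Agent.Lib.MP_11d477_gt.HI

theorem not_dim_zero (X : Type) [MetricSpace X] [ConnectedSpace X] [Nontrivial X] :
    ¬ ∀ (k : ℕ) (U : Fin k → Set X), (∀ i, IsOpen (U i)) → (⋃ i, U i) = Set.univ →
      ∃ V : Fin k → Set X, (∀ i, IsOpen (V i)) ∧ (∀ i, V i ⊆ U i) ∧ (⋃ i, V i) = Set.univ ∧
        ∀ x : X, Set.ncard {i : Fin k | x ∈ V i} ≤ 0 + 1 := by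
  intro h
  obtain ⟨a, b, hab⟩ := exists_pair_ne X
  obtain ⟨V, hVo, hVU, hVc, hV⟩ := h 2 ![{a}ᶜ, {b}ᶜ]
    (fun i => by fin_cases i <;> simp) (by
      apply eq_univ_of_forall
      intro x
      by_cases hx : x = a
      · exact mem_iUnion.2 ⟨1, by simp [hx, hab]⟩
      · exact mem_iUnion.2 ⟨0, by simp [hx]⟩)
  have hcov : ∀ x, x ∈ V 0 ∨ x ∈ V 1 := by
    intro x
    obtain ⟨i, hi⟩ := mem_iUnion.1 (hVc ▸ mem_univ x : x ∈ ⋃ i, V i)
    fin_cases i
    exacts [Or.inl hi, Or.inr hi]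
  have ha : a ∈ V 1 := (hcov a).resolve_left fun h0 => by simpa using hVU 0 h0
  have hb : b ∈ V 0 := (hcov b).resolve_right fun h1 => by simpa using hVU 1 h1
  obtain ⟨x, -, h0, h1⟩ := isPreconnected_univ (V 0) (V 1) (hVo 0) (hVo 1) (fun x _ => hcov x)
    ⟨b, mem_univ _, hb⟩ ⟨a, mem_univ _, ha⟩
  have : {i : Fin 2 | x ∈ V i} = univ := by
    apply eq_univ_of_forall
    intro i
    fin_cases i
    exacts [h0, h1]
  have h2 := hV x
  rw [this, ncard_univ] at h2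
  simp at h2

end Pool.Agent.Lib.MP_11d477_gt.HI
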